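import Pool.Agent.H17.CF.B.Cond

/-!
# CF-B3: adding entries to conditions

PROOFS. `add_tree`: let `p' = insert (ent (row μ r) y z) p`. `fn`: by hypothesis `hno`. `mkr`: for an old entry of stage `ν`:
`rst p ν ⊆ rst p' ν`, so `Act.mono` with `LE.of_sub`; for the new entry with `r = 3`: `rst p μ = rst p' μ` (the
new entry has stage `μ ∉ μ`), use `hact`. `sp`, `sp2`: the new entry is not in a spec row (`natZ_inj`), `Opn.mono`.

`add_spec`: if `x` has no entry in the row `(μ, 4)` of `p`: choose a natural number `n` that is not a colour of `p`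
(`p` is finite) and add `ent (row μ 4) x (natZ n)`: no two different nodes get the same new colour; `Bel x x` is
impossible (`a ∈ a`).

`add_any`: for a tree row with `r < 3`, or `r = 3` and `Act`, every level `y` can be added.
-/

set_option autoImplicit false
set_option linter.unusedVariables false
set_option linter.unusedSectionVars false
set_option linter.unusedSimpArgs false
set_option linter.unusedTactic false
set_option linter.unreachableTactic false

open Pool.Agent.H17.Omega Pool.Agent.H17.Omega.CTM Pool.Agent.H52.GC Pool.Agent.H7.IG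

namespace Pool.Agent.H17.CF

variable {Ω : Ordinal.{0}} {s : ZFSet.{0}}

theorem not_bel_self (x : ZFSet.{0}) : ¬ Bel x x := by
  rintro ⟨a, m, b, n, h1, h2, h3⟩
  have h4 := (ZFSet.pair_inj.1 (h1.symm.trans h2)).1
  rw [h4] at h3
  exact ZFSet.mem_irrefl _ h3

theorem addx_rst {p q μ : ZFSet.{0}} (h : p ⊆ q) : rst p μ ⊆ rst q μ := by
  intro e he
  rw [rst, ZFSet.mem_sep] at he ⊢
  exact ⟨h he.1, he.2⟩

theorem addx_row {μ ν : ZFSet.{0}} {r r' : ℕ} (h : row μ r = row ν r') : μ = ν ∧ r = r' := by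
  unfold row at h
  rw [ZFSet.pair_inj, natZ_inj] at h
  exact h

theorem addx_ent {ρ y z ρ' y' z' : ZFSet.{0}} (h : ent ρ y z = ent ρ' y' z') : ρ = ρ' ∧ y = y' ∧ z = z' := by
  unfold ent at h
  rw [ZFSet.pair_inj, ZFSet.pair_inj] at h
  exact h

theorem addx_sub {e p : ZFSet.{0}} : p ⊆ insert e p := fun _ h => ZFSet.mem_insert_iff.2 (Or.inr h)

theorem addx_fin {e p : ZFSet.{0}} (h : FinZ p) : FinZ (insert e p) := by
  classical
  obtain ⟨t, ht⟩ := h
  refine ⟨insert e t, fun z => ?_⟩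
  rw [ZFSet.mem_insert_iff, Finset.mem_insert, ht]

theorem addx_ins {α p μ y z : ZFSet.{0}} {r : ℕ} (hω : Ordinal.omega0 ≤ Ω) (hp : p ∈ Sn Ω s α)
    (hμ : μ ∈ α) (hC : IsC Ω s (insert (ent (row μ r) y z) p)) : insert (ent (row μ r) y z) p ∈ Sn Ω s α := by
  obtain ⟨h1, h2, h3⟩ := (mem_Sn hω).1 hp
  refine (mem_Sn hω).2 ⟨hC, addx_fin h2, fun ν r' y' z' h => ?_⟩
  rcases ZFSet.mem_insert_iff.1 h with h | h
  · have h4 := (addx_ent h).1
    unfold row at h4
    rw [(ZFSet.pair_inj.1 h4).1]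
    exact hμ
  · exact h3 _ _ _ _ h

theorem add_tree {α p μ y z : ZFSet.{0}} {r : ℕ} (hω : Ordinal.omega0 ≤ Ω) (hα : α.IsOrdinal) (hp : p ∈ Sn Ω s α)
    (hμ : μ ∈ α) (hr : r < 4) (hact : r = 3 → Act Ω s μ (rst p μ)) (hy : y ∈ LvZ Ω) (hz : z ∈ finS y)
    (hno : ∀ z', ent (row μ r) y z' ∈ p → z' = z) : insert (ent (row μ r) y z) p ∈ Sn Ω s α := by
  obtain ⟨hC, hF, hS⟩ := (mem_Sn hω).1 hp
  refine addx_ins hω hp hμ ⟨?_, ?_, ?_, ?_, ?_⟩
  · intro ρ y1 z1 z2 h1 h2
    rcases ZFSet.mem_insert_iff.1 h1 with h3 | h3 <;> rcases ZFSet.mem_insert_iff.1 h2 with h4 | h4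
    · rw [(addx_ent h3).2.2, (addx_ent h4).2.2]
    · obtain ⟨e1, e2, e3⟩ := addx_ent h3
      rw [e1, e2] at h4
      rw [e3]
      exact (hno _ h4).symm
    · obtain ⟨e1, e2, e3⟩ := addx_ent h4
      rw [e1, e2] at h3
      rw [e3]
      exact hno _ h3
    · exact hC.fn _ _ _ _ h3 h4
  · intro e he
    rcases ZFSet.mem_insert_iff.1 he with rfl | he
    · exact ⟨μ, y, z, Or.inl ⟨r, hr, rfl, hy, hz⟩⟩
    · exact hC.ty e he
  · intro ν y' z' h
    have hsub : rst p ν ⊆ rst (insert (ent (row μ r) y z) p) ν := addx_rst addx_sub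
    rcases ZFSet.mem_insert_iff.1 h with h | h
    · obtain ⟨rfl, rfl⟩ := addx_row (addx_ent h).1
      exact (hact rfl).mono (LE.of_sub hsub)
    · exact (hC.mkr _ _ _ h).mono (LE.of_sub hsub)
  · intro ν x n h
    rcases ZFSet.mem_insert_iff.1 h with h | h
    · have := (addx_row (addx_ent h).1).2
      omega
    · exact hC.sp _ _ _ h
  · intro ν x1 x2 n h1 h2 hb
    have hsub : rst p ν ⊆ rst (insert (ent (row μ r) y z) p) ν := addx_rst addx_sub
    rcases ZFSet.mem_insert_iff.1 h1 with h1 | h1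
    · have := (addx_row (addx_ent h1).1).2
      omega
    · rcases ZFSet.mem_insert_iff.1 h2 with h2 | h2
      · have := (addx_row (addx_ent h2).1).2
        omega
      · exact (hC.sp2 _ _ _ _ h1 h2 hb).mono (LE.of_sub hsub)

/-- Every level can be added to a tree row (that is active below `p` if `r = 3`). -/
theorem add_any {α p μ y : ZFSet.{0}} {r : ℕ} (hω : Ordinal.omega0 ≤ Ω) (hα : α.IsOrdinal) (hp : p ∈ Sn Ω s α)
    (hμ : μ ∈ α) (hr : r < 4) (hact : r = 3 → Act Ω s μ (rst p μ)) (hy : y ∈ LvZ Ω) :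
    ∃ p' ∈ Sn Ω s α, p ⊆ p' ∧ ∃ z, ent (row μ r) y z ∈ p' := by
  by_cases h : ∃ z, ent (row μ r) y z ∈ p
  · exact ⟨p, hp, fun _ h => h, h⟩
  · push Not at h
    have h0 : (∅ : ZFSet.{0}) ∈ finS y := by
      rw [mem_finS]
      refine ⟨ZFSet.empty_subset y, ∅, fun z => ?_⟩
      simp
    exact ⟨_, add_tree hω hα hp hμ hr hact hy h0 (fun z' hz' => absurd hz' (h z')), addx_sub, ∅,
      ZFSet.mem_insert_iff.2 (Or.inl rfl)⟩

theorem add_spec {α p μ x : ZFSet.{0}} (hω : Ordinal.omega0 ≤ Ω) (hα : α.IsOrdinal) (hp : p ∈ Sn Ω s α)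
    (hμ : μ ∈ α) (hst : ∃ τ, st s μ τ) (hx : x ∈ Nd Ω omZ) :
    ∃ p' ∈ Sn Ω s α, p ⊆ p' ∧ ∃ n, ent (row μ 4) x n ∈ p' := by
  by_cases hex : ∃ n, ent (row μ 4) x n ∈ p
  · exact ⟨p, hp, fun _ h => h, hex⟩
  push Not at hex
  obtain ⟨hC, hF, hS⟩ := (mem_Sn hω).1 hp
  have hn : ∃ n : ℕ, ∀ ρ w, ent ρ w (natZ n) ∉ p := by
    by_contra hcon
    push Not at hcon
    choose ρ w hρ using hcon
    obtain ⟨t, ht⟩ := hF
    have hinf : Set.Infinite {z | z ∈ p} :=
      Set.infinite_of_injective_forall_mem (f := fun n => ent (ρ n) (w n) (natZ n))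
        (fun m n h => natZ_inj.1 (addx_ent h).2.2) hρ
    exact hinf (t.finite_toSet.subset fun z hz => (ht z).1 hz)
  obtain ⟨n, hn⟩ := hn
  refine ⟨insert (ent (row μ 4) x (natZ n)) p, addx_ins hω hp hμ ⟨?_, ?_, ?_, ?_, ?_⟩, addx_sub, natZ n,
    ZFSet.mem_insert_iff.2 (Or.inl rfl)⟩
  · intro ρ y1 z1 z2 h1 h2
    rcases ZFSet.mem_insert_iff.1 h1 with h3 | h3 <;> rcases ZFSet.mem_insert_iff.1 h2 with h4 | h4
    · rw [(addx_ent h3).2.2, (addx_ent h4).2.2]
    · obtain ⟨e1, e2, -⟩ := addx_ent h3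
      rw [e1, e2] at h4
      exact absurd h4 (hex _)
    · obtain ⟨e1, e2, -⟩ := addx_ent h4
      rw [e1, e2] at h3
      exact absurd h3 (hex _)
    · exact hC.fn _ _ _ _ h3 h4
  · intro e he
    rcases ZFSet.mem_insert_iff.1 he with rfl | he
    · exact ⟨μ, x, natZ n, Or.inr ⟨rfl, hx, natZ_mem_omZ n⟩⟩
    · exact hC.ty e he
  · intro ν y' z' h
    have hsub : rst p ν ⊆ rst (insert (ent (row μ 4) x (natZ n)) p) ν := addx_rst addx_sub
    rcases ZFSet.mem_insert_iff.1 h with h | h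
    · have := (addx_row (addx_ent h).1).2
      omega
    · exact (hC.mkr _ _ _ h).mono (LE.of_sub hsub)
  · intro ν x' n' h
    rcases ZFSet.mem_insert_iff.1 h with h | h
    · rw [(addx_row (addx_ent h).1).1]
      exact hst
    · exact hC.sp _ _ _ h
  · intro ν x1 x2 m h1 h2 hb
    have hsub : rst p ν ⊆ rst (insert (ent (row μ 4) x (natZ n)) p) ν := addx_rst addx_sub
    rcases ZFSet.mem_insert_iff.1 h1 with h1 | h1 <;> rcases ZFSet.mem_insert_iff.1 h2 with h2 | h2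
    · rw [(addx_ent h1).2.1, (addx_ent h2).2.1] at hb
      exact absurd hb (not_bel_self x)
    · rw [(addx_ent h1).2.2] at h2
      exact absurd h2 (hn _ _)
    · rw [(addx_ent h2).2.2] at h1
      exact absurd h1 (hn _ _)
    · exact (hC.sp2 _ _ _ _ h1 h2 hb).mono (LE.of_sub hsub)

/-- If `p` has an entry in the row `(μ, 3)` then the marker is active below `p`. -/
theorem act_of_ent {α p μ y z : ZFSet.{0}} (hp : p ∈ Sn Ω s α) (h : ent (row μ 3) y z ∈ p) : Act Ω s μ (rst p μ) :=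
  (ZFSet.mem_sep.1 hp).2.mkr μ y z h

end Pool.Agent.H17.CF
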