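import Pool.Agent.H17.CF.B.Tr

/-!
# CF-B2: conditions: restriction, monotonicity, translation, amalgamation

`s` is a set of pairs (ordinal, instruction); the only properties of `s` needed here are none (all facts are about
`Act`, `Opn`, which are monotone in the condition).

PROOFS. `Act.mono`, `Opn.mono`: `LE.trans`. `rst_rst`: `rst (rst p β) α = rst p α` for `α ⊆ β`.
`IsC.rst`: restriction of a condition is a condition: for an entry of stage `ν` of `rst p α` (`ν ∈ α`), `rst (rst p α) ν =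
rst p ν` if `ν ⊆ α` (`α` is an ordinal: transitive).
`LE.rst`: `LE Ω c p q → LE Ω c (rst p α) (rst q α)` (the same translation).
`LE.rst0`: if `q` has only rows of stage `∈ α` then `LE Ω c p q → LE Ω c (rst p α) q`.
`IsC.trp`: a translate of a condition is a condition: `trp K p` has the same rows; `rst (trp K p) μ = trp K (rst p μ)`;
`LE Ω ∅ (trp K p') p'`, so `Act` and `Opn` are preserved (`Act.mono`); `fn`: by `ent_mem_trp` and injectivity of `tr K ρ y`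
(`tr_self`); `ty`: `tr_finS`, `tr_spec`.

`amal` (amalgamation). Let `p ∈ Sn Ω s β`, `r ∈ Sn Ω s α`, `α ≤ β`, `r ≤_c rst p α`. Then `u = r ∪ (p \ rst p α)` is in `Sn Ω s β`,
`u ≤_c p`, `r ⊆ u`, `rst u α = r`. `u ≤_c p`: take `K` from `LE.cut` for `r ≤_c rst p α`: it has only rows that occur in
`rst p α`, so it does not move the entries of `p` of stage `∉ α`. `IsC`: for an entry of stage `μ ∈ α`: `rst u μ = rst r μ`;
for an entry of stage `μ ∉ α` (from `p`): `LE Ω ∅ (rst u μ) (rst p μ)` and `Act.mono`, `Opn.mono`; two entries of stage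
`∉ α` both come from `p`. Stages are ordinals, so `μ ∉ α` means `α ⊆ μ`.

`amal2`. Let `p, q ∈ Sn Ω s β`, `γ ≤ β`, `u ∈ Sn Ω s γ` with `u ≤_c rst p γ`, `u ≤_c rst q γ`, and suppose that no stage `μ ∉ γ` occurs
both in `p` and `q`. Then `v = u ∪ (p \ rst p γ) ∪ (q \ rst q γ) ∈ Sn Ω s β`, `v ≤_c p`, `v ≤_c q`, `u ⊆ v`.
Same proof.
-/

set_option autoImplicit false
set_option linter.unusedVariables false
set_option linter.unusedSectionVars false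
set_option linter.unusedSimpArgs false
set_option linter.unusedTactic false
set_option linter.unreachableTactic false

open Pool.Agent.H17.Omega Pool.Agent.H17.Omega.CTM Pool.Agent.H52.GC Pool.Agent.H7.IG

namespace Pool.Agent.H17.CF

variable {Ω : Ordinal.{0}} {s : ZFSet.{0}}

theorem Act.mono {μ q r : ZFSet.{0}} (h : Act Ω s μ q) (hr : LE Ω ∅ r q) : Act Ω s μ r := by
  obtain ⟨θ, F, X, q', h1, h2, h3, h4⟩ := h
  exact ⟨θ, F, X, q', h1, h2, h3, hr.trans h4⟩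

theorem Opn.mono {μ x y q r : ZFSet.{0}} (h : Opn Ω s μ x y q) (hr : LE Ω ∅ r q) : Opn Ω s μ x y r := by
  obtain ⟨τ, q', h1, h2, h3⟩ := h
  exact ⟨τ, q', h1, h2, hr.trans h3⟩

theorem IsC.isE {p : ZFSet.{0}} (h : IsC Ω s p) : IsE p := by
  intro e he
  obtain ⟨μ, y, z, ⟨r, _, h1, _⟩ | ⟨h1, _⟩⟩ := h.ty e he
  · exact ⟨_, _, _, h1⟩
  · exact ⟨_, _, _, h1⟩

theorem mem_rst {p μ t ν r : ZFSet.{0}} :
    ZFSet.pair (ZFSet.pair ν r) t ∈ rst p μ ↔ ZFSet.pair (ZFSet.pair ν r) t ∈ p ∧ ν ∈ μ := by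
  rw [rst, ZFSet.mem_sep]
  constructor
  · rintro ⟨h1, ν', r', t', h2, h3⟩
    rw [ZFSet.pair_inj, ZFSet.pair_inj] at h2
    exact ⟨h1, h2.1.1 ▸ h3⟩
  · rintro ⟨h1, h2⟩
    exact ⟨h1, ν, r, t, rfl, h2⟩

theorem rst_sub {p μ : ZFSet.{0}} : rst p μ ⊆ p := fun e he => (ZFSet.mem_sep.1 he).1

theorem rst_rst {p α β : ZFSet.{0}} (h : α ⊆ β) : rst (rst p β) α = rst p α := by
  ext e
  constructor
  · intro he
    obtain ⟨h1, ν, r, t, rfl, h2⟩ := ZFSet.mem_sep.1 he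
    exact mem_rst.2 ⟨rst_sub h1, h2⟩
  · intro he
    obtain ⟨h1, ν, r, t, rfl, h2⟩ := ZFSet.mem_sep.1 he
    exact mem_rst.2 ⟨mem_rst.2 ⟨h1, h h2⟩, h2⟩

/-- The stage of an element of a restriction. -/
theorem cd_stage {p μ ρ y z : ZFSet.{0}} (h : ent ρ y z ∈ rst p μ) : ent ρ y z ∈ p ∧ ∃ ν r, ρ = ZFSet.pair ν r ∧ ν ∈ μ := by
  obtain ⟨h1, ν, r, t, h2, h3⟩ := ZFSet.mem_sep.1 h
  exact ⟨h1, ν, r, (ZFSet.pair_inj.1 h2).1, h3⟩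

theorem cd_mem_rst {p μ ρ y z ν r : ZFSet.{0}} (h : ent ρ y z ∈ p) (h1 : ρ = ZFSet.pair ν r) (h2 : ν ∈ μ) :
    ent ρ y z ∈ rst p μ := by
  subst h1
  exact mem_rst.2 ⟨h, h2⟩

theorem cd_row {p α μ y z : ZFSet.{0}} {r : ℕ} : ent (row μ r) y z ∈ rst p α ↔ ent (row μ r) y z ∈ p ∧ μ ∈ α :=
  mem_rst

theorem cd_fin_sub {a b : ZFSet.{0}} (h : FinZ a) (hb : b ⊆ a) : FinZ b := by
  classical
  obtain ⟨t, ht⟩ := h
  refine ⟨t.filter fun z => z ∈ b, fun z => ?_⟩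
  rw [Finset.mem_filter]
  exact ⟨fun hz => ⟨(ht z).1 (hb hz), hz⟩, fun hz => hz.2⟩

theorem cd_fin_union {a b : ZFSet.{0}} (h : FinZ a) (h' : FinZ b) : FinZ (a ∪ b) := by
  classical
  obtain ⟨t, ht⟩ := h
  obtain ⟨t', ht'⟩ := h'
  exact ⟨t ∪ t', fun z => by rw [ZFSet.mem_union, Finset.mem_union, ht, ht']⟩

theorem cd_fin_natZ (n : ℕ) : FinZ (natZ n) := by
  classical
  refine ⟨(Finset.range n).image natZ, fun z => ?_⟩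
  rw [mem_natZ, Finset.mem_image]
  constructor
  · rintro ⟨m, hm, rfl⟩
    exact ⟨m, Finset.mem_range.2 hm, rfl⟩
  · rintro ⟨m, hm, rfl⟩
    exact ⟨m, Finset.mem_range.1 hm, rfl⟩

theorem cd_diff {a b z : ZFSet.{0}} : z ∈ a \ b ↔ z ∈ a ∧ z ∉ b := ZFSet.mem_sdiff

theorem mem_Ent {α e : ZFSet.{0}} : e ∈ Ent Ω α ↔ ∃ μ ∈ α, ∃ r < 5, ∃ y ∈ Ω.toZFSet ∪ Nd Ω omZ, ∃ z ∈ finS Ω.toZFSet,
    e = ent (row μ r) y z := by
  rw [Ent, ZFSet.mem_prod]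
  constructor
  · rintro ⟨a, ha, b, hb, rfl⟩
    rw [ZFSet.mem_prod] at ha hb
    obtain ⟨μ, hμ, c, hc, rfl⟩ := ha
    obtain ⟨y, hy, z, hz, rfl⟩ := hb
    obtain ⟨r, hr, rfl⟩ := mem_natZ.1 hc
    exact ⟨μ, hμ, r, hr, y, hy, z, hz, rfl⟩
  · rintro ⟨μ, hμ, r, hr, y, hy, z, hz, rfl⟩
    refine ⟨row μ r, ?_, ZFSet.pair y z, ?_, rfl⟩
    · exact ZFSet.pair_mem_prod.2 ⟨hμ, mem_natZ.2 ⟨r, hr, rfl⟩⟩
    · exact ZFSet.pair_mem_prod.2 ⟨hy, hz⟩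

theorem cd_row_inj {μ μ' : ZFSet.{0}} {r r' : ℕ} (h : row μ r = row μ' r') : μ = μ' ∧ r = r' := by
  have h1 := ZFSet.pair_inj.1 h
  exact ⟨h1.1, natZ_inj.1 h1.2⟩

/-- Membership in `Sn`. -/
theorem mem_Sn {α p : ZFSet.{0}} (hω : Ordinal.omega0 ≤ Ω) : p ∈ Sn Ω s α ↔ IsC Ω s p ∧ FinZ p ∧
    ∀ μ r y z, ent (row μ r) y z ∈ p → μ ∈ α := by
  rw [Sn, ZFSet.mem_sep, mem_finS]
  constructor
  · rintro ⟨⟨h1, h2⟩, h3⟩
    refine ⟨h3, h2, fun μ r y z he => ?_⟩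
    obtain ⟨μ', hμ', r', _, y', _, z', _, h4⟩ := mem_Ent.1 (h1 he)
    rw [(cd_row_inj (ent_inj.1 h4).1).1]
    exact hμ'
  · rintro ⟨h1, h2, h3⟩
    refine ⟨⟨fun e he => ?_, h2⟩, h1⟩
    obtain ⟨μ, y, z, ⟨r, hr, h4, hy, hz⟩ | ⟨h4, hy, hz⟩⟩ := h1.ty e he
    · have hμ : μ ∈ α := h3 μ r y z (h4 ▸ he)
      have hyΩ : y ∈ Ω.toZFSet := (ZFSet.mem_sep.1 hy).1
      obtain ⟨hz1, hz2⟩ := mem_finS.1 hz
      refine mem_Ent.2 ⟨μ, hμ, r, by omega, y, ZFSet.mem_union.2 (Or.inl hyΩ), z, mem_finS.2 ⟨fun t ht => ?_, hz2⟩, h4⟩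
      exact (ZFSet.isOrdinal_toZFSet Ω).isTransitive.mem_trans (hz1 ht) hyΩ
    · have hμ : μ ∈ α := h3 μ 4 y z (h4 ▸ he)
      obtain ⟨n, rfl⟩ := mem_omZ.1 hz
      refine mem_Ent.2 ⟨μ, hμ, 4, by omega, y, ZFSet.mem_union.2 (Or.inr hy), natZ n,
        mem_finS.2 ⟨fun t ht => ?_, cd_fin_natZ n⟩, h4⟩
      obtain ⟨m, _, rfl⟩ := mem_natZ.1 ht
      rw [natZ_eq, Ordinal.toZFSet_mem_toZFSet_iff]
      exact lt_of_lt_of_le (Ordinal.natCast_lt_omega0 m) hω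

theorem Sn_mono {α β : ZFSet.{0}} (hω : Ordinal.omega0 ≤ Ω) (h : α ⊆ β) : Sn Ω s α ⊆ Sn Ω s β := by
  intro p hp
  obtain ⟨h1, h2, h3⟩ := (mem_Sn hω).1 hp
  exact (mem_Sn hω).2 ⟨h1, h2, fun μ r y z he => h (h3 μ r y z he)⟩

theorem empty_mem_Sn (α : ZFSet.{0}) : (∅ : ZFSet.{0}) ∈ Sn Ω s α := by
  rw [Sn, ZFSet.mem_sep, mem_finS]
  have h0 : ∀ z : ZFSet.{0}, z ∉ (∅ : ZFSet.{0}) := ZFSet.notMem_empty
  refine ⟨⟨fun e he => absurd he (h0 e), ∅, fun z => ⟨fun hz => absurd hz (h0 z), fun hz => absurd hz (Finset.notMem_empty z)⟩⟩,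
    fun ρ y z z' h _ => absurd h (h0 _), fun e he => absurd he (h0 _), fun μ y z h => absurd h (h0 _),
    fun μ x n h => absurd h (h0 _), fun μ x y n h => absurd h (h0 _)⟩

theorem rst_mem_Sn {α β p : ZFSet.{0}} (hω : Ordinal.omega0 ≤ Ω) (hα : α.IsOrdinal) (hβ : β.IsOrdinal) (hp : p ∈ Sn Ω s β) :
    rst p α ∈ Sn Ω s α := by
  obtain ⟨h1, h2, h3⟩ := (mem_Sn hω).1 hp
  refine (mem_Sn hω).2 ⟨⟨?_, ?_, ?_, ?_, ?_⟩, cd_fin_sub h2 rst_sub, fun μ r y z he => (cd_row.1 he).2⟩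
  · intro ρ y z z' h h'
    exact h1.fn ρ y z z' (rst_sub h) (rst_sub h')
  · intro e he
    exact h1.ty e (rst_sub he)
  · intro μ y z he
    obtain ⟨he, hμ⟩ := cd_row.1 he
    rw [rst_rst (hα.isTransitive.subset_of_mem hμ)]
    exact h1.mkr μ y z he
  · intro μ x n he
    exact h1.sp μ x n (rst_sub he)
  · intro μ x y n he he' hb
    obtain ⟨_, hμ⟩ := cd_row.1 he
    rw [rst_rst (hα.isTransitive.subset_of_mem hμ)]
    exact h1.sp2 μ x y n (rst_sub he) (rst_sub he') hb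

/-- The form of the elements of a condition. -/
theorem cd_form {α p e : ZFSet.{0}} (hω : Ordinal.omega0 ≤ Ω) (hp : p ∈ Sn Ω s α) (he : e ∈ p) :
    ∃ μ r y z, e = ent (row μ r) y z ∧ μ ∈ α := by
  obtain ⟨h1, h2, h3⟩ := (mem_Sn hω).1 hp
  obtain ⟨μ, y, z, ⟨r, hr, h4, hy, hz⟩ | ⟨h4, hy, hz⟩⟩ := h1.ty e he
  · exact ⟨μ, r, y, z, h4, h3 μ r y z (h4 ▸ he)⟩
  · exact ⟨μ, 4, y, z, h4, h3 μ 4 y z (h4 ▸ he)⟩

theorem rst_eq {α p : ZFSet.{0}} (hω : Ordinal.omega0 ≤ Ω) (hp : p ∈ Sn Ω s α) : rst p α = p := by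
  ext e
  refine ⟨fun he => rst_sub he, fun he => ?_⟩
  obtain ⟨μ, r, y, z, rfl, hμ⟩ := cd_form hω hp he
  exact cd_row.2 ⟨he, hμ⟩

theorem LE.rst {c p q α : ZFSet.{0}} (h : LE Ω c p q) : LE Ω c (rst p α) (rst q α) := by
  obtain ⟨K, h1, h2, h3⟩ := h
  refine ⟨K, h1, h2, fun ρ y z he => ?_⟩
  obtain ⟨h4, ν, r, h5, h6⟩ := cd_stage he
  exact cd_mem_rst (h3 ρ y z h4) h5 h6

theorem cd_av (K : ZFSet.{0}) : Av K ∅ := fun ρ a _ => ZFSet.notMem_empty ρ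

theorem trp_mem_Sn {α K p : ZFSet.{0}} (hω : Ordinal.omega0 ≤ Ω) (hα : α.IsOrdinal) (hK : KK Ω K) (hp : p ∈ Sn Ω s α) :
    trp K p ∈ Sn Ω s α := by
  obtain ⟨h1, h2, h3⟩ := (mem_Sn hω).1 hp
  have hE := h1.isE
  have hle : ∀ μ, LE Ω ∅ (Pool.Agent.H17.CF.rst (trp K p) μ) (Pool.Agent.H17.CF.rst p μ) := fun μ =>
    (LE_trp hE hK (cd_av K)).1.rst
  refine (mem_Sn hω).2 ⟨⟨?_, ?_, ?_, ?_, ?_⟩, trp_fin h2, ?_⟩
  · intro ρ y z z' h h'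
    have h4 := h1.fn ρ y _ _ ((ent_mem_trp hE).1 h) ((ent_mem_trp hE).1 h')
    rw [← tr_self K ρ y z, h4, tr_self]
  · intro e he
    obtain ⟨ρ, y, z, h4, rfl⟩ := (mem_trp hE).1 he
    obtain ⟨μ, y', z', ⟨r, hr, h5, hy, hz⟩ | ⟨h5, hy, hz⟩⟩ := h1.ty _ h4
    · obtain ⟨rfl, rfl, rfl⟩ := ent_inj.1 h5
      exact ⟨μ, y, tr K (row μ r) y z, Or.inl ⟨r, hr, rfl, hy, tr_finS hK hz⟩⟩
    · obtain ⟨rfl, rfl, rfl⟩ := ent_inj.1 h5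
      refine ⟨μ, y, z, Or.inr ⟨?_, hy, hz⟩⟩
      rw [tr_spec hK]
  · intro μ y z he
    exact (h1.mkr μ y _ ((ent_mem_trp hE).1 he)).mono (hle μ)
  · intro μ x n he
    exact h1.sp μ x _ ((ent_mem_trp hE).1 he)
  · intro μ x y n he he' hb
    have h4 := (ent_mem_trp hE).1 he
    have h5 := (ent_mem_trp hE).1 he'
    rw [tr_spec hK] at h4 h5
    exact (h1.sp2 μ x y n h4 h5 hb).mono (hle μ)
  · intro μ r y z he
    exact h3 μ r y _ ((ent_mem_trp hE).1 he)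

theorem mem_Ln {α c p q : ZFSet.{0}} :
    ZFSet.pair p q ∈ Ln Ω s α c ↔ p ∈ Sn Ω s α ∧ q ∈ Sn Ω s α ∧ LE Ω c p q := by
  rw [Ln, ZFSet.mem_sep, ZFSet.pair_mem_prod]
  constructor
  · rintro ⟨⟨h1, h2⟩, p', q', h3, h4⟩
    obtain ⟨rfl, rfl⟩ := ZFSet.pair_inj.1 h3
    exact ⟨h1, h2, h4⟩
  · rintro ⟨h1, h2, h3⟩
    exact ⟨⟨h1, h2⟩, p, q, rfl, h3⟩

theorem Ln_pre (α c : ZFSet.{0}) : Pre (Sn Ω s α) (Ln Ω s α c) := by
  refine ⟨?_, ?_, ?_⟩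
  · intro z hz
    have h1 := (ZFSet.mem_sep.1 hz).1
    rw [ZFSet.mem_prod] at h1
    exact h1
  · intro a ha
    exact mem_Ln.2 ⟨ha, ha, LE.refl Ω c a⟩
  · intro a b d hab hbd
    obtain ⟨h1, h2, h3⟩ := mem_Ln.1 hab
    obtain ⟨h4, h5, h6⟩ := mem_Ln.1 hbd
    exact mem_Ln.2 ⟨h1, h5, h3.trans h6⟩

/-- The part of stage `≥ γ` is unchanged. -/
theorem cd_le {γ β c p u v : ZFSet.{0}} (hω : Ordinal.omega0 ≤ Ω) (hp : p ∈ Sn Ω s β) (h : LE Ω c u (rst p γ))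
    (huv : u ⊆ v) (hpv : p \ rst p γ ⊆ v) : LE Ω c v p := by
  obtain ⟨K, h1, h2, h3, h4⟩ := h.cut
  refine ⟨K, h1, h2, fun ρ y z he => ?_⟩
  by_cases hr : ent ρ y z ∈ rst p γ
  · exact huv (h4 ρ y z hr)
  · have h5 : ∀ a, ZFSet.pair ρ a ∉ K := by
      intro a ha
      obtain ⟨y', z', h6⟩ := h3 ρ a ha
      obtain ⟨_, ν, r, h7, h8⟩ := cd_stage h6
      exact hr (cd_mem_rst he h7 h8)
    rw [tr_none h5]
    exact hpv (cd_diff.2 ⟨he, hr⟩)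

/-- An element of stage `≥ γ`. -/
theorem cd_out {γ p μ y z : ZFSet.{0}} {r : ℕ} : ent (row μ r) y z ∈ p \ rst p γ ↔ ent (row μ r) y z ∈ p ∧ μ ∉ γ := by
  rw [cd_diff, cd_row]
  tauto

theorem amal2 {γ β c p q u : ZFSet.{0}} (hω : Ordinal.omega0 ≤ Ω) (hγ : γ.IsOrdinal) (hβ : β.IsOrdinal) (hγβ : γ ⊆ β)
    (hp : p ∈ Sn Ω s β) (hq : q ∈ Sn Ω s β) (hu : u ∈ Sn Ω s γ) (h : LE Ω c u (rst p γ)) (h' : LE Ω c u (rst q γ))
    (hd : ∀ μ r y z r' y' z', μ ∉ γ → ent (row μ r) y z ∈ p → ent (row μ r') y' z' ∉ q) :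
    u ∪ (p \ rst p γ) ∪ (q \ rst q γ) ∈ Sn Ω s β ∧ LE Ω c (u ∪ (p \ rst p γ) ∪ (q \ rst q γ)) p ∧
      LE Ω c (u ∪ (p \ rst p γ) ∪ (q \ rst q γ)) q := by
  generalize hv : u ∪ (p \ rst p γ) ∪ (q \ rst q γ) = v
  have hmv : ∀ e, e ∈ v ↔ e ∈ u ∨ e ∈ p \ rst p γ ∨ e ∈ q \ rst q γ := by
    intro e
    rw [← hv, ZFSet.mem_union, ZFSet.mem_union]
    tauto
  have huv : u ⊆ v := fun e he => (hmv e).2 (Or.inl he)
  have hpv : p \ rst p γ ⊆ v := fun e he => (hmv e).2 (Or.inr (Or.inl he))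
  have hqv : q \ rst q γ ⊆ v := fun e he => (hmv e).2 (Or.inr (Or.inr he))
  have hlp : LE Ω c v p := cd_le hω hp h huv hpv
  have hlq : LE Ω c v q := cd_le hω hq h' huv hqv
  obtain ⟨u1, u2, u3⟩ := (mem_Sn hω).1 hu
  obtain ⟨p1, p2, p3⟩ := (mem_Sn hω).1 hp
  obtain ⟨q1, q2, q3⟩ := (mem_Sn hω).1 hq
  -- elements of `v`
  have hrow : ∀ μ r y z, ent (row μ r) y z ∈ v ↔ (ent (row μ r) y z ∈ u ∧ μ ∈ γ) ∨ (ent (row μ r) y z ∈ p ∧ μ ∉ γ) ∨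
      (ent (row μ r) y z ∈ q ∧ μ ∉ γ) := by
    intro μ r y z
    rw [hmv, cd_out, cd_out]
    constructor
    · rintro (h1 | h1 | h1)
      · exact Or.inl ⟨h1, u3 μ r y z h1⟩
      · exact Or.inr (Or.inl h1)
      · exact Or.inr (Or.inr h1)
    · rintro (h1 | h1 | h1)
      · exact Or.inl h1.1
      · exact Or.inr (Or.inl h1)
      · exact Or.inr (Or.inr h1)
  have hform : ∀ e ∈ v, ∃ μ r y z, e = ent (row μ r) y z := by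
    intro e he
    rcases (hmv e).1 he with h1 | h1 | h1
    · obtain ⟨μ, r, y, z, h2, _⟩ := cd_form hω hu h1
      exact ⟨μ, r, y, z, h2⟩
    · obtain ⟨μ, r, y, z, h2, _⟩ := cd_form hω hp (cd_diff.1 h1).1
      exact ⟨μ, r, y, z, h2⟩
    · obtain ⟨μ, r, y, z, h2, _⟩ := cd_form hω hq (cd_diff.1 h1).1
      exact ⟨μ, r, y, z, h2⟩
  have hru : rst v γ = u := by
    ext e
    constructor
    · intro he
      obtain ⟨μ, r, y, z, rfl⟩ := hform e (rst_sub he)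
      obtain ⟨h1, h2⟩ := cd_row.1 he
      rcases (hrow μ r y z).1 h1 with h3 | h3 | h3
      · exact h3.1
      · exact absurd h2 h3.2
      · exact absurd h2 h3.2
    · intro he
      obtain ⟨μ, r, y, z, rfl, hμ⟩ := cd_form hω hu he
      exact cd_row.2 ⟨huv he, hμ⟩
  have hrμ : ∀ μ ∈ γ, rst v μ = rst u μ := by
    intro μ hμ
    rw [← rst_rst (p := v) (hγ.isTransitive.subset_of_mem hμ), hru]
  refine ⟨(mem_Sn hω).2 ⟨⟨?_, ?_, ?_, ?_, ?_⟩, ?_, ?_⟩, hlp, hlq⟩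
  · intro ρ y z z' he he'
    obtain ⟨μ, r, y1, z1, h1⟩ := hform _ he
    obtain ⟨rfl, rfl, rfl⟩ := ent_inj.1 h1
    rcases (hrow μ r _ _).1 he with h2 | h2 | h2 <;> rcases (hrow μ r _ _).1 he' with h3 | h3 | h3
    · exact u1.fn _ _ _ _ h2.1 h3.1
    · exact absurd h2.2 h3.2
    · exact absurd h2.2 h3.2
    · exact absurd h3.2 h2.2
    · exact p1.fn _ _ _ _ h2.1 h3.1
    · exact absurd h3.1 (hd μ r _ _ r _ _ h2.2 h2.1)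
    · exact absurd h3.2 h2.2
    · exact absurd h2.1 (hd μ r _ _ r _ _ h2.2 h3.1)
    · exact q1.fn _ _ _ _ h2.1 h3.1
  · intro e he
    rcases (hmv e).1 he with h1 | h1 | h1
    · exact u1.ty e h1
    · exact p1.ty e (cd_diff.1 h1).1
    · exact q1.ty e (cd_diff.1 h1).1
  · intro μ y z he
    rcases (hrow μ 3 y z).1 he with h1 | h1 | h1
    · rw [hrμ μ h1.2]
      exact u1.mkr μ y z h1.1
    · exact (p1.mkr μ y z h1.1).mono hlp.to0.rst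
    · exact (q1.mkr μ y z h1.1).mono hlq.to0.rst
  · intro μ x n he
    rcases (hrow μ 4 x n).1 he with h1 | h1 | h1
    · exact u1.sp μ x n h1.1
    · exact p1.sp μ x n h1.1
    · exact q1.sp μ x n h1.1
  · intro μ x y n he he' hb
    rcases (hrow μ 4 _ _).1 he with h2 | h2 | h2 <;> rcases (hrow μ 4 _ _).1 he' with h3 | h3 | h3
    · rw [hrμ μ h2.2]
      exact u1.sp2 μ x y n h2.1 h3.1 hb
    · exact absurd h2.2 h3.2
    · exact absurd h2.2 h3.2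
    · exact absurd h3.2 h2.2
    · exact (p1.sp2 μ x y n h2.1 h3.1 hb).mono hlp.to0.rst
    · exact absurd h3.1 (hd μ 4 _ _ 4 _ _ h2.2 h2.1)
    · exact absurd h3.2 h2.2
    · exact absurd h2.1 (hd μ 4 _ _ 4 _ _ h2.2 h3.1)
    · exact (q1.sp2 μ x y n h2.1 h3.1 hb).mono hlq.to0.rst
  · rw [← hv]
    exact cd_fin_union (cd_fin_union u2 (cd_fin_sub p2 fun e he => (cd_diff.1 he).1))
      (cd_fin_sub q2 fun e he => (cd_diff.1 he).1)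
  · intro μ r y z he
    rcases (hrow μ r y z).1 he with h1 | h1 | h1
    · exact hγβ h1.2
    · exact p3 μ r y z h1.1
    · exact q3 μ r y z h1.1

/-- Amalgamation. -/
theorem amal {α β c p r : ZFSet.{0}} (hω : Ordinal.omega0 ≤ Ω) (hα : α.IsOrdinal) (hβ : β.IsOrdinal) (hαβ : α ⊆ β)
    (hp : p ∈ Sn Ω s β) (hr : r ∈ Sn Ω s α) (h : LE Ω c r (rst p α)) :
    r ∪ (p \ rst p α) ∈ Sn Ω s β ∧ LE Ω c (r ∪ (p \ rst p α)) p ∧ rst (r ∪ (p \ rst p α)) α = r := by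
  have h0 : ∀ z : ZFSet.{0}, z ∉ (∅ : ZFSet.{0}) := ZFSet.notMem_empty
  have h1 := amal2 (q := ∅) hω hα hβ hαβ hp (empty_mem_Sn β) hr h
    (LE.of_sub fun z hz => absurd (rst_sub hz) (h0 z)) (fun μ r y z r' y' z' _ _ => h0 _)
  have h2 : r ∪ (p \ rst p α) ∪ (∅ \ rst ∅ α) = r ∪ (p \ rst p α) := by
    ext e
    rw [ZFSet.mem_union, cd_diff]
    exact ⟨fun h => h.elim id fun h => absurd h.1 (h0 e), Or.inl⟩
  rw [h2] at h1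
  refine ⟨h1.1, h1.2.1, ?_⟩
  ext e
  constructor
  · intro he
    obtain ⟨μ, t, y, z, rfl, _⟩ := cd_form hω h1.1 (rst_sub he)
    obtain ⟨h3, h4⟩ := cd_row.1 he
    rcases ZFSet.mem_union.1 h3 with h5 | h5
    · exact h5
    · exact absurd h4 (cd_out.1 h5).2
  · intro he
    obtain ⟨μ, t, y, z, rfl, hμ⟩ := cd_form hω hr he
    exact cd_row.2 ⟨ZFSet.mem_union.2 (Or.inl he), hμ⟩

/-- The conditions of stage `< α` depend only on the instructions of stage `< α`. -/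
theorem Sn_congr {s' α B : ZFSet.{0}} (hω : Ordinal.omega0 ≤ Ω) (hα : α.IsOrdinal)
    (h : ∀ μ ∈ α, ∀ i, ZFSet.pair μ i ∈ s ↔ ZFSet.pair μ i ∈ s')
    (hm : ∀ μ ∈ α, ∀ X x m τ, ZFSet.pair μ (ins X x m τ) ∈ s → m = ∅ ∨ ∃ θ ∈ μ, ∃ F, m = ZFSet.pair θ F) :
    Sn Ω s α = Sn Ω s' α := by
  have hst : ∀ μ ∈ α, ∀ τ, st s μ τ ↔ st s' μ τ := by
    intro μ hμ τ
    constructor
    · rintro ⟨h1, X, x, m, h2⟩
      exact ⟨h1, X, x, m, (h μ hμ _).1 h2⟩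
    · rintro ⟨h1, X, x, m, h2⟩
      exact ⟨h1, X, x, m, (h μ hμ _).2 h2⟩
  have hOpn : ∀ μ ∈ α, ∀ x y q, Opn Ω s μ x y q ↔ Opn Ω s' μ x y q := by
    intro μ hμ x y q
    constructor
    · rintro ⟨τ, q', h1, h2⟩
      exact ⟨τ, q', (hst μ hμ τ).1 h1, h2⟩
    · rintro ⟨τ, q', h1, h2⟩
      exact ⟨τ, q', (hst μ hμ τ).2 h1, h2⟩
  have hsm : ∀ μ ∈ α, ∀ θ F, (sm s μ θ F ↔ sm s' μ θ F) ∧ (sm s μ θ F → θ ∈ α) := by
    intro μ hμ θ F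
    refine ⟨⟨?_, ?_⟩, ?_⟩
    · rintro ⟨X, x, τ, h1⟩
      exact ⟨X, x, τ, (h μ hμ _).1 h1⟩
    · rintro ⟨X, x, τ, h1⟩
      exact ⟨X, x, τ, (h μ hμ _).2 h1⟩
    · rintro ⟨X, x, τ, h1⟩
      rcases hm μ hμ X x _ τ h1 with h2 | ⟨θ', hθ', F', h2⟩
      · exfalso
        have h3 : ({θ, F} : ZFSet.{0}) ∈ ZFSet.pair θ F := by simp [ZFSet.pair]
        rw [h2] at h3
        exact ZFSet.notMem_empty _ h3
      · rw [(ZFSet.pair_inj.1 h2).1]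
        exact hα.isTransitive.mem_trans hθ' hμ
  have hsX : ∀ θ ∈ α, ∀ X, sX s θ X ↔ sX s' θ X := by
    intro θ hθ X
    constructor
    · rintro ⟨x, m, τ, h1⟩
      exact ⟨x, m, τ, (h θ hθ _).1 h1⟩
    · rintro ⟨x, m, τ, h1⟩
      exact ⟨x, m, τ, (h θ hθ _).2 h1⟩
  have hAct : ∀ μ ∈ α, ∀ q, Act Ω s μ q ↔ Act Ω s' μ q := by
    intro μ hμ q
    constructor
    · rintro ⟨θ, F, X, q', h1, h2, h3⟩
      exact ⟨θ, F, X, q', ((hsm μ hμ θ F).1).1 h1, (hsX θ ((hsm μ hμ θ F).2 h1) X).1 h2, h3⟩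
    · rintro ⟨θ, F, X, q', h1, h2, h3⟩
      have h4 := ((hsm μ hμ θ F).1).2 h1
      exact ⟨θ, F, X, q', h4, (hsX θ ((hsm μ hμ θ F).2 h4) X).2 h2, h3⟩
  ext p
  rw [mem_Sn hω, mem_Sn hω]
  constructor
  · rintro ⟨h1, h2, h3⟩
    refine ⟨⟨h1.fn, h1.ty, ?_, ?_, ?_⟩, h2, h3⟩
    · intro μ y z he
      exact (hAct μ (h3 _ _ _ _ he) _).1 (h1.mkr μ y z he)
    · intro μ x n he
      obtain ⟨τ, h4⟩ := h1.sp μ x n he
      exact ⟨τ, (hst μ (h3 _ _ _ _ he) τ).1 h4⟩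
    · intro μ x y n he he' hb
      exact (hOpn μ (h3 _ _ _ _ he) _ _ _).1 (h1.sp2 μ x y n he he' hb)
  · rintro ⟨h1, h2, h3⟩
    refine ⟨⟨h1.fn, h1.ty, ?_, ?_, ?_⟩, h2, h3⟩
    · intro μ y z he
      exact (hAct μ (h3 _ _ _ _ he) _).2 (h1.mkr μ y z he)
    · intro μ x n he
      obtain ⟨τ, h4⟩ := h1.sp μ x n he
      exact ⟨τ, (hst μ (h3 _ _ _ _ he) τ).2 h4⟩
    · intro μ x y n he he' hb
      exact (hOpn μ (h3 _ _ _ _ he) _ _ _).2 (h1.sp2 μ x y n he he' hb)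

end Pool.Agent.H17.CF
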