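import Pool.Agent.H17.CF.B.Cond

/-!
# CF-B5: definability (1)

Definable terms and predicates with `PD` and `Df` (see H17/CF/PD.lean): `PD.var`, `PD.const`, `PD.lift`, `PD.pair`, `PD.sep`,
`PD.prod`, `PD.union`, `PD.sUnion`, `PD.sdiff`, `Df.mem`, `Df.eq`, `Df.ball`, `Df.bex`, `Df.sub`, `Dfn.and`, `Dfn.or`, `Dfn.not`, `Dfn.imp`, `Dfn.all`,
`Dfn.ex`. After `Df.ball` etc. the bound variable is `v (Fin.last n)`; old terms are lifted with `.lift`.

PROOFS.
`Df.exM`: `∃ x : ZFSet` with all witnesses in `N` is `∃ x : N` (`Dfn.ex`).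
`Df.allM`: dual.
`PD.finS`: the graph: `y = finS x` iff `∅ ∈ y`, `y` is closed under `insert a` for `a ∈ x`, and `y ⊆ w` for all `w : N`
with these two properties (unbounded quantifier over `N`); values in `N` by `exists_fin` (H52/GC/Fin) and `mem_finS`.
The least such `w` is `finS x`: induction on finite sets.
`PD.sK`, `PD.tr`: `PD.sep` etc.
`Df.Bel`: `Df.exM` four times (the components of pairs in `N` are in `N`: `CTM.of_pair_mem`).
`Df.KK`, `Df.Av`. `Df.LE`: by `LE.cut` and `LE` itself: `LE Ω c p q` iff there is `K ∈ finS (⋃ ⋃ q × Ω)` with the three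
properties (the rows that occur in `q` are elements of `⋃ ⋃ q`).
`PD.rst`, `Df.sX` ... `Df.st`, `Df.Act`, `Df.Opn`, `Df.IsC`, `PD.Nd`, `PD.Ent`, `PD.Sn`, `PD.Ln`, `PD.OO`: unfold and apply the calculus.
For `∃ r < 4, ...` use `Dfn` for a finite disjunction: rewrite as `∃ r ∈ natZ 4, ...` with `row μ r = pair μ (natZ r)`
(`mem_natZ`).
-/

set_option autoImplicit false
set_option linter.unusedVariables false
set_option linter.unusedSectionVars false
set_option linter.unusedSimpArgs false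
set_option linter.unusedTactic false
set_option linter.unreachableTactic false

open Pool.Agent.H17.Omega Pool.Agent.H17.Omega.CTM Pool.Agent.H52.GC Pool.Agent.H7.IG

namespace Pool.Agent.H17.CF

variable {N : Set ZFSet.{0}} {hN : CTM N} {n : ℕ} {a b c d e k p q r s t x y z : (Fin n → N) → ZFSet.{0}}
  {Ω : Ordinal.{0}}

theorem Df.exM {P : (Fin n → N) → ZFSet.{0} → Prop} (hm : ∀ v x, P v x → x ∈ N)
    (h : hN.Dfn (fun v : Fin (n + 1) → N => P (fun i => v i.castSucc) (v (Fin.last n)).1)) :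
    hN.Dfn (fun v => ∃ x, P v x) := by
  refine (Dfn.ex (P := fun v x => P v x.1) h).congr fun v => ?_
  constructor
  · rintro ⟨x, hx⟩
    exact ⟨x.1, hx⟩
  · rintro ⟨x, hx⟩
    exact ⟨⟨x, hm v x hx⟩, hx⟩

theorem Df.allM {P : (Fin n → N) → ZFSet.{0} → Prop} (hm : ∀ v x, ¬ P v x → x ∈ N)
    (h : hN.Dfn (fun v : Fin (n + 1) → N => P (fun i => v i.castSucc) (v (Fin.last n)).1)) :
    hN.Dfn (fun v => ∀ x, P v x) := by
  refine (Dfn.all (P := fun v x => P v x.1) h).congr fun v => ?_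
  constructor
  · intro h1 x
    by_contra h2
    exact h2 (h1 ⟨x, hm v x h2⟩)
  · intro h1 x
    exact h1 x.1

theorem PD.natZ (m : ℕ) : PD hN (fun _ : Fin n → N => Omega.natZ m) := PD.const (hN.natZ_mem_N m)

theorem PD.omZ : PD hN (fun _ : Fin n → N => Omega.omZ) := PD.const hN.omZ_mem

/-- The least set with the closure properties of `finS x`. -/
theorem dx_least {x w : ZFSet.{0}} (h0 : (∅ : ZFSet.{0}) ∈ w) (h1 : ∀ a ∈ x, ∀ u ∈ w, insert a u ∈ w) :
    finS x ⊆ w := by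
  classical
  intro a ha
  rw [mem_finS] at ha
  obtain ⟨hax, s, hs⟩ := ha
  induction s using Finset.induction_on generalizing a with
  | empty =>
    have : a = ∅ := by
      rw [ZFSet.eq_empty]
      intro z hz
      exact absurd ((hs z).1 hz) (Finset.notMem_empty z)
    rw [this]; exact h0
  | insert x' s hx ih =>
    have e : a = insert x' (ZFSet.sep (fun z => z ∈ s) a) := by
      ext z
      rw [ZFSet.mem_insert_iff, ZFSet.mem_sep, hs, Finset.mem_insert]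
      constructor
      · rintro (h | h)
        · exact Or.inl h
        · exact Or.inr ⟨Or.inr h, h⟩
      · rintro (h | ⟨_, h⟩)
        · exact Or.inl h
        · exact Or.inr h
    rw [e]
    refine h1 x' (hax ((hs x').2 (Finset.mem_insert_self _ _))) _ (ih ?_ ?_)
    · intro z hz
      rw [ZFSet.mem_sep] at hz
      exact hax hz.1
    · intro z
      rw [ZFSet.mem_sep, hs, Finset.mem_insert]
      exact ⟨fun h => h.2, fun h => ⟨Or.inr h, h⟩⟩

theorem dx_empty (x : ZFSet.{0}) : (∅ : ZFSet.{0}) ∈ finS x := by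
  rw [mem_finS]
  exact ⟨fun z hz => absurd hz (ZFSet.notMem_empty z), ∅, fun z => by simp⟩

theorem dx_insert {x a u : ZFSet.{0}} (ha : a ∈ x) (hu : u ∈ finS x) : insert a u ∈ finS x := by
  classical
  rw [mem_finS] at hu ⊢
  obtain ⟨h1, s, hs⟩ := hu
  refine ⟨?_, insert a s, fun z => ?_⟩
  · intro z hz
    rw [ZFSet.mem_insert_iff] at hz
    rcases hz with rfl | hz
    · exact ha
    · exact h1 hz
  · rw [ZFSet.mem_insert_iff, Finset.mem_insert, hs]

/-- The closure properties of `finS x`. -/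
def DxCl (x w : ZFSet.{0}) : Prop := (∅ : ZFSet.{0}) ∈ w ∧ ∀ a ∈ x, ∀ u ∈ w, insert a u ∈ w

theorem Df.dxCl (hx : PD hN x) (hy : PD hN y) : hN.Dfn (fun v => DxCl (x v) (y v)) := by
  refine Dfn.and (Df.mem (PD.const hN.empty_mem) hy) ?_
  refine Df.ball (P := fun v a => ∀ u ∈ y v, insert a u ∈ y v) hx ?_
  refine Df.ball (P := fun v u => insert (v (Fin.last n)).1 u ∈ y (fun i => v i.castSucc)) hy.lift ?_
  exact Df.mem (PD.insert (PD.var _) (PD.var _)) hy.lift.lift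

theorem PD.finS (hx : PD hN x) : PD hN (fun v => finS (x v)) := by
  refine ⟨fun v => ?_, ?_⟩
  · obtain ⟨Fi, hFi, h⟩ := exists_fin hN (hx.1 v)
    have : CF.finS (x v) = Fi := by
      ext z
      rw [mem_finS, h]
    show CF.finS (x v) ∈ N
    rw [this]; exact hFi
  · refine (Dfn.and (Df.dxCl hx.lift (PD.var (Fin.last n))) (Dfn.all (P := fun v w =>
      DxCl (x (fun i => v i.castSucc)) w.1 → (v (Fin.last n)).1 ⊆ w.1) (Dfn.imp (Df.dxCl hx.lift.lift (PD.var _))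
        (Df.sub (PD.var _) (PD.var _))))).congr fun v => ?_
    constructor
    · rintro ⟨h1, h2⟩
      have h3 : CF.finS (x (fun i => v i.castSucc)) ⊆ (v (Fin.last n)).1 := dx_least h1.1 h1.2
      have hmem : CF.finS (x (fun i => v i.castSucc)) ∈ N := by
        obtain ⟨Fi, hFi, h⟩ := exists_fin hN (hx.1 (fun i => v i.castSucc))
        have : CF.finS (x (fun i => v i.castSucc)) = Fi := by
          ext z
          rw [mem_finS, h]
        rw [this]; exact hFi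
      have h4 := h2 ⟨_, hmem⟩ ⟨dx_empty _, fun a ha u hu => dx_insert ha hu⟩
      ext z
      exact ⟨fun hz => h4 hz, fun hz => h3 hz⟩
    · intro h1
      refine ⟨?_, ?_⟩
      · rw [h1]
        exact ⟨dx_empty _, fun a ha u hu => dx_insert ha hu⟩
      · intro w hw
        rw [h1]
        exact dx_least hw.1 hw.2

theorem Df.finZ (hx : PD hN x) : hN.Dfn (fun v => FinZ (x v)) :=
  (Df.mem hx (PD.finS hx)).congr fun v => by
    rw [mem_finS]
    exact ⟨fun h => h.2, fun h => ⟨fun z hz => hz, h⟩⟩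

theorem PD.LvZ (hΩ : Ω.toZFSet ∈ N) : PD hN (fun _ : Fin n → N => LvZ Ω) :=
  PD.sep (P := fun _ a => Omega.omZ ⊆ a) (PD.const hΩ) (Df.sub PD.omZ (PD.var _))

theorem PD.Nd (hΩ : Ω.toZFSet ∈ N) (he : PD hN e) : PD hN (fun v => Nd Ω (e v)) :=
  PD.prod (PD.LvZ hΩ) he

theorem PD.ent (hx : PD hN x) (hy : PD hN y) (hz : PD hN z) : PD hN (fun v => ent (x v) (y v) (z v)) :=
  PD.pair hx (PD.pair hy hz)

theorem PD.row (hx : PD hN x) (m : ℕ) : PD hN (fun v => row (x v) m) :=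
  PD.pair hx (PD.natZ m)

theorem PD.sK (hk : PD hN k) (hx : PD hN x) (hy : PD hN y) : PD hN (fun v => sK (k v) (x v) (y v)) :=
  PD.sep (P := fun v a => ZFSet.pair (x v) a ∈ k v) hy (Df.mem (PD.pair hx.lift (PD.var _)) hk.lift)

theorem PD.tr (hk : PD hN k) (hx : PD hN x) (hy : PD hN y) (hz : PD hN z) :
    PD hN (fun v => tr (k v) (x v) (y v) (z v)) :=
  PD.union (PD.sdiff hz (PD.sK hk hx hy)) (PD.sdiff (PD.sK hk hx hy) hz)

/-! ### Quantifiers over components -/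

theorem dx_pair {u w : ZFSet.{0}} {c : ZFSet.{0}} (hc : c ∈ N) (hN : CTM N) (h : ZFSet.pair u w ∈ c) :
    u ∈ N ∧ w ∈ N := hN.of_pair_mem (hN.mem_of_mem hc h)

/-- Existential quantifier over pairs. -/
theorem Df.exPr (hx : PD hN x) {P : (Fin n → N) → ZFSet.{0} → ZFSet.{0} → Prop}
    (h : hN.Dfn (fun v : Fin (n + 2) → N => P (fun i => v i.castSucc.castSucc) (v (Fin.last n).castSucc).1
      (v (Fin.last (n + 1))).1)) :
    hN.Dfn (fun v => ∃ u w, x v = ZFSet.pair u w ∧ P v u w) := by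
  refine Df.exM (P := fun v u => ∃ w, x v = ZFSet.pair u w ∧ P v u w) ?_ ?_
  · rintro v u ⟨w, h1, _⟩
    exact (hN.of_pair_mem (h1 ▸ hx.1 v)).1
  · refine Df.exM (P := fun (v : Fin (n + 1) → N) w => x (fun i => v i.castSucc) = ZFSet.pair (v (Fin.last n)).1 w ∧
      P (fun i => v i.castSucc) (v (Fin.last n)).1 w) ?_ ?_
    · rintro v w ⟨h1, _⟩
      exact (hN.of_pair_mem (h1 ▸ hx.1 _)).2
    · exact Dfn.and (Df.eq hx.lift.lift (PD.pair (PD.var _) (PD.var _))) h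

theorem Df.Bel (hx : PD hN x) (hy : PD hN y) : hN.Dfn (fun v => Bel (x v) (y v)) := by
  refine (Df.exPr (P := fun v a _ => ∃ b n', y v = ZFSet.pair b n' ∧ a ∈ b) hx ?_).congr fun v => ?_
  · refine Df.exPr (x := fun v => y (fun i => v i.castSucc.castSucc)) (P := fun v b _ => (v (Fin.last n).castSucc).1 ∈ b)
      hy.lift.lift ?_
    exact Df.mem (PD.var _) (PD.var _)
  · constructor
    · rintro ⟨a, m, h1, b, n', h2, h3⟩
      exact ⟨a, m, b, n', h1, h2, h3⟩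
    · rintro ⟨a, m, b, n', h1, h2, h3⟩
      exact ⟨a, m, h1, b, n', h2, h3⟩

theorem Df.Sv (hx : PD hN x) : hN.Dfn (fun v => Sv (x v)) := by
  refine Df.allM (P := fun v u => ∀ m n', ZFSet.pair u m ∈ x v → ZFSet.pair u n' ∈ x v → m = n') ?_ ?_
  · intro v u h
    push Not at h
    obtain ⟨m, n', h1, _⟩ := h
    exact (dx_pair (hx.1 v) hN h1).1
  refine Df.allM (P := fun (v : Fin (n + 1) → N) m => ∀ n', ZFSet.pair (v (Fin.last n)).1 m ∈ x (fun i => v i.castSucc) →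
    ZFSet.pair (v (Fin.last n)).1 n' ∈ x (fun i => v i.castSucc) → m = n') ?_ ?_
  · intro v u h
    push Not at h
    obtain ⟨n', h1, _⟩ := h
    exact (dx_pair (hx.1 _) hN h1).2
  refine Df.allM (P := fun (v : Fin (n + 2) → N) n' => ZFSet.pair (v (Fin.last n).castSucc).1 (v (Fin.last (n + 1))).1 ∈
      x (fun i => v i.castSucc.castSucc) → ZFSet.pair (v (Fin.last n).castSucc).1 n' ∈
      x (fun i => v i.castSucc.castSucc) → (v (Fin.last (n + 1))).1 = n') ?_ ?_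
  · intro v u h
    push Not at h
    obtain ⟨_, h1, _⟩ := h
    exact (dx_pair (hx.1 _) hN h1).2
  exact Dfn.imp (Df.mem (PD.pair (PD.var _) (PD.var _)) hx.lift.lift.lift)
    (Dfn.imp (Df.mem (PD.pair (PD.var _) (PD.var _)) hx.lift.lift.lift) (Df.eq (PD.var _) (PD.var _)))

theorem dx_ent {c : ZFSet.{0}} (hc : c ∈ N) (hN : CTM N) {u w t' : ZFSet.{0}} (h : CF.ent u w t' ∈ c) :
    u ∈ N ∧ w ∈ N ∧ t' ∈ N := by
  obtain ⟨h1, h2⟩ := dx_pair hc hN h
  exact ⟨h1, hN.of_pair_mem h2⟩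

/-- Universal quantifier over the entries of a set. -/
theorem Df.allEnt (hq : PD hN q) {P : (Fin n → N) → ZFSet.{0} → ZFSet.{0} → ZFSet.{0} → Prop}
    (h : hN.Dfn (fun v : Fin (n + 3) → N => P (fun i => v i.castSucc.castSucc.castSucc)
      (v (Fin.last n).castSucc.castSucc).1 (v (Fin.last (n + 1)).castSucc).1 (v (Fin.last (n + 2))).1)) :
    hN.Dfn (fun v => ∀ ρ y z, CF.ent ρ y z ∈ q v → P v ρ y z) := by
  refine Df.allM (P := fun v ρ => ∀ y z, CF.ent ρ y z ∈ q v → P v ρ y z) ?_ ?_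
  · intro v u h
    push Not at h
    obtain ⟨m, n', h1, _⟩ := h
    exact (dx_ent (hq.1 v) hN h1).1
  refine Df.allM (P := fun (v : Fin (n + 1) → N) y => ∀ z, CF.ent (v (Fin.last n)).1 y z ∈ q (fun i => v i.castSucc) →
    P (fun i => v i.castSucc) (v (Fin.last n)).1 y z) ?_ ?_
  · intro v u h
    push Not at h
    obtain ⟨n', h1, _⟩ := h
    exact (dx_ent (hq.1 _) hN h1).2.1
  refine Df.allM (P := fun (v : Fin (n + 2) → N) z => CF.ent (v (Fin.last n).castSucc).1 (v (Fin.last (n + 1))).1 z ∈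
      q (fun i => v i.castSucc.castSucc) → P (fun i => v i.castSucc.castSucc) (v (Fin.last n).castSucc).1
      (v (Fin.last (n + 1))).1 z) ?_ ?_
  · intro v u h
    push Not at h
    obtain ⟨h1, _⟩ := h
    exact (dx_ent (hq.1 _) hN h1).2.2
  exact Dfn.imp (Df.mem (PD.ent (PD.var _) (PD.var _) (PD.var _)) hq.lift.lift.lift) h

/-- Existential quantifier over the entries of a set. -/
theorem Df.exEnt (hq : PD hN q) {P : (Fin n → N) → ZFSet.{0} → ZFSet.{0} → ZFSet.{0} → Prop}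
    (h : hN.Dfn (fun v : Fin (n + 3) → N => P (fun i => v i.castSucc.castSucc.castSucc)
      (v (Fin.last n).castSucc.castSucc).1 (v (Fin.last (n + 1)).castSucc).1 (v (Fin.last (n + 2))).1)) :
    hN.Dfn (fun v => ∃ ρ y z, CF.ent ρ y z ∈ q v ∧ P v ρ y z) := by
  refine (Dfn.not (Df.allEnt (P := fun v ρ y z => ¬ P v ρ y z) hq (Dfn.not h))).congr fun v => ?_
  push Not
  exact Iff.rfl

theorem Df.KK (hΩ : Ω.toZFSet ∈ N) (hk : PD hN k) : hN.Dfn (fun v => KK Ω (k v)) := by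
  refine Dfn.and (Df.finZ hk) ?_
  refine (Df.ball (P := fun v κ => ∃ ρ a, κ = ZFSet.pair ρ a ∧ (a ∈ Ω.toZFSet ∧ ∃ μ r, ρ = ZFSet.pair μ r ∧
    r ∈ Omega.natZ 4)) hk ?_).congr fun v => ?_
  · refine Df.exPr (x := fun v => (v (Fin.last n)).1) (P := fun v ρ a => (a ∈ Ω.toZFSet ∧ ∃ μ r, ρ = ZFSet.pair μ r ∧
      r ∈ Omega.natZ 4)) (PD.var _) ?_
    refine Dfn.and (Df.mem (PD.var _) (PD.const hΩ)) ?_
    refine Df.exPr (x := fun v : Fin (n + 3) → N => (v (Fin.last (n + 1)).castSucc).1) (P := fun v μ r =>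
      r ∈ Omega.natZ 4) (PD.var _) ?_
    exact Df.mem (PD.var _) (PD.natZ 4)
  · refine forall₂_congr fun κ hκ => ?_
    constructor
    · rintro ⟨ρ, a, h1, h2, μ, r, h3, h4⟩
      obtain ⟨m, hm, rfl⟩ := mem_natZ.1 h4
      exact ⟨μ, a, ⟨m, hm, by rw [h1, h3]; rfl⟩, h2⟩
    · rintro ⟨μ, a, ⟨r, hr, h1⟩, h2⟩
      exact ⟨_, a, h1, h2, μ, _, rfl, mem_natZ.2 ⟨r, hr, rfl⟩⟩

theorem Df.Av (hk : PD hN k) (hc : PD hN c) : hN.Dfn (fun v => Av (k v) (c v)) := by
  refine (Df.ball (P := fun v ρ => ¬ ∃ a, ZFSet.pair ρ a ∈ k v) hc ?_).congr fun v => ?_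
  · refine Dfn.not ?_
    refine Df.exM (P := fun (v : Fin (n + 1) → N) a => ZFSet.pair (v (Fin.last n)).1 a ∈ k (fun i => v i.castSucc)) ?_ ?_
    · intro v a h
      exact (dx_pair (hk.1 _) hN h).2
    · exact Df.mem (PD.pair (PD.var _) (PD.var _)) hk.lift.lift
  · constructor
    · intro h ρ a h1 h2
      exact h ρ h2 ⟨a, h1⟩
    · rintro h ρ h1 ⟨a, h2⟩
      exact h ρ a h2 h1

theorem Df.LE (hΩ : Ω.toZFSet ∈ N) (hc : PD hN c) (hp : PD hN p) (hq : PD hN q) :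
    hN.Dfn (fun v => LE Ω (c v) (p v) (q v)) := by
  refine (Df.exM (P := fun v K => CF.KK Ω K ∧ CF.Av K (c v) ∧
    (∀ κ ∈ K, ∃ ρ a, κ = ZFSet.pair ρ a ∧ ∃ ρ' y z, CF.ent ρ' y z ∈ q v ∧ ρ' = ρ) ∧
      ∀ ρ y z, CF.ent ρ y z ∈ q v → CF.ent ρ y (CF.tr K ρ y z) ∈ p v) ?_ ?_).congr fun v => ?_
  · rintro v K ⟨h1, h2, h3, h4⟩
    refine FinZ.mem (X := ∅) hN h1.1 fun κ hκ => ?_
    obtain ⟨μ, a, ⟨r, hr, e⟩, ha⟩ := h1.2 κ hκ
    obtain ⟨ρ, a', e', ρ', y, z, h5, h6⟩ := h3 κ hκ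
    rw [e', ZFSet.pair_inj] at e
    rw [e', ← h6, e.2]
    exact hN.pair_mem (dx_ent (hq.1 v) hN h5).1 (hN.mem_of_mem hΩ ha)
  · refine Dfn.and (Df.KK hΩ (PD.var _)) (Dfn.and (Df.Av (PD.var _) hc.lift) (Dfn.and ?_ ?_))
    · refine Df.ball (P := fun (v : Fin (n + 1) → N) κ => ∃ ρ a, κ = ZFSet.pair ρ a ∧ ∃ ρ' y z,
        CF.ent ρ' y z ∈ q (fun i => v i.castSucc) ∧ ρ' = ρ) (PD.var _) ?_
      refine Df.exPr (x := fun v : Fin (n + 2) → N => (v (Fin.last (n + 1))).1) (P := fun v ρ a => ∃ ρ' y z,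
        CF.ent ρ' y z ∈ q (fun i => v i.castSucc.castSucc) ∧ ρ' = ρ) (PD.var _) ?_
      refine Df.exEnt (q := fun v : Fin (n + 4) → N => q (fun i => v i.castSucc.castSucc.castSucc.castSucc))
        (P := fun v ρ' _ _ => ρ' = (v (Fin.last (n + 2)).castSucc).1) hq.lift.lift.lift.lift ?_
      exact Df.eq (PD.var _) (PD.var _)
    · refine Df.allEnt (q := fun v : Fin (n + 1) → N => q (fun i => v i.castSucc))
        (P := fun v ρ y z => CF.ent ρ y (CF.tr (v (Fin.last n)).1 ρ y z) ∈ p (fun i => v i.castSucc)) hq.lift ?_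
      exact Df.mem (PD.ent (PD.var _) (PD.var _) (PD.tr (PD.var _) (PD.var _) (PD.var _) (PD.var _)))
        hp.lift.lift.lift.lift
  · constructor
    · rintro ⟨K, h1, h2, h3, h4⟩
      exact ⟨K, h1, h2, h4⟩
    · intro h
      obtain ⟨K, h1, h2, h3, h4⟩ := h.cut
      refine ⟨K, h1, h2, fun κ hκ => ?_, h4⟩
      obtain ⟨μ, a, ⟨r, hr, e⟩, ha⟩ := h1.2 κ hκ
      obtain ⟨y, z, h5⟩ := h3 (CF.row μ r) a (e ▸ hκ)
      exact ⟨_, a, e, _, y, z, h5, rfl⟩

theorem PD.ins (ha : PD hN a) (hb : PD hN b) (hc : PD hN c) (hd : PD hN d) :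
    PD hN (fun v => ins (a v) (b v) (c v) (d v)) :=
  PD.pair (PD.pair ha hb) (PD.pair hc hd)

theorem dx_ins {σ : ZFSet.{0}} (hσ : σ ∈ N) (hN : CTM N) {μ X x' m τ : ZFSet.{0}} (h : ZFSet.pair μ (CF.ins X x' m τ) ∈ σ) :
    μ ∈ N ∧ X ∈ N ∧ x' ∈ N ∧ m ∈ N ∧ τ ∈ N := by
  obtain ⟨h1, h2⟩ := dx_pair hσ hN h
  obtain ⟨h3, h4⟩ := hN.of_pair_mem h2
  exact ⟨h1, (hN.of_pair_mem h3).1, (hN.of_pair_mem h3).2, hN.of_pair_mem h4⟩

theorem Df.sX (hs : PD hN s) (hx : PD hN x) (hy : PD hN y) : hN.Dfn (fun v => sX (s v) (x v) (y v)) := by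
  refine Df.exM (P := fun v x' => ∃ m τ, ZFSet.pair (x v) (CF.ins (y v) x' m τ) ∈ s v) ?_ ?_
  · rintro v x' ⟨m, τ, h⟩
    exact (dx_ins (hs.1 v) hN h).2.2.1
  refine Df.exM (P := fun (v : Fin (n + 1) → N) m => ∃ τ, ZFSet.pair (x (fun i => v i.castSucc))
    (CF.ins (y (fun i => v i.castSucc)) (v (Fin.last n)).1 m τ) ∈ s (fun i => v i.castSucc)) ?_ ?_
  · rintro v m ⟨τ, h⟩
    exact (dx_ins (hs.1 _) hN h).2.2.2.1
  refine Df.exM (P := fun (v : Fin (n + 2) → N) τ => ZFSet.pair (x (fun i => v i.castSucc.castSucc))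
    (CF.ins (y (fun i => v i.castSucc.castSucc)) (v (Fin.last n).castSucc).1 (v (Fin.last (n + 1))).1 τ) ∈
    s (fun i => v i.castSucc.castSucc)) ?_ ?_
  · rintro v τ h
    exact (dx_ins (hs.1 _) hN h).2.2.2.2
  exact Df.mem (PD.pair hx.lift.lift.lift (PD.ins hy.lift.lift.lift (PD.var _) (PD.var _) (PD.var _))) hs.lift.lift.lift

theorem Df.sx (hs : PD hN s) (hx : PD hN x) (hy : PD hN y) : hN.Dfn (fun v => sx (s v) (x v) (y v)) := by
  refine Df.exM (P := fun v X => ∃ m τ, ZFSet.pair (x v) (CF.ins X (y v) m τ) ∈ s v) ?_ ?_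
  · rintro v x' ⟨m, τ, h⟩
    exact (dx_ins (hs.1 v) hN h).2.1
  refine Df.exM (P := fun (v : Fin (n + 1) → N) m => ∃ τ, ZFSet.pair (x (fun i => v i.castSucc))
    (CF.ins (v (Fin.last n)).1 (y (fun i => v i.castSucc)) m τ) ∈ s (fun i => v i.castSucc)) ?_ ?_
  · rintro v m ⟨τ, h⟩
    exact (dx_ins (hs.1 _) hN h).2.2.2.1
  refine Df.exM (P := fun (v : Fin (n + 2) → N) τ => ZFSet.pair (x (fun i => v i.castSucc.castSucc))
    (CF.ins (v (Fin.last n).castSucc).1 (y (fun i => v i.castSucc.castSucc)) (v (Fin.last (n + 1))).1 τ) ∈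
    s (fun i => v i.castSucc.castSucc)) ?_ ?_
  · rintro v τ h
    exact (dx_ins (hs.1 _) hN h).2.2.2.2
  exact Df.mem (PD.pair hx.lift.lift.lift (PD.ins (PD.var _) hy.lift.lift.lift (PD.var _) (PD.var _))) hs.lift.lift.lift

theorem Df.sm (hs : PD hN s) (hx : PD hN x) (hy : PD hN y) (hz : PD hN z) :
    hN.Dfn (fun v => sm (s v) (x v) (y v) (z v)) := by
  refine Df.exM (P := fun v X => ∃ x' τ, ZFSet.pair (x v) (CF.ins X x' (ZFSet.pair (y v) (z v)) τ) ∈ s v) ?_ ?_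
  · rintro v x' ⟨m, τ, h⟩
    exact (dx_ins (hs.1 v) hN h).2.1
  refine Df.exM (P := fun (v : Fin (n + 1) → N) x' => ∃ τ, ZFSet.pair (x (fun i => v i.castSucc))
    (CF.ins (v (Fin.last n)).1 x' (ZFSet.pair (y (fun i => v i.castSucc)) (z (fun i => v i.castSucc))) τ) ∈
      s (fun i => v i.castSucc)) ?_ ?_
  · rintro v m ⟨τ, h⟩
    exact (dx_ins (hs.1 _) hN h).2.2.1
  refine Df.exM (P := fun (v : Fin (n + 2) → N) τ => ZFSet.pair (x (fun i => v i.castSucc.castSucc))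
    (CF.ins (v (Fin.last n).castSucc).1 (v (Fin.last (n + 1))).1 (ZFSet.pair (y (fun i => v i.castSucc.castSucc))
      (z (fun i => v i.castSucc.castSucc))) τ) ∈ s (fun i => v i.castSucc.castSucc)) ?_ ?_
  · rintro v τ h
    exact (dx_ins (hs.1 _) hN h).2.2.2.2
  exact Df.mem (PD.pair hx.lift.lift.lift (PD.ins (PD.var _) (PD.var _) (PD.pair hy.lift.lift.lift hz.lift.lift.lift)
    (PD.var _))) hs.lift.lift.lift

theorem Df.st (hs : PD hN s) (hx : PD hN x) (hy : PD hN y) : hN.Dfn (fun v => st (s v) (x v) (y v)) := by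
  refine Dfn.and (Dfn.not (Df.eq hy (PD.const hN.empty_mem))) ?_
  refine Df.exM (P := fun v X => ∃ x' m, ZFSet.pair (x v) (CF.ins X x' m (y v)) ∈ s v) ?_ ?_
  · rintro v x' ⟨m, τ, h⟩
    exact (dx_ins (hs.1 v) hN h).2.1
  refine Df.exM (P := fun (v : Fin (n + 1) → N) x' => ∃ m, ZFSet.pair (x (fun i => v i.castSucc))
    (CF.ins (v (Fin.last n)).1 x' m (y (fun i => v i.castSucc))) ∈ s (fun i => v i.castSucc)) ?_ ?_
  · rintro v m ⟨τ, h⟩
    exact (dx_ins (hs.1 _) hN h).2.2.1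
  refine Df.exM (P := fun (v : Fin (n + 2) → N) m => ZFSet.pair (x (fun i => v i.castSucc.castSucc))
    (CF.ins (v (Fin.last n).castSucc).1 (v (Fin.last (n + 1))).1 m (y (fun i => v i.castSucc.castSucc))) ∈
    s (fun i => v i.castSucc.castSucc)) ?_ ?_
  · rintro v τ h
    exact (dx_ins (hs.1 _) hN h).2.2.2.1
  exact Df.mem (PD.pair hx.lift.lift.lift (PD.ins (PD.var _) (PD.var _) (PD.var _) hy.lift.lift.lift)) hs.lift.lift.lift

end Pool.Agent.H17.CF
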