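import Pool.Agent.H17.CF.B.Dx

/-!
# CF-B5b: definability (1b)

See CF/B/Dx.lean for the calculus and the plan (`Df.LE`, `Df.exM`, `PD.sep`, ...). `Df.IsC`: conjunction of the five
fields; all witnesses of existential quantifiers are in `N` (they are components of elements of `s ∈ N` or of `p ∈ N`).
`∃ r < 4, ...` may be rewritten as `∃ r ∈ natZ 4, ...` (`mem_natZ`, `row μ r = pair μ (natZ r)`).
Universal quantifiers `∀ ρ y z z', ent ρ y z ∈ p → ..`: `Df.allM` (if the statement fails then all the variables are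
components of elements of `p ∈ N`).
-/

set_option autoImplicit false
set_option linter.unusedVariables false
set_option linter.unusedSectionVars false
set_option linter.unusedSimpArgs false
set_option linter.unusedTactic false
set_option linter.unreachableTactic false

open Pool.Agent.H17.Omega Pool.Agent.H17.Omega.CTM Pool.Agent.H52.GC Pool.Agent.H7.IG

namespace Pool.Agent.H17.CF

variable {N : Set ZFSet.{0}} {hN : CTM N} {n : ℕ} {a b c d e k p q r s t x y z : (Fin n → N) → ZFSet.{0}}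
  {Ω : Ordinal.{0}}

/-- Bounded quantification over numerals. -/
theorem Df.ltN {P : (Fin n → N) → ZFSet.{0} → Prop} (m : ℕ)
    (h : hN.Dfn (fun v : Fin (n + 1) → N => P (fun i => v i.castSucc) (v (Fin.last n)).1)) :
    hN.Dfn (fun v => ∃ r < m, P v (Omega.natZ r)) := by
  refine (Df.bex (P := P) (PD.natZ m) h).congr fun v => ?_
  constructor
  · rintro ⟨z, hz, h1⟩
    obtain ⟨r, hr, rfl⟩ := mem_natZ.1 hz
    exact ⟨r, hr, h1⟩
  · rintro ⟨r, hr, h1⟩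
    exact ⟨_, mem_natZ.2 ⟨r, hr, rfl⟩, h1⟩

theorem Df.Act (hΩ : Ω.toZFSet ∈ N) (hs : PD hN s) (hx : PD hN x) (hq : PD hN q) :
    hN.Dfn (fun v => Act Ω (s v) (x v) (q v)) := by
  have hsm : ∀ {σ μ θ F : ZFSet.{0}}, σ ∈ N → CF.sm σ μ θ F → θ ∈ N ∧ F ∈ N := by
    rintro σ μ θ F hσ ⟨X, x', τ, h⟩
    exact hN.of_pair_mem (dx_ins hσ hN h).2.2.2.1
  have hsX : ∀ {σ μ X : ZFSet.{0}}, σ ∈ N → CF.sX σ μ X → X ∈ N := by
    rintro σ μ X hσ ⟨x', m, τ, h⟩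
    exact (dx_ins hσ hN h).2.1
  refine Df.exM (P := fun v θ => ∃ F X q', CF.sm (s v) (x v) θ F ∧ CF.sX (s v) θ X ∧ ZFSet.pair F q' ∈ X ∧
    CF.LE Ω ∅ (q v) q') ?_ ?_
  · rintro v θ ⟨F, X, q', h1, h2, h3, h4⟩
    exact (hsm (hs.1 v) h1).1
  refine Df.exM (P := fun (v : Fin (n + 1) → N) F => ∃ X q', CF.sm (s (fun i => v i.castSucc))
    (x (fun i => v i.castSucc)) (v (Fin.last n)).1 F ∧ CF.sX (s (fun i => v i.castSucc)) (v (Fin.last n)).1 X ∧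
    ZFSet.pair F q' ∈ X ∧ CF.LE Ω ∅ (q (fun i => v i.castSucc)) q') ?_ ?_
  · rintro v F ⟨X, q', h1, h2, h3, h4⟩
    exact (hsm (hs.1 _) h1).2
  refine Df.exM (P := fun (v : Fin (n + 2) → N) X => ∃ q', CF.sm (s (fun i => v i.castSucc.castSucc))
    (x (fun i => v i.castSucc.castSucc)) (v (Fin.last n).castSucc).1 (v (Fin.last (n + 1))).1 ∧
    CF.sX (s (fun i => v i.castSucc.castSucc)) (v (Fin.last n).castSucc).1 X ∧
    ZFSet.pair (v (Fin.last (n + 1))).1 q' ∈ X ∧ CF.LE Ω ∅ (q (fun i => v i.castSucc.castSucc)) q') ?_ ?_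
  · rintro v X ⟨q', h1, h2, h3, h4⟩
    exact hsX (hs.1 _) h2
  refine Df.exM (P := fun (v : Fin (n + 3) → N) q' => CF.sm (s (fun i => v i.castSucc.castSucc.castSucc))
    (x (fun i => v i.castSucc.castSucc.castSucc)) (v (Fin.last n).castSucc.castSucc).1
    (v (Fin.last (n + 1)).castSucc).1 ∧
    CF.sX (s (fun i => v i.castSucc.castSucc.castSucc)) (v (Fin.last n).castSucc.castSucc).1 (v (Fin.last (n + 2))).1 ∧
    ZFSet.pair (v (Fin.last (n + 1)).castSucc).1 q' ∈ (v (Fin.last (n + 2))).1 ∧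
    CF.LE Ω ∅ (q (fun i => v i.castSucc.castSucc.castSucc)) q') ?_ ?_
  · rintro v q' ⟨h1, h2, h3, h4⟩
    exact (dx_pair (v (Fin.last (n + 2))).2 hN h3).2
  exact Dfn.and (Df.sm hs.lift.lift.lift.lift hx.lift.lift.lift.lift (PD.var _) (PD.var _))
    (Dfn.and (Df.sX hs.lift.lift.lift.lift (PD.var _) (PD.var _))
      (Dfn.and (Df.mem (PD.pair (PD.var _) (PD.var _)) (PD.var _))
        (Df.LE hΩ (PD.const hN.empty_mem) hq.lift.lift.lift.lift (PD.var _))))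

theorem Df.Opn (hΩ : Ω.toZFSet ∈ N) (hs : PD hN s) (hx : PD hN x) (ha : PD hN a) (hb : PD hN b) (hq : PD hN q) :
    hN.Dfn (fun v => Opn Ω (s v) (x v) (a v) (b v) (q v)) := by
  have hst : ∀ {σ μ τ : ZFSet.{0}}, σ ∈ N → CF.st σ μ τ → τ ∈ N := by
    rintro σ μ τ hσ ⟨_, X, x', m, h⟩
    exact (dx_ins hσ hN h).2.2.2.2
  refine Df.exM (P := fun v τ => ∃ q', CF.st (s v) (x v) τ ∧ ZFSet.pair (ZFSet.pair (a v) (b v)) q' ∈ τ ∧
    CF.LE Ω ∅ (q v) q') ?_ ?_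
  · rintro v τ ⟨q', h1, h2, h3⟩
    exact hst (hs.1 v) h1
  refine Df.exM (P := fun (v : Fin (n + 1) → N) q' => CF.st (s (fun i => v i.castSucc)) (x (fun i => v i.castSucc))
    (v (Fin.last n)).1 ∧ ZFSet.pair (ZFSet.pair (a (fun i => v i.castSucc)) (b (fun i => v i.castSucc))) q' ∈
    (v (Fin.last n)).1 ∧ CF.LE Ω ∅ (q (fun i => v i.castSucc)) q') ?_ ?_
  · rintro v q' ⟨h1, h2, h3⟩
    exact (dx_pair (v (Fin.last n)).2 hN h2).2
  exact Dfn.and (Df.st hs.lift.lift hx.lift.lift (PD.var _))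
    (Dfn.and (Df.mem (PD.pair (PD.pair ha.lift.lift hb.lift.lift) (PD.var _)) (PD.var _))
      (Df.LE hΩ (PD.const hN.empty_mem) hq.lift.lift (PD.var _)))

theorem PD.rst (hp : PD hN p) (hx : PD hN x) : PD hN (fun v => rst (p v) (x v)) := by
  refine (PD.sep (P := fun v e => ∃ u t, e = ZFSet.pair u t ∧ ∃ ν r, u = ZFSet.pair ν r ∧ ν ∈ x v) hp ?_).congr
    fun v => ?_
  · refine Df.exPr (x := fun v : Fin (n + 1) → N => (v (Fin.last n)).1) (P := fun v u t => ∃ ν r,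
      u = ZFSet.pair ν r ∧ ν ∈ x (fun i => v i.castSucc)) (PD.var _) ?_
    refine Df.exPr (x := fun v : Fin (n + 3) → N => (v (Fin.last (n + 1)).castSucc).1) (P := fun v ν r =>
      ν ∈ x (fun i => v i.castSucc.castSucc.castSucc)) (PD.var _) ?_
    exact Df.mem (PD.var _) hx.lift.lift.lift.lift.lift
  · ext e
    rw [CF.rst, ZFSet.mem_sep, ZFSet.mem_sep]
    refine and_congr_right fun _ => ?_
    constructor
    · rintro ⟨u, t, h1, ν, r, h2, h3⟩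
      exact ⟨ν, r, t, by rw [h1, h2], h3⟩
    · rintro ⟨ν, r, t, h1, h3⟩
      exact ⟨_, t, h1, ν, r, rfl, h3⟩

theorem Df.IsC (hΩ : Ω.toZFSet ∈ N) (hs : PD hN s) (hp : PD hN p) : hN.Dfn (fun v => IsC Ω (s v) (p v)) := by
  have h1 : hN.Dfn (fun v => ∀ ρ y z, CF.ent ρ y z ∈ p v → ∀ z', CF.ent ρ y z' ∈ p v → z = z') := by
    refine Df.allEnt (P := fun v ρ y z => ∀ z', CF.ent ρ y z' ∈ p v → z = z') hp ?_
    refine Df.allM (P := fun (v : Fin (n + 3) → N) z' => CF.ent (v (Fin.last n).castSucc.castSucc).1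
      (v (Fin.last (n + 1)).castSucc).1 z' ∈ p (fun i => v i.castSucc.castSucc.castSucc) →
      (v (Fin.last (n + 2))).1 = z') ?_ ?_
    · intro v z' h
      push Not at h
      exact (dx_ent (hp.1 _) hN h.1).2.2
    · exact Dfn.imp (Df.mem (PD.ent (PD.var _) (PD.var _) (PD.var _)) hp.lift.lift.lift.lift)
        (Df.eq (PD.var _) (PD.var _))
  have h2 : hN.Dfn (fun v => ∀ e ∈ p v, ∃ ρ w, e = ZFSet.pair ρ w ∧ ∃ μ j, ρ = ZFSet.pair μ j ∧ ∃ y z,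
      w = ZFSet.pair y z ∧ ((∃ r < 4, j = Omega.natZ r ∧ y ∈ CF.LvZ Ω ∧ z ∈ CF.finS y) ∨
        (j = Omega.natZ 4 ∧ y ∈ CF.Nd Ω Omega.omZ ∧ z ∈ Omega.omZ))) := by
    refine Df.ball (P := fun v e => ∃ ρ w, e = ZFSet.pair ρ w ∧ ∃ μ j, ρ = ZFSet.pair μ j ∧ ∃ y z,
      w = ZFSet.pair y z ∧ ((∃ r < 4, j = Omega.natZ r ∧ y ∈ CF.LvZ Ω ∧ z ∈ CF.finS y) ∨
        (j = Omega.natZ 4 ∧ y ∈ CF.Nd Ω Omega.omZ ∧ z ∈ Omega.omZ))) hp ?_
    refine Df.exPr (x := fun v : Fin (n + 1) → N => (v (Fin.last n)).1) (P := fun v ρ w => ∃ μ j,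
      ρ = ZFSet.pair μ j ∧ ∃ y z,
      w = ZFSet.pair y z ∧ ((∃ r < 4, j = Omega.natZ r ∧ y ∈ CF.LvZ Ω ∧ z ∈ CF.finS y) ∨
        (j = Omega.natZ 4 ∧ y ∈ CF.Nd Ω Omega.omZ ∧ z ∈ Omega.omZ))) (PD.var _) ?_
    refine Df.exPr (x := fun v : Fin (n + 3) → N => (v (Fin.last (n + 1)).castSucc).1) (P := fun v μ j => ∃ y z,
      (v (Fin.last (n + 2))).1 = ZFSet.pair y z ∧ ((∃ r < 4, j = Omega.natZ r ∧ y ∈ CF.LvZ Ω ∧ z ∈ CF.finS y) ∨
        (j = Omega.natZ 4 ∧ y ∈ CF.Nd Ω Omega.omZ ∧ z ∈ Omega.omZ))) (PD.var _) ?_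
    refine Df.exPr (x := fun v : Fin (n + 5) → N => (v (Fin.last (n + 2)).castSucc.castSucc).1) (P := fun v y z =>
      ((∃ r < 4, (v (Fin.last (n + 4))).1 = Omega.natZ r ∧ y ∈ CF.LvZ Ω ∧ z ∈ CF.finS y) ∨
        ((v (Fin.last (n + 4))).1 = Omega.natZ 4 ∧ y ∈ CF.Nd Ω Omega.omZ ∧ z ∈ Omega.omZ))) (PD.var _) ?_
    refine Dfn.or ?_ (Dfn.and (Df.eq (PD.var _) (PD.natZ 4)) (Dfn.and (Df.mem (PD.var _) (PD.Nd hΩ PD.omZ))
      (Df.mem (PD.var _) PD.omZ)))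
    refine Df.ltN (P := fun (v : Fin (n + 7) → N) j => (v (Fin.last (n + 4)).castSucc.castSucc).1 = j ∧
      (v (Fin.last (n + 5)).castSucc).1 ∈ CF.LvZ Ω ∧ (v (Fin.last (n + 6))).1 ∈
      CF.finS (v (Fin.last (n + 5)).castSucc).1) 4 ?_
    exact Dfn.and (Df.eq (PD.var _) (PD.var _)) (Dfn.and (Df.mem (PD.var _) (PD.LvZ hΩ))
      (Df.mem (PD.var _) (PD.finS (PD.var _))))
  have h3 : hN.Dfn (fun v => ∀ ρ y z, CF.ent ρ y z ∈ p v → ∀ μ, ρ = CF.row μ 3 →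
      CF.Act Ω (s v) μ (CF.rst (p v) μ)) := by
    refine Df.allEnt (P := fun v ρ y z => ∀ μ, ρ = CF.row μ 3 → CF.Act Ω (s v) μ (CF.rst (p v) μ)) hp ?_
    refine Df.allM (P := fun (v : Fin (n + 3) → N) μ => (v (Fin.last n).castSucc.castSucc).1 = CF.row μ 3 →
      CF.Act Ω (s (fun i => v i.castSucc.castSucc.castSucc)) μ
        (CF.rst (p (fun i => v i.castSucc.castSucc.castSucc)) μ)) ?_ ?_
    · intro v μ h
      push Not at h
      have h' := (v (Fin.last n).castSucc.castSucc).2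
      rw [h.1] at h'
      exact (hN.of_pair_mem h').1
    · exact Dfn.imp (Df.eq (PD.var _) (PD.row (PD.var _) 3)) (Df.Act hΩ hs.lift.lift.lift.lift (PD.var _)
        (PD.rst hp.lift.lift.lift.lift (PD.var _)))
  have h4 : hN.Dfn (fun v => ∀ ρ y z, CF.ent ρ y z ∈ p v → ∀ μ, ρ = CF.row μ 4 → ∃ τ, CF.st (s v) μ τ) := by
    refine Df.allEnt (P := fun v ρ y z => ∀ μ, ρ = CF.row μ 4 → ∃ τ, CF.st (s v) μ τ) hp ?_
    refine Df.allM (P := fun (v : Fin (n + 3) → N) μ => (v (Fin.last n).castSucc.castSucc).1 = CF.row μ 4 →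
      ∃ τ, CF.st (s (fun i => v i.castSucc.castSucc.castSucc)) μ τ) ?_ ?_
    · intro v μ h
      push Not at h
      have h' := (v (Fin.last n).castSucc.castSucc).2
      rw [h.1] at h'
      exact (hN.of_pair_mem h').1
    · refine Dfn.imp (Df.eq (PD.var _) (PD.row (PD.var _) 4)) ?_
      refine Df.exM (P := fun (v : Fin (n + 4) → N) τ =>
        CF.st (s (fun i => v i.castSucc.castSucc.castSucc.castSucc)) (v (Fin.last (n + 3))).1 τ) ?_ ?_
      · rintro v τ ⟨_, X, x', m, h⟩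
        exact (dx_ins (hs.1 _) hN h).2.2.2.2
      · exact Df.st hs.lift.lift.lift.lift.lift (PD.var _) (PD.var _)
  have h5 : hN.Dfn (fun v => ∀ ρ x' n', CF.ent ρ x' n' ∈ p v → ∀ μ, ρ = CF.row μ 4 → ∀ y',
      CF.ent (CF.row μ 4) y' n' ∈ p v → CF.Bel x' y' → CF.Opn Ω (s v) μ x' y' (CF.rst (p v) μ)) := by
    refine Df.allEnt (P := fun v ρ x' n' => ∀ μ, ρ = CF.row μ 4 → ∀ y',
      CF.ent (CF.row μ 4) y' n' ∈ p v → CF.Bel x' y' → CF.Opn Ω (s v) μ x' y' (CF.rst (p v) μ)) hp ?_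
    refine Df.allM (P := fun (v : Fin (n + 3) → N) μ => (v (Fin.last n).castSucc.castSucc).1 = CF.row μ 4 → ∀ y',
      CF.ent (CF.row μ 4) y' (v (Fin.last (n + 2))).1 ∈ p (fun i => v i.castSucc.castSucc.castSucc) →
      CF.Bel (v (Fin.last (n + 1)).castSucc).1 y' →
      CF.Opn Ω (s (fun i => v i.castSucc.castSucc.castSucc)) μ (v (Fin.last (n + 1)).castSucc).1 y'
        (CF.rst (p (fun i => v i.castSucc.castSucc.castSucc)) μ)) ?_ ?_
    · intro v μ h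
      push Not at h
      have h' := (v (Fin.last n).castSucc.castSucc).2
      rw [h.1] at h'
      exact (hN.of_pair_mem h').1
    · refine Dfn.imp (Df.eq (PD.var _) (PD.row (PD.var _) 4)) ?_
      refine Df.allM (P := fun (v : Fin (n + 4) → N) y' =>
        CF.ent (CF.row (v (Fin.last (n + 3))).1 4) y' (v (Fin.last (n + 2)).castSucc).1 ∈
          p (fun i => v i.castSucc.castSucc.castSucc.castSucc) →
        CF.Bel (v (Fin.last (n + 1)).castSucc.castSucc).1 y' →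
        CF.Opn Ω (s (fun i => v i.castSucc.castSucc.castSucc.castSucc)) (v (Fin.last (n + 3))).1
          (v (Fin.last (n + 1)).castSucc.castSucc).1 y'
          (CF.rst (p (fun i => v i.castSucc.castSucc.castSucc.castSucc)) (v (Fin.last (n + 3))).1)) ?_ ?_
      · intro v y' h
        push Not at h
        exact (dx_ent (hp.1 _) hN h.1).2.1
      · exact Dfn.imp (Df.mem (PD.ent (PD.row (PD.var _) 4) (PD.var _) (PD.var _)) hp.lift.lift.lift.lift.lift)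
          (Dfn.imp (Df.Bel (PD.var _) (PD.var _)) (Df.Opn hΩ hs.lift.lift.lift.lift.lift (PD.var _) (PD.var _)
            (PD.var _) (PD.rst hp.lift.lift.lift.lift.lift (PD.var _))))
  refine (h1.and (h2.and (h3.and (h4.and h5)))).congr fun v => ?_
  constructor
  · rintro ⟨a1, a2, a3, a4, a5⟩
    refine ⟨fun ρ y z z' hz hz' => a1 ρ y z hz z' hz', fun e he => ?_, fun μ y z h => a3 _ y z h μ rfl,
      fun μ x' n' h => a4 _ x' n' h μ rfl, fun μ x' y' n' h h' hb => a5 _ x' n' h μ rfl y' h' hb⟩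
    obtain ⟨ρ, w, e1, μ, j, e2, y, z, e3, h⟩ := a2 e he
    refine ⟨μ, y, z, ?_⟩
    rcases h with ⟨r, hr, e4, hy, hz⟩ | ⟨e4, hy, hz⟩
    · exact Or.inl ⟨r, hr, by rw [e1, e2, e3, e4]; rfl, hy, hz⟩
    · exact Or.inr ⟨by rw [e1, e2, e3, e4]; rfl, hy, hz⟩
  · intro h
    refine ⟨fun ρ y z hz z' hz' => h.fn ρ y z z' hz hz', fun e he => ?_, ?_, ?_, ?_⟩
    · obtain ⟨μ, y, z, h'⟩ := h.ty e he
      rcases h' with ⟨r, hr, e1, hy, hz⟩ | ⟨e1, hy, hz⟩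
      · exact ⟨_, _, e1, μ, _, rfl, y, z, rfl, Or.inl ⟨r, hr, rfl, hy, hz⟩⟩
      · exact ⟨_, _, e1, μ, _, rfl, y, z, rfl, Or.inr ⟨rfl, hy, hz⟩⟩
    · rintro ρ y z hz μ rfl
      exact h.mkr μ y z hz
    · rintro ρ y z hz μ rfl
      exact h.sp μ y z hz
    · rintro ρ x' n' hz μ rfl y' hy' hb
      exact h.sp2 μ x' y' n' hz hy' hb

theorem PD.Ent (hΩ : Ω.toZFSet ∈ N) (ha : PD hN a) : PD hN (fun v => Ent Ω (a v)) :=
  PD.prod (PD.prod ha (PD.natZ 5)) (PD.prod (PD.union (PD.const hΩ) (PD.Nd hΩ PD.omZ)) (PD.finS (PD.const hΩ)))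

theorem PD.Sn (hΩ : Ω.toZFSet ∈ N) (hs : PD hN s) (ha : PD hN a) : PD hN (fun v => Sn Ω (s v) (a v)) :=
  PD.sep (P := fun v p => CF.IsC Ω (s v) p) (PD.finS (PD.Ent hΩ ha)) (Df.IsC hΩ hs.lift (PD.var _))

theorem PD.Ln (hΩ : Ω.toZFSet ∈ N) (hs : PD hN s) (ha : PD hN a) (hc : PD hN c) :
    PD hN (fun v => Ln Ω (s v) (a v) (c v)) := by
  refine PD.sep (P := fun v z => ∃ p q, z = ZFSet.pair p q ∧ CF.LE Ω (c v) p q)
    (PD.prod (PD.Sn hΩ hs ha) (PD.Sn hΩ hs ha)) ?_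
  refine Df.exPr (x := fun v : Fin (n + 1) → N => (v (Fin.last n)).1) (P := fun v p q =>
    CF.LE Ω (c (fun i => v i.castSucc)) p q) (PD.var _) ?_
  exact Df.LE hΩ hc.lift.lift.lift (PD.var _) (PD.var _)

theorem PD.OO (hΩ : Ω.toZFSet ∈ N) (he : PD hN e) (hs : PD hN s) (ha : PD hN a) (ht : PD hN t) :
    PD hN (fun v => OO Ω (e v) (s v) (a v) (t v)) := by
  refine (PD.sep (P := fun v z => ∃ u p, z = ZFSet.pair u p ∧ ∃ x' y', u = ZFSet.pair x' y' ∧ (CF.Bel x' y' ∧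
    ∃ q, ZFSet.pair (ZFSet.pair x' y') q ∈ t v ∧ CF.LE Ω ∅ p q))
    (PD.prod (PD.prod (PD.Nd hΩ he) (PD.Nd hΩ he)) (PD.Sn hΩ hs ha)) ?_).congr fun v => ?_
  · refine Df.exPr (x := fun v : Fin (n + 1) → N => (v (Fin.last n)).1) (P := fun v u p =>
      ∃ x' y', u = ZFSet.pair x' y' ∧ (CF.Bel x' y' ∧
      ∃ q, ZFSet.pair (ZFSet.pair x' y') q ∈ t (fun i => v i.castSucc) ∧ CF.LE Ω ∅ p q)) (PD.var _) ?_
    refine Df.exPr (x := fun v : Fin (n + 3) → N => (v (Fin.last (n + 1)).castSucc).1) (P := fun v x' y' =>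
      (CF.Bel x' y' ∧ ∃ q, ZFSet.pair (ZFSet.pair x' y') q ∈ t (fun i => v i.castSucc.castSucc.castSucc) ∧
        CF.LE Ω ∅ (v (Fin.last (n + 2))).1 q)) (PD.var _) ?_
    refine Dfn.and (Df.Bel (PD.var _) (PD.var _)) ?_
    refine Df.exM (P := fun (v : Fin (n + 5) → N) q => ZFSet.pair (ZFSet.pair (v (Fin.last (n + 3)).castSucc).1
      (v (Fin.last (n + 4))).1) q ∈ t (fun i => v i.castSucc.castSucc.castSucc.castSucc.castSucc) ∧
        CF.LE Ω ∅ (v (Fin.last (n + 2)).castSucc.castSucc).1 q) ?_ ?_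
    · rintro v q ⟨h, _⟩
      exact (dx_pair (ht.1 _) hN h).2
    · exact Dfn.and (Df.mem (PD.pair (PD.pair (PD.var _) (PD.var _)) (PD.var _)) ht.lift.lift.lift.lift.lift.lift)
        (Df.LE hΩ (PD.const hN.empty_mem) (PD.var _) (PD.var _))
  · ext z
    rw [CF.OO, ZFSet.mem_sep, ZFSet.mem_sep]
    refine and_congr_right fun _ => ?_
    constructor
    · rintro ⟨u, p', h1, x', y', h2, h3, q', h4, h5⟩
      subst h2
      exact ⟨x', y', p', q', h1, h3, h4, h5⟩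
    · rintro ⟨x', y', p', q', h1, h3, h4, h5⟩
      exact ⟨_, p', h1, x', y', rfl, h3, q', h4, h5⟩

end Pool.Agent.H17.CF
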