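import Pool.Agent.H17.CF.B.Dx2
import Pool.Agent.H7.IG.Tk4

/-!
# CF-B6: definability (2)

See CF/B/Dx.lean for the calculus.

PROOFS. `PD.QQ`, `PD.RQ`: unfold, `PD.sep`, `PD.prod`, `PD.finS`, `Df.exM`. `Df.Ctb`: `Ctb N X` is definable (H7/IG/Tk4 has `ud_Ctb`:
`ud_Ctb.dfn hN hN : hN.Dfn (fun v : Fin 1 → N => Ctb N (v 0).1)`; then `PD.use`). `Df.CC`: quantifiers over `N`.
`Df.TGN`, `Df.Edg`, `PD.TR`, `Df.DD`, `PD.cres`, `Df.Vld` (all fields; `Vld.iff`: conjunction of the fields).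
In `Df.Vld` the quantifiers `∃ X x m τ` / `∀ μ X x m τ` are bounded by `s ∈ N`: the witnesses are in `N` by
`CTM.of_pair_mem`; `∀ c, DD s μ c → ..`: `DD s μ c` implies `c ∈ N`.
-/

set_option autoImplicit false
set_option linter.unusedVariables false
set_option linter.unusedSectionVars false
set_option linter.unusedSimpArgs false
set_option linter.unusedTactic false
set_option linter.unreachableTactic false

open Pool.Agent.H17.Omega Pool.Agent.H17.Omega.CTM Pool.Agent.H52.GC Pool.Agent.H7.IG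

namespace Pool.Agent.H17.CF

variable {N : Set ZFSet.{0}} {hN : CTM N} {n : ℕ} {a b c d e k o p q r s t x y z : (Fin n → N) → ZFSet.{0}}
  {Ω : Ordinal.{0}}

theorem Dy_u1 {P : ZFSet.{0} → Prop} (h : hN.Dfn (fun v : Fin 1 → N => P (v 0).1)) (hx : PD hN x) :
    hN.Dfn (fun v => P (x v)) :=
  PD.use (P := fun v z => P z) hx (reidxC (n := n + 1) h ![Fin.last n])

theorem Dy_u2 {P : ZFSet.{0} → ZFSet.{0} → Prop} (h : hN.Dfn (fun v : Fin 2 → N => P (v 0).1 (v 1).1))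
    (hx : PD hN x) (hy : PD hN y) : hN.Dfn (fun v => P (x v) (y v)) := by
  refine PD.use (P := fun v z => P z (y v)) hx ?_
  refine PD.use (P := fun v z => P (v (Fin.last n)).1 z) hy.lift ?_
  exact reidxC (n := n + 2) h ![(Fin.last n).castSucc, Fin.last (n + 1)]

theorem Dy_u3 {P : ZFSet.{0} → ZFSet.{0} → ZFSet.{0} → Prop}
    (h : hN.Dfn (fun v : Fin 3 → N => P (v 0).1 (v 1).1 (v 2).1))
    (hx : PD hN x) (hy : PD hN y) (hz : PD hN z) : hN.Dfn (fun v => P (x v) (y v) (z v)) := by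
  refine PD.use (P := fun v w => P w (y v) (z v)) hx ?_
  refine PD.use (P := fun v w => P (v (Fin.last n)).1 w (z (fun i => v i.castSucc))) hy.lift ?_
  refine PD.use (P := fun v w => P (v (Fin.last n).castSucc).1 (v (Fin.last (n + 1))).1 w) hz.lift.lift ?_
  exact reidxC (n := n + 3) h ![(Fin.last n).castSucc.castSucc, (Fin.last (n + 1)).castSucc, Fin.last (n + 2)]

theorem Dy_m3 {F : ZFSet.{0} → ZFSet.{0} → ZFSet.{0} → ZFSet.{0}}
    (h : PD hN (n := 3) (fun v => F (v 0).1 (v 1).1 (v 2).1))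
    (hx : PD hN x) (hy : PD hN y) (hz : PD hN z) : PD hN (fun v => F (x v) (y v) (z v)) :=
  PD.mk3 (fun x hx y hy z hz => h.1 ![⟨x, hx⟩, ⟨y, hy⟩, ⟨z, hz⟩]) h.2 hx hy hz

theorem Dy_u4 {P : ZFSet.{0} → ZFSet.{0} → ZFSet.{0} → ZFSet.{0} → Prop}
    (h : hN.Dfn (fun v : Fin 4 → N => P (v 0).1 (v 1).1 (v 2).1 (v 3).1))
    (hx : PD hN x) (hy : PD hN y) (hz : PD hN z) (ha : PD hN a) : hN.Dfn (fun v => P (x v) (y v) (z v) (a v)) := by
  refine PD.use (P := fun v w => P w (y v) (z v) (a v)) hx ?_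
  refine PD.use (P := fun v w => P (v (Fin.last n)).1 w (z (fun i => v i.castSucc)) (a (fun i => v i.castSucc)))
    hy.lift ?_
  refine PD.use (P := fun v w => P (v (Fin.last n).castSucc).1 (v (Fin.last (n + 1))).1 w
    (a (fun i => v i.castSucc.castSucc))) hz.lift.lift ?_
  refine PD.use (P := fun v w => P (v (Fin.last n).castSucc.castSucc).1 (v (Fin.last (n + 1)).castSucc).1
    (v (Fin.last (n + 2))).1 w) ha.lift.lift.lift ?_
  exact reidxC (n := n + 4) h ![(Fin.last n).castSucc.castSucc.castSucc, (Fin.last (n + 1)).castSucc.castSucc,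
    (Fin.last (n + 2)).castSucc, Fin.last (n + 3)]

theorem Dy_m4 {F : ZFSet.{0} → ZFSet.{0} → ZFSet.{0} → ZFSet.{0} → ZFSet.{0}}
    (h : PD hN (n := 4) (fun v => F (v 0).1 (v 1).1 (v 2).1 (v 3).1))
    (hx : PD hN x) (hy : PD hN y) (hz : PD hN z) (ha : PD hN a) : PD hN (fun v => F (x v) (y v) (z v) (a v)) := by
  refine ⟨fun v => h.1 ![⟨x v, hx.1 v⟩, ⟨y v, hy.1 v⟩, ⟨z v, hz.1 v⟩, ⟨a v, ha.1 v⟩], ?_⟩
  refine PD.use (P := fun v w => (v (Fin.last n)).1 = F w (y (fun i => v i.castSucc)) (z (fun i => v i.castSucc))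
    (a (fun i => v i.castSucc))) hx.lift ?_
  refine PD.use (P := fun v w => (v (Fin.last n).castSucc).1 = F (v (Fin.last (n + 1))).1 w
    (z (fun i => v i.castSucc.castSucc)) (a (fun i => v i.castSucc.castSucc))) hy.lift.lift ?_
  refine PD.use (P := fun v w => (v (Fin.last n).castSucc.castSucc).1 = F (v (Fin.last (n + 1)).castSucc).1
    (v (Fin.last (n + 2))).1 w (a (fun i => v i.castSucc.castSucc.castSucc))) hz.lift.lift.lift ?_
  refine PD.use (P := fun v w => (v (Fin.last n).castSucc.castSucc.castSucc).1 =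
    F (v (Fin.last (n + 1)).castSucc.castSucc).1
    (v (Fin.last (n + 2)).castSucc).1 (v (Fin.last (n + 3))).1 w) ha.lift.lift.lift.lift ?_
  exact reidxC (n := n + 5) h.2 ![(Fin.last (n + 1)).castSucc.castSucc.castSucc, (Fin.last (n + 2)).castSucc.castSucc,
    (Fin.last (n + 3)).castSucc, Fin.last (n + 4), (Fin.last n).castSucc.castSucc.castSucc.castSucc]

theorem Dy_p1 (hN : CTM N) {s : ZFSet.{0}} {x y : ZFSet.{0}} (hs : s ∈ N) (h : ZFSet.pair x y ∈ s) : x ∈ N :=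
  (hN.of_pair_mem (hN.mem_of_mem hs h)).1

theorem Dy_p2 (hN : CTM N) {s : ZFSet.{0}} {x y : ZFSet.{0}} (hs : s ∈ N) (h : ZFSet.pair x y ∈ s) : y ∈ N :=
  (hN.of_pair_mem (hN.mem_of_mem hs h)).2

theorem Dy_QQ3 (hΩ : Ω.toZFSet ∈ N) : PD hN (n := 3) (fun v => CF.QQ Ω (v 0).1 (v 1).1 (v 2).1) := by
  unfold CF.QQ
  refine PD.sep ?_ ?_
  · exact PD.prod (PD.var _) (PD.finS (PD.prod (PD.Nd hΩ (PD.var _)) PD.omZ))
  refine Df.exM ?_ ?_
  · rintro v p ⟨f, h, _⟩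
    exact (hN.of_pair_mem (h ▸ (v (Fin.last 3)).2)).1
  refine Df.exM ?_ ?_
  · rintro v f ⟨h, _⟩
    exact (hN.of_pair_mem (h ▸ (v (Fin.last 3).castSucc).2)).2
  refine Dfn.and (Df.eq (PD.var _) (PD.pair (PD.var _) (PD.var _))) (Dfn.and (Df.Sv (PD.var _)) ?_)
  refine Df.allM ?_ ?_
  · intro v x h
    by_contra hx
    exact h fun y n h1 _ _ => (hx (Dy_p1 hN (Subtype.mem _) h1)).elim
  refine Df.allM ?_ ?_
  · intro v x h
    by_contra hx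
    exact h fun n _ h1 _ => (hx (Dy_p1 hN (Subtype.mem _) h1)).elim
  refine Df.allM ?_ ?_
  · intro v x h
    by_contra hx
    exact h fun _ h1 _ => (hx (Dy_p2 hN (Subtype.mem _) h1)).elim
  exact Dfn.imp (Df.mem (PD.pair (PD.var _) (PD.var _)) (PD.var _))
    (Dfn.imp (Df.mem (PD.pair (PD.var _) (PD.var _)) (PD.var _))
      (Dfn.imp (Df.Bel (PD.var _) (PD.var _)) (Df.mem (PD.pair (PD.pair (PD.var _) (PD.var _)) (PD.var _)) (PD.var _))))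

theorem PD.QQ (hΩ : Ω.toZFSet ∈ N) (he : PD hN e) (hp : PD hN p) (ho : PD hN o) :
    PD hN (fun v => QQ Ω (e v) (p v) (o v)) :=
  Dy_m3 (F := CF.QQ Ω) (Dy_QQ3 hΩ) he hp ho

theorem Dy_RQ4 (hΩ : Ω.toZFSet ∈ N) :
    PD hN (n := 4) (fun v => CF.RQ Ω (v 0).1 (v 1).1 (v 2).1 (v 3).1) := by
  unfold CF.RQ
  refine PD.sep ?_ ?_
  · exact PD.prod (PD.QQ hΩ (PD.var _) (PD.var _) (PD.var _)) (PD.QQ hΩ (PD.var _) (PD.var _) (PD.var _))
  have key : ∀ {z p f q g : ZFSet.{0}}, z ∈ N → z = ZFSet.pair (ZFSet.pair p f) (ZFSet.pair q g) →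
      p ∈ N ∧ f ∈ N ∧ q ∈ N ∧ g ∈ N := by
    intro z p f q g hz h
    have h1 := hN.of_pair_mem (h ▸ hz)
    exact ⟨(hN.of_pair_mem h1.1).1, (hN.of_pair_mem h1.1).2, (hN.of_pair_mem h1.2).1, (hN.of_pair_mem h1.2).2⟩
  refine Df.exM ?_ ?_
  · rintro v p ⟨f, q, g, h, _⟩
    exact (key (Subtype.mem _) h).1
  refine Df.exM ?_ ?_
  · rintro v f ⟨q, g, h, _⟩
    exact (key (Subtype.mem _) h).2.1
  refine Df.exM ?_ ?_
  · rintro v q ⟨g, h, _⟩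
    exact (key (Subtype.mem _) h).2.2.1
  refine Df.exM ?_ ?_
  · rintro v g ⟨h, _⟩
    exact (key (Subtype.mem _) h).2.2.2
  exact Dfn.and (Df.eq (PD.var _) (PD.pair (PD.pair (PD.var _) (PD.var _)) (PD.pair (PD.var _) (PD.var _))))
    (Dfn.and (Df.mem (PD.pair (PD.var _) (PD.var _)) (PD.var _)) (Df.sub (PD.var _) (PD.var _)))

theorem PD.RQ (hΩ : Ω.toZFSet ∈ N) (he : PD hN e) (hp : PD hN p) (hr : PD hN r) (ho : PD hN o) :
    PD hN (fun v => RQ Ω (e v) (p v) (r v) (o v)) :=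
  Dy_m4 (F := CF.RQ Ω) (Dy_RQ4 hΩ) he hp hr ho

theorem Df.Ctb (hx : PD hN x) : hN.Dfn (fun v => Ctb N (x v)) :=
  Dy_u1 (P := fun x => Pool.Agent.H52.GC.Ctb N x) (ud_Ctb.dfn hN hN) hx

theorem Df.CC (hp : PD hN p) (hr : PD hN r) : hN.Dfn (fun v => CC N (p v) (r v)) := by
  refine Dy_u2 (P := fun p r => CF.CC N p r) ?_ hp hr
  refine (Dfn.all (P := fun v Z => Z.1 ⊆ (v 0).1 → ∃ C : N, C.1 ⊆ Z.1 ∧ Pool.Agent.H52.GC.Ctb N C.1 ∧
    ∀ z ∈ Z.1, ∃ w ∈ C.1, ∃ r, ZFSet.pair r z ∈ (v 1).1 ∧ ZFSet.pair r w ∈ (v 1).1) ?_).congr fun v => ?_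
  · refine Dfn.imp (Df.sub (PD.var _) (PD.var _)) (Dfn.ex ?_)
    refine Dfn.and (Df.sub (PD.var _) (PD.var _)) (Dfn.and (Df.Ctb (PD.var _)) ?_)
    refine Df.ball (PD.var _) (Df.bex (PD.var _) (Df.exM ?_ ?_))
    · rintro v r ⟨h, _⟩
      exact Dy_p1 hN (Subtype.mem _) h
    · exact Dfn.and (Df.mem (PD.pair (PD.var _) (PD.var _)) (PD.var _))
        (Df.mem (PD.pair (PD.var _) (PD.var _)) (PD.var _))
  · constructor
    · intro h Z hZ h1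
      obtain ⟨C, h2⟩ := h ⟨Z, hZ⟩ h1
      exact ⟨C.1, C.2, h2⟩
    · intro h Z h1
      obtain ⟨C, hC, h2⟩ := h Z.1 Z.2 h1
      exact ⟨⟨C, hC⟩, h2⟩

theorem Df.TGN (hΩ : Ω.toZFSet ∈ N) (he : PD hN e) (hr : PD hN r) (ho : PD hN o) :
    hN.Dfn (fun v => TGN Ω (e v) (r v) (o v)) := by
  refine Dy_u3 (P := fun e r o => CF.TGN Ω e r o) ?_ he hr ho
  unfold CF.TGN
  refine Df.ball (PD.Nd hΩ (PD.var _)) (Df.ball (PD.Nd hΩ (PD.var _)) (Df.ball (PD.Nd hΩ (PD.var _)) ?_))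
  refine Dfn.imp (Df.Bel (PD.var _) (PD.var _)) (Dfn.imp (Df.Bel (PD.var _) (PD.var _)) (Df.allM ?_ ?_))
  · intro v p h
    by_contra hp
    exact h fun h1 => (hp (Dy_p2 hN (Subtype.mem _) h1)).elim
  refine Dfn.imp (Df.mem (PD.pair (PD.pair (PD.var _) (PD.var _)) (PD.var _)) (PD.var _)) (Df.exM ?_ ?_)
  · rintro v r ⟨h, _⟩
    exact Dy_p1 hN (Subtype.mem _) h
  exact Dfn.and (Df.mem (PD.pair (PD.var _) (PD.var _)) (PD.var _))
    (Dfn.or (Df.mem (PD.pair (PD.pair (PD.var _) (PD.var _)) (PD.var _)) (PD.var _))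
      (Df.mem (PD.pair (PD.pair (PD.var _) (PD.var _)) (PD.var _)) (PD.var _)))

theorem Df.Edg (hs : PD hN s) (hx : PD hN x) (hy : PD hN y) : hN.Dfn (fun v => Edg (s v) (x v) (y v)) := by
  refine Dy_u3 (P := fun s x y => CF.Edg s x y) ?_ hs hx hy
  unfold CF.Edg
  have key : ∀ {z μ : ZFSet.{0}} {i : ℕ}, z ∈ N → z = CF.row μ i → μ ∈ N := by
    intro z μ i hz h
    rw [h] at hz
    exact (hN.of_pair_mem (x := μ) (y := Omega.natZ i) hz).1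
  refine Df.exM ?_ ?_
  · rintro v μ (⟨h, _⟩ | ⟨h, _⟩ | ⟨h, _⟩)
    · exact key (Subtype.mem _) h
    · exact key (Subtype.mem _) h
    · exact key (Subtype.mem _) h
  refine Dfn.or (Dfn.and (Df.eq (PD.var _) (PD.row (PD.var _) _)) (Df.exM ?_ ?_)) (Dfn.or
    (Dfn.and (Df.eq (PD.var _) (PD.row (PD.var _) _)) (Df.sx (PD.var _) (PD.var _) (PD.var _)))
    (Dfn.and (Df.eq (PD.var _) (PD.row (PD.var _) _)) (Df.exM ?_ (Df.exM ?_ (Df.exM ?_ ?_)))))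
  · rintro v ν ⟨h, _⟩
    exact key (Subtype.mem _) h
  · exact Dfn.and (Df.eq (PD.var _) (PD.row (PD.var _) _)) (Dfn.or (Df.mem (PD.var _) (PD.var _))
      (Df.eq (PD.var _) (PD.var _)))
  · rintro v θ ⟨F, f, ⟨X, x, τ, h⟩, _⟩
    have h1 := Dy_p2 hN (Subtype.mem _) h
    exact (hN.of_pair_mem (hN.of_pair_mem (hN.of_pair_mem h1).2).1).1
  · rintro v F ⟨f, ⟨X, x, τ, h⟩, _⟩
    have h1 := Dy_p2 hN (Subtype.mem _) h
    exact (hN.of_pair_mem (hN.of_pair_mem (hN.of_pair_mem h1).2).1).2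
  · rintro v f ⟨_, h, _⟩
    exact key (Subtype.mem _) h
  · exact Dfn.and (Df.sm (PD.var _) (PD.var _) (PD.var _) (PD.var _)) (Dfn.and (Df.eq (PD.var _)
      (PD.row (PD.var _) _)) (Dfn.or (Df.eq (PD.var _) (PD.var _)) (Df.mem (PD.var _) (PD.var _))))

theorem PD.TR (ha : PD hN a) : PD hN (fun v => TR (a v)) := by
  unfold CF.TR
  exact PD.prod ha (PD.natZ 4)

theorem Df.DD (hs : PD hN s) (ha : PD hN a) (hc : PD hN c) : hN.Dfn (fun v => DD (s v) (a v) (c v)) := by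
  refine Dy_u3 (P := fun s a c => CF.DD s a c) ?_ hs ha hc
  unfold CF.DD
  refine Dfn.or (Df.eq (PD.var _) (PD.const hN.empty_mem)) (Dfn.or
    (Df.bex (PD.TR (PD.var _)) (Df.eq (PD.var _) (PD.singleton (PD.var _))))
    (Df.bex (PD.TR (PD.var _)) (Df.bex (PD.TR (PD.var _))
      (Dfn.and (Df.Edg (PD.var _) (PD.var _) (PD.var _)) (Df.eq (PD.var _) (PD.upair (PD.var _) (PD.var _)))))))

theorem PD.cres (hc : PD hN c) (ha : PD hN a) : PD hN (fun v => cres (c v) (a v)) := by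
  have h : PD hN (n := 2) (fun v => CF.cres (v 0).1 (v 1).1) := by
    unfold CF.cres
    refine PD.sep (PD.var _) (Df.bex (PD.var _) (Df.exM ?_ ?_))
    · intro v r h
      exact (hN.of_pair_mem (h ▸ (v (Fin.last 2).castSucc).2)).2
    · exact Df.eq (PD.var _) (PD.pair (PD.var _) (PD.var _))
  exact PD.mk2 (F := CF.cres) (fun x hx y hy => h.1 ![⟨x, hx⟩, ⟨y, hy⟩]) h.2 hc ha

theorem Vld.iff {M : Set ZFSet.{0}} {B s α : ZFSet.{0}} : Vld M Ω B s α ↔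
    (∀ z ∈ s, ∃ μ ∈ α, ∃ X x m τ, z = ZFSet.pair μ (ins X x m τ)) ∧
    (∀ μ ∈ α, ∃ X x m τ, ZFSet.pair μ (ins X x m τ) ∈ s) ∧
    (∀ μ i j, ZFSet.pair μ i ∈ s → ZFSet.pair μ j ∈ s → i = j) ∧
    (∀ μ X x m τ, ZFSet.pair μ (ins X x m τ) ∈ s → X ⊆ ZFSet.prod (CF.finS B) (CF.finS (CF.Ent Ω μ))) ∧
    (∀ μ X x m τ, ZFSet.pair μ (ins X x m τ) ∈ s → x = ∅ ∨ x ∈ CF.TR μ) ∧
    (∀ μ X x m τ, ZFSet.pair μ (ins X x m τ) ∈ s →
      m = ∅ ∨ ∃ θ ∈ μ, ∃ F ∈ CF.finS B, B ⊆ θ ∧ m = ZFSet.pair θ F) ∧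
    ∀ μ X x m τ, ZFSet.pair μ (ins X x m τ) ∈ s → τ = ∅ ∨
      (τ ⊆ ZFSet.prod (ZFSet.prod (CF.Nd Ω omZ) (CF.Nd Ω omZ)) (CF.Sn Ω s μ) ∧
        CF.TGN Ω omZ (CF.Ln Ω s μ ∅) (CF.OO Ω omZ s μ τ) ∧
        ∀ c, CF.DD s μ c → CF.CC M (CF.QQ Ω omZ (CF.Sn Ω s μ) (CF.OO Ω omZ s μ τ))
          (CF.RQ Ω omZ (CF.Sn Ω s μ) (CF.Ln Ω s μ c) (CF.OO Ω omZ s μ τ))) := by
  constructor
  · intro h
    exact ⟨h.sub, h.tot, h.uni, h.hX, h.hx, h.hm, h.hτ⟩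
  · rintro ⟨h1, h2, h3, h4, h5, h6, h7⟩
    exact ⟨h1, h2, h3, h4, h5, h6, h7⟩

theorem Dy_ins (hN : CTM N) {s μ X x m τ : ZFSet.{0}} (hs : s ∈ N) (h : ZFSet.pair μ (CF.ins X x m τ) ∈ s) :
    μ ∈ N ∧ X ∈ N ∧ x ∈ N ∧ m ∈ N ∧ τ ∈ N := by
  have h1 := hN.of_pair_mem (hN.mem_of_mem hs h)
  have h2 := hN.of_pair_mem (x := ZFSet.pair X x) (y := ZFSet.pair m τ) h1.2
  exact ⟨h1.1, (hN.of_pair_mem h2.1).1, (hN.of_pair_mem h2.1).2, (hN.of_pair_mem h2.2).1, (hN.of_pair_mem h2.2).2⟩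

theorem Dy_ins' (hN : CTM N) {z μ X x m τ : ZFSet.{0}} (hz : z ∈ N) (h : z = ZFSet.pair μ (CF.ins X x m τ)) :
    μ ∈ N ∧ X ∈ N ∧ x ∈ N ∧ m ∈ N ∧ τ ∈ N := by
  rw [h] at hz
  have h1 := hN.of_pair_mem hz
  have h2 := hN.of_pair_mem (x := ZFSet.pair X x) (y := ZFSet.pair m τ) h1.2
  exact ⟨h1.1, (hN.of_pair_mem h2.1).1, (hN.of_pair_mem h2.1).2, (hN.of_pair_mem h2.2).1, (hN.of_pair_mem h2.2).2⟩

/-- Universal quantifiers over the parts of the instructions. -/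
theorem Dy_all {P : (Fin n → N) → ZFSet.{0} → ZFSet.{0} → ZFSet.{0} → ZFSet.{0} → ZFSet.{0} → Prop} (i : Fin n)
    (h : hN.Dfn (fun v : Fin (n + 1 + 1 + 1 + 1 + 1) → N => P (fun i => v i.castSucc.castSucc.castSucc.castSucc.castSucc)
      (v (Fin.last n).castSucc.castSucc.castSucc.castSucc).1
      (v (Fin.last (n + 1)).castSucc.castSucc.castSucc).1 (v (Fin.last (n + 1 + 1)).castSucc.castSucc).1
      (v (Fin.last (n + 1 + 1 + 1)).castSucc).1 (v (Fin.last (n + 1 + 1 + 1 + 1))).1)) :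
    hN.Dfn (fun v : Fin n → N => ∀ μ X x m τ, ZFSet.pair μ (CF.ins X x m τ) ∈ (v i).1 → P v μ X x m τ) := by
  refine Df.allM ?_ (Df.allM ?_ (Df.allM ?_ (Df.allM ?_ (Df.allM ?_ (Dfn.imp
    (Df.mem (PD.pair (PD.var _) (PD.ins (PD.var _) (PD.var _) (PD.var _) (PD.var _))) (PD.var _)) h)))))
  · intro v z hz
    by_contra hn
    exact hz fun X x m τ h1 => (hn (Dy_ins hN (Subtype.mem _) h1).1).elim
  · intro v z hz
    by_contra hn
    exact hz fun x m τ h1 => (hn (Dy_ins hN (Subtype.mem _) h1).2.1).elim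
  · intro v z hz
    by_contra hn
    exact hz fun m τ h1 => (hn (Dy_ins hN (Subtype.mem _) h1).2.2.1).elim
  · intro v z hz
    by_contra hn
    exact hz fun τ h1 => (hn (Dy_ins hN (Subtype.mem _) h1).2.2.2.1).elim
  · intro v z hz
    by_contra hn
    exact hz fun h1 => (hn (Dy_ins hN (Subtype.mem _) h1).2.2.2.2).elim

theorem Df.Vld (hΩ : Ω.toZFSet ∈ N) {B : ZFSet.{0}} (hB : B ∈ N) (hs : PD hN s) (ha : PD hN a) :
    hN.Dfn (fun v => Vld N Ω B (s v) (a v)) := by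
  refine Dy_u2 (P := fun s a => CF.Vld N Ω B s a) ?_ hs ha
  have hem : PD hN (fun _ : Fin 7 → N => (∅ : ZFSet.{0})) := PD.const hN.empty_mem
  have hBc : ∀ {k : ℕ}, PD hN (fun _ : Fin k → N => B) := PD.const hB
  simp only [Vld.iff]
  refine Dfn.and ?_ (Dfn.and ?_ (Dfn.and ?_ (Dfn.and ?_ (Dfn.and ?_ (Dfn.and ?_ ?_)))))
  · refine Df.ball (PD.var _) (Df.bex (PD.var _) (Df.exM ?_ (Df.exM ?_ (Df.exM ?_ (Df.exM ?_
      (Df.eq (PD.var _) (PD.pair (PD.var _) (PD.ins (PD.var _) (PD.var _) (PD.var _) (PD.var _)))))))))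
    · rintro v X ⟨x, m, τ, h⟩
      exact (Dy_ins' hN (Subtype.mem _) h).2.1
    · rintro v x ⟨m, τ, h⟩
      exact (Dy_ins' hN (Subtype.mem _) h).2.2.1
    · rintro v m ⟨τ, h⟩
      exact (Dy_ins' hN (Subtype.mem _) h).2.2.2.1
    · rintro v τ h
      exact (Dy_ins' hN (Subtype.mem _) h).2.2.2.2
  · refine Df.ball (PD.var _) (Df.exM ?_ (Df.exM ?_ (Df.exM ?_ (Df.exM ?_
      (Df.mem (PD.pair (PD.var _) (PD.ins (PD.var _) (PD.var _) (PD.var _) (PD.var _))) (PD.var _))))))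
    · rintro v X ⟨x, m, τ, h⟩
      exact (Dy_ins hN (Subtype.mem _) h).2.1
    · rintro v x ⟨m, τ, h⟩
      exact (Dy_ins hN (Subtype.mem _) h).2.2.1
    · rintro v m ⟨τ, h⟩
      exact (Dy_ins hN (Subtype.mem _) h).2.2.2.1
    · rintro v τ h
      exact (Dy_ins hN (Subtype.mem _) h).2.2.2.2
  · refine Df.allM ?_ (Df.allM ?_ (Df.allM ?_ (Dfn.imp (Df.mem (PD.pair (PD.var _) (PD.var _)) (PD.var _))
      (Dfn.imp (Df.mem (PD.pair (PD.var _) (PD.var _)) (PD.var _)) (Df.eq (PD.var _) (PD.var _))))))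
    · intro v μ h
      by_contra hn
      exact h fun i j h1 _ => (hn (Dy_p1 hN (Subtype.mem _) h1)).elim
    · intro v i h
      by_contra hn
      exact h fun j h1 _ => (hn (Dy_p2 hN (Subtype.mem _) h1)).elim
    · intro v j h
      by_contra hn
      exact h fun _ h1 => (hn (Dy_p2 hN (Subtype.mem _) h1)).elim
  · refine Dy_all 0 ?_
    exact Df.sub (PD.var _) (PD.prod (PD.finS (PD.const hB)) (PD.finS (PD.Ent hΩ (PD.var _))))
  · refine Dy_all 0 ?_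
    exact Dfn.or (Df.eq (PD.var _) (PD.const hN.empty_mem)) (Df.mem (PD.var _) (PD.TR (PD.var _)))
  · refine Dy_all 0 ?_
    refine Dfn.or (Df.eq (PD.var _) (PD.const hN.empty_mem)) (Df.bex (PD.var _) (Df.bex (PD.finS (PD.const hB)) ?_))
    exact Dfn.and (Df.sub (PD.const hB) (PD.var _)) (Df.eq (PD.var _) (PD.pair (PD.var _) (PD.var _)))
  · refine Dy_all 0 ?_
    refine Dfn.or (Df.eq (PD.var _) (PD.const hN.empty_mem)) ?_
    refine Dfn.and (Df.sub (PD.var _) (PD.prod (PD.prod (PD.Nd hΩ PD.omZ) (PD.Nd hΩ PD.omZ))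
      (PD.Sn hΩ (PD.var _) (PD.var _)))) (Dfn.and (Df.TGN hΩ PD.omZ (PD.Ln hΩ (PD.var _) (PD.var _)
        (PD.const hN.empty_mem)) (PD.OO hΩ PD.omZ (PD.var _) (PD.var _) (PD.var _))) (Df.allM ?_ ?_))
    · intro v c h
      by_contra hn
      refine h fun h1 => (hn ?_).elim
      rcases h1 with rfl | ⟨ρ, hρ, rfl⟩ | ⟨ρ, hρ, ρ', hρ', _, rfl⟩
      · exact hN.empty_mem
      · have h2 : ρ ∈ N := (hN.mem_of_mem ((PD.TR (hN := hN) (PD.var (Fin.castSucc (Fin.castSucc (Fin.castSucc (Fin.castSucc (Fin.last 2))))))).1 v) hρ)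
        have h3 := hN.upair_mem h2 h2
        rwa [show ({ρ, ρ} : ZFSet.{0}) = {ρ} by ext z; simp] at h3
      · have h2 : ρ ∈ N := (hN.mem_of_mem ((PD.TR (hN := hN) (PD.var (Fin.castSucc (Fin.castSucc (Fin.castSucc (Fin.castSucc (Fin.last 2))))))).1 v) hρ)
        have h3 : ρ' ∈ N := (hN.mem_of_mem ((PD.TR (hN := hN) (PD.var (Fin.castSucc (Fin.castSucc (Fin.castSucc (Fin.castSucc (Fin.last 2))))))).1 v) hρ')
        exact hN.upair_mem h2 h3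
    · exact Dfn.imp (Df.DD (PD.var _) (PD.var _) (PD.var _)) (Df.CC
        (PD.QQ hΩ PD.omZ (PD.Sn hΩ (PD.var _) (PD.var _)) (PD.OO hΩ PD.omZ (PD.var _) (PD.var _) (PD.var _)))
        (PD.RQ hΩ PD.omZ (PD.Sn hΩ (PD.var _) (PD.var _)) (PD.Ln hΩ (PD.var _) (PD.var _) (PD.var _))
          (PD.OO hΩ PD.omZ (PD.var _) (PD.var _) (PD.var _))))

end Pool.Agent.H17.CF
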