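import Pool.Agent.H17.CF.B.Oo
import Pool.Agent.H17.CF.B.Dy
import Pool.Agent.H17.CF.A.Hull
import Pool.Agent.H7.IG.Tk4

/-!
# CF-B7: the limit step of the ccc theorem

`β` is a limit ordinal, `t` a name over `Sn Ω s α`, `α ≤ γ₀ < β`, the rows of `c` have stage `< γ₀` (this is not even
needed). For all `γ ∈ [γ₀, β)` the iteration `QQ` over `(Sn Ω s γ, ≤_c)` with `OO Ω E s γ t` is ccc in `M`. Then the same for `β`.

PROOF. For `z = (p, f) ∈ QQ_β` (`p ∈ Sn Ω s β`) and `γ₀ ≤ γ < β` we have `z|γ := (rst p γ, f) ∈ QQ_γ`: `rst_mem_Sn` and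
`((x,y), p) ∈ OO β t → ((x,y), rst p γ) ∈ OO γ t` (`oo_rst` for `α ≤ β` and for `α ≤ γ`, `rst_rst`).
Let `Z ∈ M`, `Z ⊆ QQ_β`.
(1) For every `γ ∈ [γ₀, β)` there is `C ∈ M`, `C ⊆ Z`, `Ctb M C`, such that for all `(p, f) ∈ Z` there is `(p', f') ∈ C` with `(p,f)|γ`
and `(p',f')|γ` compatible in `QQ_γ`. (Apply `CC` to `Z_γ = {z|γ : z ∈ Z}`: countable `C₀ ⊆ Z_γ`; choose for every
element of `C₀` a preimage in `Z` (`exists_choice`, Tk1); `Ctb.image`.) By `exists_choice` there is a function `H ∈ M`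
on `[γ₀, β)` with such values `H(γ)`.
(2) Let `X = β ∪ Z`, and let `r ∈ M` be the set of the pairs `(e, x)` with `e ∈ finS X`, `x ∈ X` such that
 (a) `e = {γ}`, `γ ∈ [γ₀, β)`, `x ∈ H(γ)`, or
 (b) `e = {ξ}`, `ξ ∈ β`, `x = ξ ∪ {ξ}` (the successor), or
 (c) `e = {w}`, `w = (p, f) ∈ Z` and `x` is the stage of an entry of `p`.
For each `e` the set of the `x` with `(e, x) ∈ r` is countable in `M` ((a) `H(γ)`; (b) one element; (c) finitely many).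
By `exists_closed` there is a countable `X' ∈ M` with `γ₀ ∈ X' ⊆ X`, closed under `r`. Let `C = Z ∩ X'`: countable.
(3) Claim: every `z = (p, f) ∈ Z` is compatible with some `w ∈ C`. Let `γ` be the maximum of `γ₀` and all `ξ + 1` where `ξ`
is a stage of an entry of `p` with `ξ ∈ X'`. This is a maximum of finitely many ordinals, all of them are in `X'`
(b), and `γ < β` (limit). By (a) `H(γ) ⊆ X'`, so there is `w = (p', f') ∈ C` such that there is `(u, h) ∈ QQ_γ` below `z|γ` and `w|γ`: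
`u ≤_c rst p γ`, `u ≤_c rst p' γ`, `f ∪ f' ⊆ h`. By (c) the stages of `p'` are in `X'`; the stages `≥ γ` of `p` are not in
`X'`. So no stage `≥ γ` occurs in both, and `amal2` gives `v ∈ Sn Ω s β`, `v ≤_c p`, `v ≤_c p'`, `u ⊆ v`. Then `(v, h) ∈ QQ_β`:
if `((x,y), u) ∈ OO γ t` then `((x,y), v) ∈ OO β t` (`v ≤_∅ u` by `LE.of_sub`; `mem_OO`). So `(v, h)` is a common extension.

(If `γ` is the empty maximum use `γ₀`.) All sets are in `M` by definability: `PD.Sn`, `PD.Ln`, `PD.OO`, `PD.QQ`, `PD.RQ` etc. give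
membership, e.g. `(PD.Sn (n := 0) ..).1`; see `Sn_mem` etc. below (prove them first).
-/

set_option autoImplicit false
set_option linter.unusedVariables false
set_option linter.unusedSectionVars false
set_option linter.unusedSimpArgs false
set_option linter.unusedTactic false
set_option linter.unreachableTactic false

open Pool.Agent.H17.Omega Pool.Agent.H17.Omega.CTM Pool.Agent.H52.GC Pool.Agent.H7.IG

namespace Pool.Agent.H17.CF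


/-! ### Auxiliary facts -/

theorem lim_ctb_singleton {M : Set ZFSet.{0}} (hM : CTM M) {x : ZFSet.{0}} (hx : x ∈ M) : Ctb M {x} := by
  refine ⟨fun _ => x, ?_, fun y hy => ⟨0, (ZFSet.mem_singleton.1 hy).symm⟩⟩
  refine seqZ_mem_of_dfn hM (F := fun _ y => y.1 = (⟨x, hx⟩ : M).1) (Dfn.eqv (DT.var _) (DT.const _)) ?_ (fun _ => hx)
  intro n y
  exact Iff.rfl

theorem lim_ctb_union {M : Set ZFSet.{0}} (hM : CTM M) {X Y : ZFSet.{0}} (hX : X ∈ M) (hY : Y ∈ M)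
    (hXc : Ctb M X) (hYc : Ctb M Y) : Ctb M (X ∪ Y) := by
  refine Ctb.iUnion hM (X := fun n => if n = 0 then X else Y) ?_ ?_ ?_
  · refine seqZ_mem_of_dfn hM (F := fun n y => (n.1 = (nz hM 0).1 ∧ y.1 = (⟨X, hX⟩ : M).1) ∨
      (¬ n.1 = (nz hM 0).1 ∧ y.1 = (⟨Y, hY⟩ : M).1)) ?_ ?_ ?_
    · exact Dfn.or (Dfn.and (Dfn.eqv (DT.var _) (DT.const _)) (Dfn.eqv (DT.var _) (DT.const _)))
        (Dfn.and (Dfn.not (Dfn.eqv (DT.var _) (DT.const _))) (Dfn.eqv (DT.var _) (DT.const _)))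
    · intro n y
      have h0 : (nz hM n).1 = (nz hM 0).1 ↔ n = 0 := natZ_inj
      by_cases hn : n = 0
      · simp [hn]
      · have : ¬ (nz hM n).1 = (nz hM 0).1 := fun h => hn (h0.1 h)
        simp [hn, this]
    · intro n
      by_cases hn : n = 0
      · simp only [hn, if_true]; exact hX
      · simp only [hn, if_false]; exact hY
  · intro n
    by_cases hn : n = 0
    · simp only [hn, if_true]; exact hXc
    · simp only [hn, if_false]; exact hYc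
  · intro x hx
    rcases ZFSet.mem_union.1 hx with h | h
    · exact ⟨0, by simpa using h⟩
    · exact ⟨1, by simpa using h⟩

theorem lim_ctb_fin {M : Set ZFSet.{0}} (hM : CTM M) : ∀ (s : Finset ZFSet.{0}) (a : ZFSet.{0}),
    (∀ z, z ∈ a ↔ z ∈ s) → (∀ z ∈ a, z ∈ M) → Ctb M a := by
  classical
  intro s
  induction s using Finset.induction_on with
  | empty =>
    intro a ha _
    exact (lim_ctb_singleton hM hM.empty_mem).mono fun x hx => by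
      have := (ha x).1 hx
      simp at this
  | insert e s he ih =>
    intro a ha haM
    have heM : e ∈ M := haM e ((ha e).2 (Finset.mem_insert_self _ _))
    set b := ZFSet.sep (fun z => z ∈ s) a with hb
    have hb' : ∀ z, z ∈ b ↔ z ∈ s := by
      intro z
      rw [hb, ZFSet.mem_sep]
      exact ⟨fun h => h.2, fun h => ⟨(ha z).2 (Finset.mem_insert_of_mem h), h⟩⟩
    have hbM : ∀ z ∈ b, z ∈ M := fun z hz => haM z (ZFSet.mem_sep.1 hz).1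
    have hbm : b ∈ M := FinZ.mem hM (X := b) ⟨s, hb'⟩ hbM
    refine (lim_ctb_union hM hbm (hM.singleton_mem heM) (ih b hb' hbM) (lim_ctb_singleton hM heM)).mono ?_
    intro x hx
    rcases Finset.mem_insert.1 ((ha x).1 hx) with h | h
    · exact ZFSet.mem_union.2 (Or.inr (ZFSet.mem_singleton.2 h))
    · exact ZFSet.mem_union.2 (Or.inl ((hb' x).2 h))

theorem lim_mem_QQ {Ω : Ordinal.{0}} {E P O p f : ZFSet.{0}} : ZFSet.pair p f ∈ QQ Ω E P O ↔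
    p ∈ P ∧ f ∈ finS (ZFSet.prod (Nd Ω E) omZ) ∧ Sv f ∧
      ∀ x y n, ZFSet.pair x n ∈ f → ZFSet.pair y n ∈ f → Bel x y → ZFSet.pair (ZFSet.pair x y) p ∈ O := by
  rw [QQ, ZFSet.mem_sep, ZFSet.pair_mem_prod]
  constructor
  · rintro ⟨⟨h1, h2⟩, p', f', h3, h4, h5⟩
    rw [ZFSet.pair_inj] at h3
    obtain ⟨rfl, rfl⟩ := h3
    exact ⟨h1, h2, h4, h5⟩
  · rintro ⟨h1, h2, h3, h4⟩
    exact ⟨⟨h1, h2⟩, p, f, rfl, h3, h4⟩

theorem lim_QQ_pair {Ω : Ordinal.{0}} {E P O z : ZFSet.{0}} (hz : z ∈ QQ Ω E P O) : ∃ p f, z = ZFSet.pair p f := by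
  obtain ⟨_, p, f, h, _⟩ := ZFSet.mem_sep.1 hz
  exact ⟨p, f, h⟩

theorem lim_mem_RQ {Ω : Ordinal.{0}} {E P R O p f q g : ZFSet.{0}} :
    ZFSet.pair (ZFSet.pair p f) (ZFSet.pair q g) ∈ RQ Ω E P R O ↔
      ZFSet.pair p f ∈ QQ Ω E P O ∧ ZFSet.pair q g ∈ QQ Ω E P O ∧ ZFSet.pair p q ∈ R ∧ g ⊆ f := by
  rw [RQ, ZFSet.mem_sep, ZFSet.pair_mem_prod]
  constructor
  · rintro ⟨⟨h1, h2⟩, p', f', q', g', h3, h4, h5⟩
    rw [ZFSet.pair_inj, ZFSet.pair_inj, ZFSet.pair_inj] at h3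
    obtain ⟨⟨rfl, rfl⟩, rfl, rfl⟩ := h3
    exact ⟨h1, h2, h4, h5⟩
  · rintro ⟨h1, h2, h3, h4⟩
    exact ⟨⟨h1, h2⟩, p, f, q, g, rfl, h3, h4⟩

/-- `z'` is the restriction of `z` to the stage `γ`. -/
def Rz (γ z z' : ZFSet.{0}) : Prop := ∃ p, ∃ f, z = ZFSet.pair p f ∧ z' = ZFSet.pair (rst p γ) f

/-- `z` and `w` are compatible at the stage `γ`. -/
def Jz (Ω : Ordinal.{0}) (s E c t γ z w : ZFSet.{0}) : Prop :=
  ∃ z' ∈ QQ Ω E (Sn Ω s γ) (OO Ω E s γ t), ∃ w' ∈ QQ Ω E (Sn Ω s γ) (OO Ω E s γ t),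
    ∃ r ∈ QQ Ω E (Sn Ω s γ) (OO Ω E s γ t), Rz γ z z' ∧ Rz γ w w' ∧
      ZFSet.pair r z' ∈ RQ Ω E (Sn Ω s γ) (Ln Ω s γ c) (OO Ω E s γ t) ∧
      ZFSet.pair r w' ∈ RQ Ω E (Sn Ω s γ) (Ln Ω s γ c) (OO Ω E s γ t)

section Dfs

variable {N : Set ZFSet.{0}} {hN : CTM N} {n : ℕ} {g z w z' : (Fin n → N) → ZFSet.{0}} {Ω : Ordinal.{0}}

theorem Df.Rz (hg : PD hN g) (hz : PD hN z) (hz' : PD hN z') : hN.Dfn (fun v => Rz (g v) (z v) (z' v)) := by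
  refine Df.exM (P := fun v p => ∃ f, z v = ZFSet.pair p f ∧ z' v = ZFSet.pair (CF.rst p (g v)) f) ?_ ?_
  · rintro v p ⟨f, h, _⟩
    have := hz.1 v
    rw [h] at this
    exact (hN.of_pair_mem this).1
  · refine Df.exM (P := fun (v : Fin (n + 1) → N) f => z (fun i => v i.castSucc) = ZFSet.pair (v (Fin.last n)).1 f ∧
      z' (fun i => v i.castSucc) = ZFSet.pair (CF.rst (v (Fin.last n)).1 (g (fun i => v i.castSucc))) f) ?_ ?_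
    · rintro v f ⟨h, _⟩
      have := hz.1 (fun i => v i.castSucc)
      rw [h] at this
      exact (hN.of_pair_mem this).2
    · exact Dfn.and (Df.eq hz.lift.lift (PD.pair (PD.var _) (PD.var _)))
        (Df.eq hz'.lift.lift (PD.pair (PD.rst (PD.var _) hg.lift.lift) (PD.var _)))

theorem Df.Jz (hΩ : Ω.toZFSet ∈ N) {s E c t : ZFSet.{0}} (hs : s ∈ N) (hE : E ∈ N) (hc : c ∈ N) (ht : t ∈ N)
    (hg : PD hN g) (hz : PD hN z) (hw : PD hN w) : hN.Dfn (fun v => Jz Ω s E c t (g v) (z v) (w v)) := by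
  have hQ : PD hN (fun v => QQ Ω E (Sn Ω s (g v)) (OO Ω E s (g v) t)) :=
    PD.QQ hΩ (PD.const hE) (PD.Sn hΩ (PD.const hs) hg) (PD.OO hΩ (PD.const hE) (PD.const hs) hg (PD.const ht))
  have hR : PD hN (fun v => RQ Ω E (Sn Ω s (g v)) (Ln Ω s (g v) c) (OO Ω E s (g v) t)) :=
    PD.RQ hΩ (PD.const hE) (PD.Sn hΩ (PD.const hs) hg) (PD.Ln hΩ (PD.const hs) hg (PD.const hc))
      (PD.OO hΩ (PD.const hE) (PD.const hs) hg (PD.const ht))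
  unfold CF.Jz
  refine Df.bex (P := fun v z' => ∃ w' ∈ QQ Ω E (Sn Ω s (g v)) (OO Ω E s (g v) t),
    ∃ r ∈ QQ Ω E (Sn Ω s (g v)) (OO Ω E s (g v) t), CF.Rz (g v) (z v) z' ∧ CF.Rz (g v) (w v) w' ∧
      ZFSet.pair r z' ∈ RQ Ω E (Sn Ω s (g v)) (Ln Ω s (g v) c) (OO Ω E s (g v) t) ∧
      ZFSet.pair r w' ∈ RQ Ω E (Sn Ω s (g v)) (Ln Ω s (g v) c) (OO Ω E s (g v) t)) hQ ?_
  refine Df.bex (P := fun (v : Fin (n + 1) → N) w' => ∃ r ∈ QQ Ω E (Sn Ω s (g (fun i => v i.castSucc)))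
      (OO Ω E s (g (fun i => v i.castSucc)) t), CF.Rz (g (fun i => v i.castSucc)) (z (fun i => v i.castSucc))
        (v (Fin.last n)).1 ∧ CF.Rz (g (fun i => v i.castSucc)) (w (fun i => v i.castSucc)) w' ∧
      ZFSet.pair r (v (Fin.last n)).1 ∈ RQ Ω E (Sn Ω s (g (fun i => v i.castSucc)))
        (Ln Ω s (g (fun i => v i.castSucc)) c) (OO Ω E s (g (fun i => v i.castSucc)) t) ∧
      ZFSet.pair r w' ∈ RQ Ω E (Sn Ω s (g (fun i => v i.castSucc))) (Ln Ω s (g (fun i => v i.castSucc)) c)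
        (OO Ω E s (g (fun i => v i.castSucc)) t)) hQ.lift ?_
  refine Df.bex (P := fun (v : Fin (n + 1 + 1) → N) r => CF.Rz (g (fun i => v i.castSucc.castSucc))
      (z (fun i => v i.castSucc.castSucc))
        (v (Fin.last n).castSucc).1 ∧ CF.Rz (g (fun i => v i.castSucc.castSucc)) (w (fun i => v i.castSucc.castSucc))
          (v (Fin.last (n + 1))).1 ∧
      ZFSet.pair r (v (Fin.last n).castSucc).1 ∈ RQ Ω E (Sn Ω s (g (fun i => v i.castSucc.castSucc)))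
        (Ln Ω s (g (fun i => v i.castSucc.castSucc)) c) (OO Ω E s (g (fun i => v i.castSucc.castSucc)) t) ∧
      ZFSet.pair r (v (Fin.last (n + 1))).1 ∈ RQ Ω E (Sn Ω s (g (fun i => v i.castSucc.castSucc)))
        (Ln Ω s (g (fun i => v i.castSucc.castSucc)) c)
        (OO Ω E s (g (fun i => v i.castSucc.castSucc)) t)) hQ.lift.lift ?_
  exact Dfn.and (Df.Rz hg.lift.lift.lift hz.lift.lift.lift (PD.var _)) (Dfn.and
    (Df.Rz hg.lift.lift.lift hw.lift.lift.lift (PD.var _)) (Dfn.and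
    (Df.mem (PD.pair (PD.var _) (PD.var _)) hR.lift.lift.lift)
    (Df.mem (PD.pair (PD.var _) (PD.var _)) hR.lift.lift.lift)))

/-- The relation of the closure argument. -/
def LRl (A H pZ B Z e x : ZFSet.{0}) : Prop :=
  (∃ γ ∈ A, e = {γ, γ} ∧ ∃ C ∈ pZ, ZFSet.pair γ C ∈ H ∧ x ∈ C) ∨
    (∃ ξ ∈ B, e = {ξ, ξ} ∧ x = insert ξ ξ) ∨
    (∃ w ∈ Z, e = {w, w} ∧ ∃ p, ∃ f, w = ZFSet.pair p f ∧ ∃ ρ, ∃ y, ZFSet.pair (ZFSet.pair x ρ) y ∈ p)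

theorem Df.LRl {A H pZ B Z : ZFSet.{0}} (hA : A ∈ N) (hH : H ∈ N) (hpZ : pZ ∈ N) (hB : B ∈ N) (hZ : Z ∈ N)
    (hz : PD hN z) (hw : PD hN w) : hN.Dfn (fun v => LRl A H pZ B Z (z v) (w v)) := by
  unfold CF.LRl
  refine Dfn.or ?_ (Dfn.or ?_ ?_)
  · refine Df.bex (P := fun v γ => z v = {γ, γ} ∧ ∃ C ∈ pZ, ZFSet.pair γ C ∈ H ∧ w v ∈ C) (PD.const hA) ?_
    refine Dfn.and (Df.eq hz.lift (PD.upair (PD.var _) (PD.var _))) ?_
    refine Df.bex (P := fun (v : Fin (n + 1) → N) C => ZFSet.pair (v (Fin.last n)).1 C ∈ H ∧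
      w (fun i => v i.castSucc) ∈ C) (PD.const hpZ) ?_
    exact Dfn.and (Df.mem (PD.pair (PD.var _) (PD.var _)) (PD.const hH)) (Df.mem hw.lift.lift (PD.var _))
  · refine Df.bex (P := fun v ξ => z v = {ξ, ξ} ∧ w v = insert ξ ξ) (PD.const hB) ?_
    exact Dfn.and (Df.eq hz.lift (PD.upair (PD.var _) (PD.var _))) (Df.eq hw.lift (PD.insert (PD.var _) (PD.var _)))
  · refine Df.bex (P := fun v q => z v = {q, q} ∧ ∃ p, ∃ f, q = ZFSet.pair p f ∧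
      ∃ ρ, ∃ y, ZFSet.pair (ZFSet.pair (w v) ρ) y ∈ p) (PD.const hZ) ?_
    refine Dfn.and (Df.eq hz.lift (PD.upair (PD.var _) (PD.var _))) ?_
    refine Df.exM (P := fun (v : Fin (n + 1) → N) p => ∃ f, (v (Fin.last n)).1 = ZFSet.pair p f ∧
      ∃ ρ, ∃ y, ZFSet.pair (ZFSet.pair (w (fun i => v i.castSucc)) ρ) y ∈ p) ?_ ?_
    · rintro v p ⟨f, h, _⟩
      have := (v (Fin.last n)).2
      rw [h] at this
      exact (hN.of_pair_mem this).1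
    refine Df.exM (P := fun (v : Fin (n + 2) → N) f => (v (Fin.last n).castSucc).1 =
      ZFSet.pair (v (Fin.last (n + 1))).1 f ∧
      ∃ ρ, ∃ y, ZFSet.pair (ZFSet.pair (w (fun i => v i.castSucc.castSucc)) ρ) y ∈ (v (Fin.last (n + 1))).1) ?_ ?_
    · rintro v f ⟨h, _⟩
      have := (v (Fin.last n).castSucc).2
      rw [h] at this
      exact (hN.of_pair_mem this).2
    refine Dfn.and (Df.eq (PD.var _) (PD.pair (PD.var _) (PD.var _))) ?_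
    refine Df.exM (P := fun (v : Fin (n + 3) → N) ρ =>
      ∃ y, ZFSet.pair (ZFSet.pair (w (fun i => v i.castSucc.castSucc.castSucc)) ρ) y ∈
        (v (Fin.last (n + 1)).castSucc).1) ?_ ?_
    · rintro v ρ ⟨y, h⟩
      exact (hN.of_pair_mem (hN.of_pair_mem (hN.mem_of_mem (v (Fin.last (n + 1)).castSucc).2 h)).1).2
    refine Df.exM (P := fun (v : Fin (n + 4) → N) y =>
      ZFSet.pair (ZFSet.pair (w (fun i => v i.castSucc.castSucc.castSucc.castSucc)) (v (Fin.last (n + 3))).1) y ∈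
        (v (Fin.last (n + 1)).castSucc.castSucc).1) ?_ ?_
    · rintro v y h
      exact (hN.of_pair_mem (hN.mem_of_mem (v (Fin.last (n + 1)).castSucc.castSucc).2 h)).2
    exact Df.mem (PD.pair (PD.pair hw.lift.lift.lift.lift.lift (PD.var _)) (PD.var _)) (PD.var _)

end Dfs

variable {M : Set ZFSet.{0}} (hM : CTM M) {Ω : Ordinal.{0}}

include hM

theorem Sn_mem (hΩ : Ω.toZFSet ∈ M) {s α : ZFSet.{0}} (hs : s ∈ M) (hα : α ∈ M) : Sn Ω s α ∈ M :=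
  (PD.Sn (hN := hM) (n := 0) hΩ (PD.const hs) (PD.const hα)).1 Fin.elim0

theorem Ln_mem (hΩ : Ω.toZFSet ∈ M) {s α c : ZFSet.{0}} (hs : s ∈ M) (hα : α ∈ M) (hc : c ∈ M) : Ln Ω s α c ∈ M :=
  (PD.Ln (hN := hM) (n := 0) hΩ (PD.const hs) (PD.const hα) (PD.const hc)).1 Fin.elim0

theorem OO_mem (hΩ : Ω.toZFSet ∈ M) {E s α t : ZFSet.{0}} (hE : E ∈ M) (hs : s ∈ M) (hα : α ∈ M) (ht : t ∈ M) :
    OO Ω E s α t ∈ M :=
  (PD.OO (hN := hM) (n := 0) hΩ (PD.const hE) (PD.const hs) (PD.const hα) (PD.const ht)).1 Fin.elim0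

theorem lim_QQ_mem (hΩ : Ω.toZFSet ∈ M) {E P O : ZFSet.{0}} (hE : E ∈ M) (hP : P ∈ M) (hO : O ∈ M) :
    QQ Ω E P O ∈ M :=
  (PD.QQ (hN := hM) (n := 0) hΩ (PD.const hE) (PD.const hP) (PD.const hO)).1 Fin.elim0

omit hM in
/-- Restrictions of conditions. -/
theorem lim_rst {s E t : ZFSet.{0}} (hω : Ordinal.omega0 ≤ Ω) {α γ β : Ordinal.{0}} (hαγ : α ≤ γ) (hγβ : γ ≤ β)
    (hts : t ⊆ ZFSet.prod (ZFSet.prod (Nd Ω E) (Nd Ω E)) (Sn Ω s α.toZFSet)) {p f : ZFSet.{0}}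
    (h : ZFSet.pair p f ∈ QQ Ω E (Sn Ω s β.toZFSet) (OO Ω E s β.toZFSet t)) :
    ZFSet.pair (rst p γ.toZFSet) f ∈ QQ Ω E (Sn Ω s γ.toZFSet) (OO Ω E s γ.toZFSet t) := by
  rw [lim_mem_QQ] at h ⊢
  obtain ⟨h1, h2, h3, h4⟩ := h
  have oα := ZFSet.isOrdinal_toZFSet α
  have oβ := ZFSet.isOrdinal_toZFSet β
  have oγ := ZFSet.isOrdinal_toZFSet γ
  have sαγ : α.toZFSet ⊆ γ.toZFSet := Ordinal.toZFSet_subset_toZFSet_iff.2 hαγ
  have sαβ : α.toZFSet ⊆ β.toZFSet := Ordinal.toZFSet_subset_toZFSet_iff.2 (hαγ.trans hγβ)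
  have h5 := rst_mem_Sn (α := γ.toZFSet) hω oγ oβ h1
  refine ⟨h5, h2, h3, fun x y n hx hy hxy => ?_⟩
  rw [oo_rst hω oα oγ sαγ hts h5, rst_rst sαγ]
  exact (oo_rst hω oα oβ sαβ hts h1).1 (h4 x y n hx hy hxy)

theorem lim_one (hΩ : Ω.toZFSet ∈ M) (hω : Ordinal.omega0 ≤ Ω) {s E c t : ZFSet.{0}} (hs : s ∈ M) (hE : E ∈ M)
    (hc : c ∈ M) (ht : t ∈ M) {α γ β : Ordinal.{0}} (hγM : γ.toZFSet ∈ M) (hαγ : α ≤ γ) (hγβ : γ ≤ β)
    (hts : t ⊆ ZFSet.prod (ZFSet.prod (Nd Ω E) (Nd Ω E)) (Sn Ω s α.toZFSet))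
    (h : CC M (QQ Ω E (Sn Ω s γ.toZFSet) (OO Ω E s γ.toZFSet t))
      (RQ Ω E (Sn Ω s γ.toZFSet) (Ln Ω s γ.toZFSet c) (OO Ω E s γ.toZFSet t))) {Z : ZFSet.{0}} (hZ : Z ∈ M)
    (hZQ : Z ⊆ QQ Ω E (Sn Ω s β.toZFSet) (OO Ω E s β.toZFSet t)) :
    ∃ C ∈ M, C ⊆ Z ∧ Ctb M C ∧ ∀ z ∈ Z, ∃ w ∈ C, Jz Ω s E c t γ.toZFSet z w := by
  have hQ := lim_QQ_mem hM hΩ hE (Sn_mem hM hΩ hs hγM) (OO_mem hM hΩ hE hs hγM ht)
  set Q := QQ Ω E (Sn Ω s γ.toZFSet) (OO Ω E s γ.toZFSet t) with hQd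
  have hZγ : ZFSet.sep (fun z' => ∃ z ∈ Z, Rz γ.toZFSet z z') Q ∈ M :=
    (PD.sep (hN := hM) (n := 0) (P := fun v z' => ∃ z ∈ Z, Rz γ.toZFSet z z') (PD.const hQ)
      (Df.bex (P := fun (v : Fin 1 → M) z => Rz γ.toZFSet z (v (Fin.last 0)).1) (PD.const hZ)
        (Df.Rz (PD.const hγM) (PD.var _) (PD.var _)))).1 Fin.elim0
  obtain ⟨C₀, hC₀, hC₀Z, hC₀c, hC₀'⟩ := h _ hZγ (fun z hz => (ZFSet.mem_sep.1 hz).1)
  obtain ⟨f, hf, hfn, hf'⟩ := Pool.Agent.H7.IG.exists_choice hM (F := fun z' z => Rz γ.toZFSet z.1 z'.1)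
    (Df.Rz (PD.const hγM) (PD.var _) (PD.var _)) hC₀ hZ (by
      intro x hx
      obtain ⟨_, z, hz, hzx⟩ := ZFSet.mem_sep.1 (hC₀Z hx)
      exact ⟨⟨z, hM.mem_of_mem hZ hz⟩, hz, hzx⟩)
  refine ⟨ZFSet.sep (fun z => ∃ z' ∈ C₀, ZFSet.pair z' z ∈ f) Z, ?_, fun z hz => (ZFSet.mem_sep.1 hz).1, ?_, ?_⟩
  · exact (PD.sep (hN := hM) (n := 0) (P := fun v z => ∃ z' ∈ C₀, ZFSet.pair z' z ∈ f) (PD.const hZ)
      (Df.bex (P := fun (v : Fin 1 → M) z' => ZFSet.pair z' (v (Fin.last 0)).1 ∈ f) (PD.const hC₀)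
        (Df.mem (PD.pair (PD.var _) (PD.var _)) (PD.const hf)))).1 Fin.elim0
  · refine Ctb.image hM hC₀c hC₀ (F := fun x y => ZFSet.pair x.1 y.1 ∈ f)
      (Df.mem (PD.pair (PD.var _) (PD.var _)) (PD.const hf)) ?_ ?_
    · intro x hx y y' h1 h2
      exact Subtype.ext ((hfn.ap_eq h1).symm.trans (hfn.ap_eq h2))
    · intro z hz
      obtain ⟨hzZ, z', hz', h1⟩ := ZFSet.mem_sep.1 hz
      exact ⟨⟨z', hM.mem_of_mem hC₀ hz'⟩, ⟨z, hM.mem_of_mem hZ hzZ⟩, hz', rfl, h1⟩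
  · intro z hz
    obtain ⟨p, g, rfl⟩ := lim_QQ_pair (hZQ hz)
    have h1 := lim_rst hω hαγ hγβ hts (hZQ hz)
    have h2 : ZFSet.pair (rst p γ.toZFSet) g ∈ ZFSet.sep (fun z' => ∃ z ∈ Z, Rz γ.toZFSet z z') Q :=
      ZFSet.mem_sep.2 ⟨h1, _, hz, p, g, rfl, rfl⟩
    obtain ⟨w', hw', r, hr1, hr2⟩ := hC₀' _ h2
    obtain ⟨w, hw, hww⟩ := hfn.tot w' hw'
    have h3 := hf' ⟨w', hM.mem_of_mem hC₀ hw'⟩ ⟨w, hM.mem_of_mem hZ hw⟩ hww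
    have h4 : r ∈ Q := by
      have := (ZFSet.mem_sep.1 hr1).1
      rw [ZFSet.pair_mem_prod] at this
      exact this.1
    exact ⟨w, ZFSet.mem_sep.2 ⟨hw, w', hw', hww⟩, _, h1, w', (ZFSet.mem_sep.1 (hC₀Z hw')).1, r, h4,
      ⟨p, g, rfl, rfl⟩, h3, hr1, hr2⟩

theorem cc_lim (hΩ : IsOm1 M Ω) {s E c t : ZFSet.{0}} (hs : s ∈ M) (hE : E ∈ M) (hc : c ∈ M) (ht : t ∈ M)
    {α γ₀ β : Ordinal.{0}} (hβM : β.toZFSet ∈ M) (hαγ : α ≤ γ₀) (hγβ : γ₀ < β) (hlim : ∀ γ < β, Order.succ γ < β)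
    (hts : t ⊆ ZFSet.prod (ZFSet.prod (Nd Ω E) (Nd Ω E)) (Sn Ω s α.toZFSet))
    (h : ∀ γ, γ₀ ≤ γ → γ < β → CC M (QQ Ω E (Sn Ω s γ.toZFSet) (OO Ω E s γ.toZFSet t))
      (RQ Ω E (Sn Ω s γ.toZFSet) (Ln Ω s γ.toZFSet c) (OO Ω E s γ.toZFSet t))) :
    CC M (QQ Ω E (Sn Ω s β.toZFSet) (OO Ω E s β.toZFSet t))
      (RQ Ω E (Sn Ω s β.toZFSet) (Ln Ω s β.toZFSet c) (OO Ω E s β.toZFSet t)) := by
  classical
  have hω : Ordinal.omega0 ≤ Ω := by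
    rw [Ordinal.omega0_le]
    exact fun n => (hΩ.omega_lt hM n).le
  have hγM : ∀ γ < β, γ.toZFSet ∈ M := fun γ hγ =>
    hM.mem_of_mem hβM (Ordinal.toZFSet_mem_toZFSet_iff.2 hγ)
  intro Z hZ hZQ
  obtain ⟨pZ, hpZ, hpZ'⟩ := hM.exists_pow hZ
  set A := ZFSet.sep (fun γ => γ₀.toZFSet ⊆ γ) β.toZFSet with hAd
  have hA : A ∈ M := (PD.sep (hN := hM) (n := 0) (P := fun v γ => γ₀.toZFSet ⊆ γ) (PD.const hβM)
    (Df.sub (PD.const (hγM γ₀ hγβ)) (PD.var _))).1 Fin.elim0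
  have hA' : ∀ γ, γ₀ ≤ γ → γ < β → γ.toZFSet ∈ A := fun γ h1 h2 => ZFSet.mem_sep.2
    ⟨Ordinal.toZFSet_mem_toZFSet_iff.2 h2, Ordinal.toZFSet_subset_toZFSet_iff.2 h1⟩
  have hFd : hM.Dfn (fun v : Fin 2 → M => Ctb M (v 1).1 ∧ ∀ z ∈ Z, ∃ w ∈ (v 1).1,
      Jz Ω s E c t (v 0).1 z w) := by
    refine Dfn.and (Df.Ctb (PD.var _)) ?_
    refine Df.ball (P := fun (v : Fin 2 → M) z => ∃ w ∈ (v 1).1, Jz Ω s E c t (v 0).1 z w) (PD.const hZ) ?_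
    refine Df.bex (P := fun (v : Fin 3 → M) w => Jz Ω s E c t (v (0 : Fin 2).castSucc).1 (v (Fin.last 2)).1 w)
      (PD.var ((1 : Fin 2).castSucc)) ?_
    exact Df.Jz hΩ.mem hs hE hc ht (PD.var _) (PD.var _) (PD.var _)
  obtain ⟨H, hH, hHn, hH'⟩ := Pool.Agent.H7.IG.exists_choice hM
    (F := fun γ C => Ctb M C.1 ∧ ∀ z ∈ Z, ∃ w ∈ C.1, Jz Ω s E c t γ.1 z w) hFd hA hpZ (by
      intro x hx
      obtain ⟨hxβ, hx2⟩ := ZFSet.mem_sep.1 hx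
      obtain ⟨γ, hγ, hxγ⟩ := Ordinal.mem_toZFSet_iff.1 hxβ
      have hγ0 : γ₀ ≤ γ := Ordinal.toZFSet_subset_toZFSet_iff.1 (by rw [hxγ]; exact hx2)
      obtain ⟨C, hC, hCZ, hCc, hC'⟩ := lim_one hM hΩ.mem hω hs hE hc ht (hγM γ hγ) (hαγ.trans hγ0) hγ.le hts
        (h γ hγ0 hγ) hZ hZQ
      rw [hxγ] at hC'
      exact ⟨⟨C, hC⟩, (hpZ' C).2 ⟨hC, hCZ⟩, hCc, hC'⟩)
  set X := β.toZFSet ∪ Z with hXd
  have hX : X ∈ M := hM.union_mem hβM hZ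
  have hFX : finS X ∈ M := (PD.finS (hN := hM) (n := 0) (PD.const hX)).1 Fin.elim0
  -- the relation
  set r := ZFSet.sep (fun q => ∃ e, ∃ x, q = ZFSet.pair e x ∧ LRl A H pZ β.toZFSet Z e x)
    (ZFSet.prod (finS X) X) with hrd
  have hr : r ∈ M := by
    refine (PD.sep (hN := hM) (n := 0) (P := fun v q => ∃ e, ∃ x, q = ZFSet.pair e x ∧ LRl A H pZ β.toZFSet Z e x)
      (PD.prod (PD.const hFX) (PD.const hX)) ?_).1 Fin.elim0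
    refine Df.exM (P := fun (v : Fin 1 → M) e => ∃ x, (v (Fin.last 0)).1 = ZFSet.pair e x ∧
      LRl A H pZ β.toZFSet Z e x) ?_ ?_
    · rintro v e ⟨x, h, _⟩
      have := (v (Fin.last 0)).2
      rw [h] at this
      exact (hM.of_pair_mem this).1
    refine Df.exM (P := fun (v : Fin 2 → M) x => (v (Fin.last 0).castSucc).1 = ZFSet.pair (v (Fin.last 1)).1 x ∧
      LRl A H pZ β.toZFSet Z (v (Fin.last 1)).1 x) ?_ ?_
    · rintro v x ⟨h, _⟩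
      have := (v (Fin.last 0).castSucc).2
      rw [h] at this
      exact (hM.of_pair_mem this).2
    exact Dfn.and (Df.eq (PD.var _) (PD.pair (PD.var _) (PD.var _)))
      (Df.LRl hA hH hpZ hβM hZ (PD.var _) (PD.var _))
  have hr' : ∀ e x, ZFSet.pair e x ∈ r ↔ e ∈ finS X ∧ x ∈ X ∧ LRl A H pZ β.toZFSet Z e x := by
    intro e x
    rw [hrd, ZFSet.mem_sep, ZFSet.pair_mem_prod]
    constructor
    · rintro ⟨⟨h1, h2⟩, e', x', h3, h4⟩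
      rw [ZFSet.pair_inj] at h3
      obtain ⟨rfl, rfl⟩ := h3
      exact ⟨h1, h2, h4⟩
    · rintro ⟨h1, h2, h3⟩
      exact ⟨⟨h1, h2⟩, e, x, rfl, h3⟩
  have hsing : ∀ a b : ZFSet.{0}, ({a, a} : ZFSet.{0}) = {b, b} → a = b := by
    intro a b h1
    have : a ∈ ({b, b} : ZFSet.{0}) := by rw [← h1]; simp
    simpa using this
  have hsingF : ∀ a Y : ZFSet.{0}, a ∈ Y → ({a, a} : ZFSet.{0}) ∈ finS Y := by
    intro a Y ha
    refine mem_finS.2 ⟨fun z hz => ?_, {a}, fun z => by simp⟩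
    have : z = a := by simpa using hz
    rw [this]; exact ha
  -- elements of `Z`
  have hZp : ∀ p f, ZFSet.pair p f ∈ Z → IsC Ω s p ∧ FinZ p ∧ ∀ μ r y z, ent (row μ r) y z ∈ p → μ ∈ β.toZFSet :=
    fun p f h1 => (mem_Sn hω).1 (lim_mem_QQ.1 (hZQ h1)).1
  have hent : ∀ p, IsC Ω s p → ∀ x ρ y, ZFSet.pair (ZFSet.pair x ρ) y ∈ p → ∃ r y' z, ZFSet.pair (ZFSet.pair x ρ) y =
      ent (row x r) y' z := by
    intro p hp x ρ y h1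
    obtain ⟨μ, y', z, ⟨k, _, h2, _⟩ | ⟨h2, _⟩⟩ := hp.ty _ h1
    · refine ⟨k, y', z, ?_⟩
      rw [h2]
      rw [ent, row, ZFSet.pair_inj, ZFSet.pair_inj] at h2
      rw [h2.1.1]
    · refine ⟨4, y', z, ?_⟩
      rw [h2]
      rw [ent, row, ZFSet.pair_inj, ZFSet.pair_inj] at h2
      rw [h2.1.1]
  have hctb : ∀ e ∈ finS X, Ctb M (ZFSet.sep (fun x => ZFSet.pair e x ∈ r) X) := by
    intro e he
    have hCe : Ctb M ∅ := (lim_ctb_singleton hM hM.empty_mem).mono fun x hx => (ZFSet.notMem_empty _ hx).elim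
    have h1 : ∃ U ∈ M, Ctb M U ∧ ∀ x, (∃ γ ∈ A, e = {γ, γ} ∧ ∃ C ∈ pZ, ZFSet.pair γ C ∈ H ∧ x ∈ C) → x ∈ U := by
      by_cases h0 : ∃ γ ∈ A, e = {γ, γ}
      · obtain ⟨γ, hγ, rfl⟩ := h0
        obtain ⟨h2, h3⟩ := hHn.ap_mem hγ
        have h4 := hH' ⟨γ, hM.mem_of_mem hA hγ⟩ ⟨ap H γ, hM.mem_of_mem hpZ h2⟩ h3
        refine ⟨ap H γ, hM.mem_of_mem hpZ h2, h4.1, ?_⟩
        rintro x ⟨γ', _, h5, C, hC, h6, h7⟩
        rw [← hsing _ _ h5] at h6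
        rw [hHn.ap_eq h6]; exact h7
      · exact ⟨∅, hM.empty_mem, hCe, fun x ⟨γ, h2, h3, _⟩ => (h0 ⟨γ, h2, h3⟩).elim⟩
    have h2 : ∃ U ∈ M, Ctb M U ∧ ∀ x, (∃ ξ ∈ β.toZFSet, e = {ξ, ξ} ∧ x = insert ξ ξ) → x ∈ U := by
      by_cases h0 : ∃ ξ ∈ β.toZFSet, e = {ξ, ξ}
      · obtain ⟨ξ, hξ, rfl⟩ := h0
        have hξM := hM.mem_of_mem hβM hξ
        refine ⟨{insert ξ ξ}, hM.singleton_mem (hM.insert_mem hξM hξM), lim_ctb_singleton hM (hM.insert_mem hξM hξM), ?_⟩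
        rintro x ⟨ξ', _, h5, h6⟩
        rw [h6, ← hsing _ _ h5]
        simp
      · exact ⟨∅, hM.empty_mem, hCe, fun x ⟨γ, h2, h3, _⟩ => (h0 ⟨γ, h2, h3⟩).elim⟩
    have h3 : ∃ U ∈ M, Ctb M U ∧ ∀ x, (∃ w ∈ Z, e = {w, w} ∧ ∃ p, ∃ f, w = ZFSet.pair p f ∧
        ∃ ρ, ∃ y, ZFSet.pair (ZFSet.pair x ρ) y ∈ p) → x ∈ U := by
      by_cases h0 : ∃ w ∈ Z, e = {w, w}
      · obtain ⟨w, hw, rfl⟩ := h0
        obtain ⟨p, f, rfl⟩ := lim_QQ_pair (hZQ hw)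
        obtain ⟨h4, ⟨sp, hsp⟩, h6⟩ := hZp p f hw
        let g : ZFSet.{0} → ZFSet.{0} := fun q => if h : ∃ x ρ y, q = ZFSet.pair (ZFSet.pair x ρ) y then h.choose else ∅
        have hg : ∀ x ρ y, g (ZFSet.pair (ZFSet.pair x ρ) y) = x := by
          intro x ρ y
          have hex : ∃ x' ρ' y', ZFSet.pair (ZFSet.pair x ρ) y = ZFSet.pair (ZFSet.pair x' ρ') y' := ⟨x, ρ, y, rfl⟩
          simp only [g, dif_pos hex]
          obtain ⟨ρ', y', h7⟩ := hex.choose_spec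
          rw [ZFSet.pair_inj, ZFSet.pair_inj] at h7
          exact h7.1.1.symm
        have hU : ∀ x, x ∈ ZFSet.sep (fun x => ∃ ρ y, ZFSet.pair (ZFSet.pair x ρ) y ∈ p) X ↔
            x ∈ (sp.image g).filter (fun x => x ∈ ZFSet.sep (fun x => ∃ ρ y, ZFSet.pair (ZFSet.pair x ρ) y ∈ p) X) := by
          intro x
          rw [Finset.mem_filter, Finset.mem_image]
          refine ⟨fun h7 => ⟨?_, h7⟩, fun h7 => h7.2⟩
          obtain ⟨_, ρ, y, h8⟩ := ZFSet.mem_sep.1 h7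
          exact ⟨_, (hsp _).1 h8, hg x ρ y⟩
        have hUM : ∀ x ∈ ZFSet.sep (fun x => ∃ ρ y, ZFSet.pair (ZFSet.pair x ρ) y ∈ p) X, x ∈ M :=
          fun x hx => hM.mem_of_mem hX (ZFSet.mem_sep.1 hx).1
        refine ⟨_, FinZ.mem hM (X := X) ⟨_, hU⟩ hUM, lim_ctb_fin hM _ _ hU hUM, ?_⟩
        rintro x ⟨w', hw', h7, p', f', h8, ρ, y, h9⟩
        rw [← hsing _ _ h7, ZFSet.pair_inj] at h8
        obtain ⟨rfl, rfl⟩ := h8
        obtain ⟨k, y', z', h10⟩ := hent _ h4 x ρ y h9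
        have h11 := h6 x k y' z' (h10 ▸ h9)
        exact ZFSet.mem_sep.2 ⟨ZFSet.mem_union.2 (Or.inl h11), ρ, y, h9⟩
      · exact ⟨∅, hM.empty_mem, hCe, fun x ⟨γ, h2, h3, _⟩ => (h0 ⟨γ, h2, h3⟩).elim⟩
    obtain ⟨U1, hU1, hU1c, hU1'⟩ := h1
    obtain ⟨U2, hU2, hU2c, hU2'⟩ := h2
    obtain ⟨U3, hU3, hU3c, hU3'⟩ := h3
    refine (lim_ctb_union hM hU1 (hM.union_mem hU2 hU3) hU1c (lim_ctb_union hM hU2 hU3 hU2c hU3c)).mono ?_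
    intro x hx
    obtain ⟨_, hx2⟩ := ZFSet.mem_sep.1 hx
    obtain ⟨_, _, h4 | h4 | h4⟩ := (hr' _ _).1 hx2
    · exact ZFSet.mem_union.2 (Or.inl (hU1' x h4))
    · exact ZFSet.mem_union.2 (Or.inr (ZFSet.mem_union.2 (Or.inl (hU2' x h4))))
    · exact ZFSet.mem_union.2 (Or.inr (ZFSet.mem_union.2 (Or.inr (hU3' x h4))))
  have hγ₀X : γ₀.toZFSet ∈ X := ZFSet.mem_union.2 (Or.inl (Ordinal.toZFSet_mem_toZFSet_iff.2 hγβ))
  obtain ⟨X', hX'M, hX'0, hX'X, hX'c, hX'⟩ := CF.exists_closed hM hX hr (A := {γ₀.toZFSet})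
    (hM.singleton_mem (hγM γ₀ hγβ)) (by
      intro x hx
      rw [ZFSet.mem_singleton.1 hx]; exact hγ₀X) (lim_ctb_singleton hM (hγM γ₀ hγβ)) hctb
  have hγ₀X' : γ₀.toZFSet ∈ X' := hX'0 (ZFSet.mem_singleton.2 rfl)
  -- closure properties
  have hcl1 : ∀ γ, γ₀ ≤ γ → γ < β → γ.toZFSet ∈ X' → ∀ x ∈ ap H γ.toZFSet, x ∈ X' := by
    intro γ h1 h2 h3 x hx
    have h4 := hA' γ h1 h2
    obtain ⟨h5, h6⟩ := hHn.ap_mem h4
    have hxX : x ∈ X := ZFSet.mem_union.2 (Or.inr (((hpZ' _).1 h5).2 hx))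
    exact hX' {γ.toZFSet, γ.toZFSet} (hsingF _ _ h3) x hxX ((hr' _ _).2 ⟨hsingF _ _ (hX'X h3), hxX,
      Or.inl ⟨_, h4, rfl, _, h5, h6, hx⟩⟩)
  have hcl2 : ∀ ξ, ξ < β → ξ.toZFSet ∈ X' → (Order.succ ξ).toZFSet ∈ X' := by
    intro ξ h1 h2
    have hxX : (Order.succ ξ).toZFSet ∈ X :=
      ZFSet.mem_union.2 (Or.inl (Ordinal.toZFSet_mem_toZFSet_iff.2 (hlim ξ h1)))
    exact hX' {ξ.toZFSet, ξ.toZFSet} (hsingF _ _ h2) _ hxX ((hr' _ _).2 ⟨hsingF _ _ (hX'X h2), hxX,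
      Or.inr (Or.inl ⟨_, Ordinal.toZFSet_mem_toZFSet_iff.2 h1, rfl, Ordinal.toZFSet_succ ξ⟩)⟩)
  have hcl3 : ∀ p f, ZFSet.pair p f ∈ Z → ZFSet.pair p f ∈ X' → ∀ μ k y z, ent (row μ k) y z ∈ p → μ ∈ X' := by
    intro p f h1 h2 μ k y z h3
    have hxX : μ ∈ X := ZFSet.mem_union.2 (Or.inl ((hZp p f h1).2.2 μ k y z h3))
    exact hX' {ZFSet.pair p f, ZFSet.pair p f} (hsingF _ _ h2) _ hxX ((hr' _ _).2 ⟨hsingF _ _ (hX'X h2), hxX,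
      Or.inr (Or.inr ⟨_, h1, rfl, p, f, rfl, _, _, h3⟩)⟩)
  refine ⟨ZFSet.sep (fun z => z ∈ X') Z, (PD.sep (hN := hM) (n := 0) (P := fun v z => z ∈ X') (PD.const hZ)
    (Df.mem (PD.var _) (PD.const hX'M))).1 Fin.elim0, fun z hz => (ZFSet.mem_sep.1 hz).1,
    hX'c.mono (fun z hz => (ZFSet.mem_sep.1 hz).2), ?_⟩
  intro z hz
  obtain ⟨p, f, rfl⟩ := lim_QQ_pair (hZQ hz)
  obtain ⟨hpC, ⟨sp, hsp⟩, hpβ⟩ := hZp p f hz
  -- the ordinal `γ`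
  have hγ : ∀ s' : Finset ZFSet.{0}, (∀ e ∈ s', e ∈ p) → ∃ γ, γ₀ ≤ γ ∧ γ < β ∧ γ.toZFSet ∈ X' ∧
      ∀ μ k y z, ent (row μ k) y z ∈ s' → μ ∈ X' → μ ∈ γ.toZFSet := by
    intro s'
    induction s' using Finset.induction_on with
    | empty => exact fun _ => ⟨γ₀, le_rfl, hγβ, hγ₀X', fun μ k y z h1 => by simp at h1⟩
    | insert e s' he ih =>
      intro h1
      obtain ⟨γ, h2, h3, h4, h5⟩ := ih (fun e' h' => h1 e' (Finset.mem_insert_of_mem h'))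
      by_cases h6 : ∃ μ k y z, e = ent (row μ k) y z ∧ μ ∈ X'
      · obtain ⟨μ, k, y, z, rfl, h7⟩ := h6
        have h8 := hpβ μ k y z (h1 _ (Finset.mem_insert_self _ _))
        obtain ⟨ξ, hξ, rfl⟩ := Ordinal.mem_toZFSet_iff.1 h8
        have h9 := hcl2 ξ hξ h7
        refine ⟨max γ (Order.succ ξ), h2.trans (le_max_left _ _), max_lt h3 (hlim ξ hξ), ?_, ?_⟩
        · rcases max_choice γ (Order.succ ξ) with h10 | h10 <;> rw [h10] <;> assumption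
        · intro μ' k' y' z' h10 h11
          rcases Finset.mem_insert.1 h10 with h12 | h12
          · rw [ent, ent, row, row, ZFSet.pair_inj, ZFSet.pair_inj] at h12
            rw [h12.1.1]
            exact Ordinal.toZFSet_mem_toZFSet_iff.2 (lt_of_lt_of_le (Order.lt_succ ξ) (le_max_right _ _))
          · exact Ordinal.toZFSet_subset_toZFSet_iff.2 (le_max_left _ _) (h5 μ' k' y' z' h12 h11)
      · refine ⟨γ, h2, h3, h4, ?_⟩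
        intro μ' k' y' z' h10 h11
        rcases Finset.mem_insert.1 h10 with h12 | h12
        · exact (h6 ⟨μ', k', y', z', h12.symm, h11⟩).elim
        · exact h5 μ' k' y' z' h12 h11
  obtain ⟨γ, h1, h2, h3, h4⟩ := hγ sp (fun e he => (hsp e).2 he)
  have h4' : ∀ μ k y z, ent (row μ k) y z ∈ p → μ ∈ X' → μ ∈ γ.toZFSet :=
    fun μ k y z h5 => h4 μ k y z ((hsp _).1 h5)
  obtain ⟨h5, h6⟩ := hHn.ap_mem (hA' γ h1 h2)
  obtain ⟨_, h7⟩ := hH' ⟨γ.toZFSet, hγM γ h2⟩ ⟨ap H γ.toZFSet, hM.mem_of_mem hpZ h5⟩ h6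
  obtain ⟨w, hw, z', hz'Q, w', hw'Q, q, hqQ, hRz, hRw, hq1, hq2⟩ := h7 _ hz
  have hwZ : w ∈ Z := ((hpZ' _).1 h5).2 hw
  have hwX : w ∈ X' := hcl1 γ h1 h2 h3 w hw
  refine ⟨w, ZFSet.mem_sep.2 ⟨hwZ, hwX⟩, ?_⟩
  obtain ⟨p1, f1, h8, rfl⟩ := hRz
  rw [ZFSet.pair_inj] at h8
  obtain ⟨rfl, rfl⟩ := h8
  obtain ⟨p', f', rfl, rfl⟩ := hRw
  obtain ⟨u, g, rfl⟩ := lim_QQ_pair hqQ
  rw [lim_mem_RQ] at hq1 hq2
  obtain ⟨_, _, hq1, hfg⟩ := hq1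
  obtain ⟨_, _, hq2, hf'g⟩ := hq2
  rw [mem_Ln] at hq1 hq2
  obtain ⟨huQ, hgF, hgS, hgO⟩ := lim_mem_QQ.1 hqQ
  have oγ := ZFSet.isOrdinal_toZFSet γ
  have oβ := ZFSet.isOrdinal_toZFSet β
  have sγβ : γ.toZFSet ⊆ β.toZFSet := Ordinal.toZFSet_subset_toZFSet_iff.2 h2.le
  have hpS := (lim_mem_QQ.1 (hZQ hz)).1
  have hp'S := (lim_mem_QQ.1 (hZQ hwZ)).1
  obtain ⟨hvS, hv1, hv2⟩ := amal2 (c := c) hω oγ oβ sγβ hpS hp'S huQ hq1.2.2 hq2.2.2 (by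
    intro μ k y z k' y' z' hμ hk hk'
    exact hμ (h4' μ k y z hk (hcl3 p' f' hwZ hwX μ k' y' z' hk')))
  have huv : u ⊆ u ∪ (p \ rst p γ.toZFSet) ∪ (p' \ rst p' γ.toZFSet) := fun x hx =>
    ZFSet.mem_union.2 (Or.inl (ZFSet.mem_union.2 (Or.inl hx)))
  have hvQ : ZFSet.pair (u ∪ (p \ rst p γ.toZFSet) ∪ (p' \ rst p' γ.toZFSet)) g ∈
      QQ Ω E (Sn Ω s β.toZFSet) (OO Ω E s β.toZFSet t) := by
    rw [lim_mem_QQ]
    refine ⟨hvS, hgF, hgS, fun x y n hx hy hxy => ?_⟩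
    obtain ⟨h9, h10, _, h11, q', h12, h13⟩ := mem_OO.1 (hgO x y n hx hy hxy)
    exact mem_OO.2 ⟨h9, h10, hvS, h11, q', h12, LE.trans (LE.of_sub huv) h13⟩
  refine ⟨_, lim_mem_RQ.2 ⟨hvQ, hZQ hz, ?_, hfg⟩, lim_mem_RQ.2 ⟨hvQ, hZQ hwZ, ?_, hf'g⟩⟩
  · exact mem_Ln.2 ⟨hvS, hpS, hv1⟩
  · exact mem_Ln.2 ⟨hvS, hp'S, hv2⟩

end Pool.Agent.H17.CF
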