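import Pool.Agent.H17.CF.B.Cond

/-!
# CF-B4: the open names `OO Ω E s β t`

`t` is a set of pairs `((x, y), q)`, `q ∈ Sn Ω s α`. `((x, y), p) ∈ OO Ω E s β t` iff `x, y ∈ Nd Ω E`, `Bel x y`, `p ∈ Sn Ω s β` and
`p ≤_∅ q` for some `((x, y), q) ∈ t`.

PROOFS. `oo_opn`: `LE.trans` and `LE.to0`. `oo_rst`: if `p ∈ Sn Ω s β`, `q ∈ Sn Ω s α`, `α ≤ β`: `p ≤_∅ q ↔ rst p α ≤_∅ q`: `→` by
`LE.rst` and `rst_eq`; `←`: `rst p α ⊆ p`.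
`oo_mono`: from `Sn_mono`. `oo_tgn`: let `((x,y), p) ∈ OO β t`. Then `((x,y), p₀) ∈ OO α t`, `p₀ = rst p α`. By `TGN` for `α` there is
`r₀ ≤_∅ p₀` in `Sn Ω s α` with `((x,z), r₀) ∈ OO α t` or `((y,z), r₀) ∈ OO α t`. By `LE.transl` there is a translate
`r₁ = trp K r₀ ⊇ p₀` with `r₁ ≤_∅ r₀` (`trp_mem_Sn`), so `r₁ ≤_c p₀` and `((·,z), r₁) ∈ OO α t` too. By `amal` there is
`u ∈ Sn Ω s β`, `u ≤_c p`, `rst u α = r₁`; by `oo_rst` `((·,z), u) ∈ OO β t`.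
-/

set_option autoImplicit false
set_option linter.unusedVariables false
set_option linter.unusedSectionVars false
set_option linter.unusedSimpArgs false
set_option linter.unusedTactic false
set_option linter.unreachableTactic false

open Pool.Agent.H17.Omega Pool.Agent.H17.Omega.CTM Pool.Agent.H52.GC Pool.Agent.H7.IG

namespace Pool.Agent.H17.CF

variable {Ω : Ordinal.{0}} {s E : ZFSet.{0}}

theorem mem_OO {β t x y p : ZFSet.{0}} : ZFSet.pair (ZFSet.pair x y) p ∈ OO Ω E s β t ↔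
    x ∈ Nd Ω E ∧ y ∈ Nd Ω E ∧ p ∈ Sn Ω s β ∧ Bel x y ∧ ∃ q, ZFSet.pair (ZFSet.pair x y) q ∈ t ∧ LE Ω ∅ p q := by
  rw [OO, ZFSet.mem_sep, ZFSet.pair_mem_prod, ZFSet.pair_mem_prod]
  constructor
  · rintro ⟨⟨⟨h1, h2⟩, h3⟩, x', y', p', q, h4, h5, h6, h7⟩
    obtain ⟨h8, rfl⟩ := ZFSet.pair_inj.1 h4
    obtain ⟨rfl, rfl⟩ := ZFSet.pair_inj.1 h8
    exact ⟨h1, h2, h3, h5, q, h6, h7⟩
  · rintro ⟨h1, h2, h3, h5, q, h6, h7⟩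
    exact ⟨⟨⟨h1, h2⟩, h3⟩, x, y, p, q, rfl, h5, h6, h7⟩

theorem oo_sub {β t z : ZFSet.{0}} (hz : z ∈ OO Ω E s β t) : ∃ x y p, z = ZFSet.pair (ZFSet.pair x y) p := by
  rw [OO, ZFSet.mem_sep] at hz
  obtain ⟨_, x, y, p, q, h, _⟩ := hz
  exact ⟨x, y, p, h⟩

theorem oo_opn {β t c : ZFSet.{0}} : OpN Ω E (Sn Ω s β) (Ln Ω s β c) (OO Ω E s β t) := by
  refine ⟨fun z hz => ?_, fun x y p q hq hpq => ?_⟩
  · obtain ⟨x, y, p, rfl⟩ := oo_sub hz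
    obtain ⟨h1, h2, h3, h4, _⟩ := mem_OO.1 hz
    exact ⟨x, h1, y, h2, p, h3, h4, rfl⟩
  · obtain ⟨h1, h2, h3, h4, r, h5, h6⟩ := mem_OO.1 hq
    obtain ⟨h7, h8, h9⟩ := mem_Ln.1 hpq
    exact mem_OO.2 ⟨h1, h2, h7, h4, r, h5, h9.to0.trans h6⟩

theorem oo_rst {α β t x y p : ZFSet.{0}} (hω : Ordinal.omega0 ≤ Ω) (hα : α.IsOrdinal) (hβ : β.IsOrdinal) (hαβ : α ⊆ β)
    (ht : t ⊆ ZFSet.prod (ZFSet.prod (Nd Ω E) (Nd Ω E)) (Sn Ω s α)) (hp : p ∈ Sn Ω s β) :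
    ZFSet.pair (ZFSet.pair x y) p ∈ OO Ω E s β t ↔ ZFSet.pair (ZFSet.pair x y) (rst p α) ∈ OO Ω E s α t := by
  rw [mem_OO, mem_OO]
  constructor
  · rintro ⟨h1, h2, h3, h4, r, h5, h6⟩
    have hr : r ∈ Sn Ω s α := (ZFSet.pair_mem_prod.1 (ht h5)).2
    refine ⟨h1, h2, rst_mem_Sn hω hα hβ hp, h4, r, h5, ?_⟩
    have h7 := h6.rst (α := α)
    rw [rst_eq hω hr] at h7
    exact h7
  · rintro ⟨h1, h2, h3, h4, r, h5, h6⟩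
    exact ⟨h1, h2, hp, h4, r, h5, (LE.of_sub rst_sub).trans h6⟩

/-- The spec condition in terms of `OO`. -/
theorem opn_iff {μ τ x y p : ZFSet.{0}} (hτ : st s μ τ) (hu : ∀ τ', st s μ τ' → τ' = τ) (hp : p ∈ Sn Ω s μ)
    (hx : x ∈ Nd Ω omZ) (hy : y ∈ Nd Ω omZ) (hxy : Bel x y) :
    Opn Ω s μ x y p ↔ ZFSet.pair (ZFSet.pair x y) p ∈ OO Ω omZ s μ τ := by
  rw [mem_OO]
  constructor
  · rintro ⟨τ', q, h1, h2, h3⟩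
    rw [hu τ' h1] at h2
    exact ⟨hx, hy, hp, hxy, q, h2, h3⟩
  · rintro ⟨_, _, _, _, q, h2, h3⟩
    exact ⟨τ, q, hτ, h2, h3⟩

theorem oo_tgn {α β t c : ZFSet.{0}} (hω : Ordinal.omega0 ≤ Ω) (hα : α.IsOrdinal) (hβ : β.IsOrdinal) (hαβ : α ⊆ β)
    (ht : t ⊆ ZFSet.prod (ZFSet.prod (Nd Ω E) (Nd Ω E)) (Sn Ω s α)) (h : TGN Ω E (Ln Ω s α ∅) (OO Ω E s α t)) :
    TGN Ω E (Ln Ω s β c) (OO Ω E s β t) := by
  intro x hx y hy z hz hxy hyz p hp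
  have hpS : p ∈ Sn Ω s β := (mem_OO.1 hp).2.2.1
  have hp0 := (oo_rst hω hα hβ hαβ ht hpS).1 hp
  have hp0S : rst p α ∈ Sn Ω s α := rst_mem_Sn hω hα hβ hpS
  obtain ⟨r0, hr0, h1⟩ := h x hx y hy z hz hxy hyz _ hp0
  obtain ⟨hr0S, _, h2⟩ := mem_Ln.1 hr0
  obtain ⟨K, hK, h3, h4, h5⟩ := LE.transl ((mem_Sn hω).1 hp0S).1.isE ((mem_Sn hω).1 hr0S).1.isE h2
  have hr1S : trp K r0 ∈ Sn Ω s α := trp_mem_Sn hω hα hK hr0S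
  obtain ⟨h6, h7, h8⟩ := amal (c := c) hω hα hβ hαβ hpS hr1S (LE.of_sub h3)
  refine ⟨_, mem_Ln.2 ⟨h6, hpS, h7⟩, ?_⟩
  have hop := oo_opn (Ω := Ω) (E := E) (s := s) (β := α) (t := t) (c := ∅)
  rcases h1 with h1 | h1
  · left
    rw [oo_rst hω hα hβ hαβ ht h6, h8]
    exact hop.op _ _ _ _ h1 (mem_Ln.2 ⟨hr1S, hr0S, h4⟩)
  · right
    rw [oo_rst hω hα hβ hαβ ht h6, h8]
    exact hop.op _ _ _ _ h1 (mem_Ln.2 ⟨hr1S, hr0S, h4⟩)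

end Pool.Agent.H17.CF
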