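import Pool.Agent.H17.CF.B.Succ

/-!
# CF-B9: the ccc theorem

`s` is a valid sequence of instructions of length `Λ` (`Vld M Ω B s Λ`).

`phi`: let `t` be a name over `Sn Ω s α` of a tree graph (with index set `E`), `c₀` a clique with rows of stage `< α` such that
the iteration of `(Sn Ω s α, ≤_{c₀})` with `OO Ω E s α t` is ccc in `M`. Then for all `β`, `α ≤ β ≤ Λ`, and all cliques `c` with rows of
stage `< β` and `cres c α = c₀` the iteration of `(Sn Ω s β, ≤_c)` with `OO Ω E s β t` is ccc in `M`.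

PROOF by induction on `β` (strong induction on ordinals; three cases `β = α`, `β = γ + 1 > α`, `β > α` limit).
`β = α`: `cres c α = c` for a clique with rows of stage `< α` (`dd_res_self`).
`β = γ + 1`, `α ≤ γ`: let `c₁ = cres c γ` (a clique at `γ`: `dd_res`), `c' = c \ c₁` (rows of stage `γ`), `c = c₁ ∪ c'`. By the
induction hypothesis the iteration over `(Sn Ω s γ, ≤_{c₁})` with `OO γ t` is ccc (`cres c₁ α = cres c α`). If there is no `τ`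
with `st s γ τ` use `cc_succB`. Otherwise `τ` is unique (`Vld.uni`), and by `Vld.hτ` the iteration over `(Sn Ω s γ, ≤_{c₁})`
with `OO Ω ω s γ τ` is ccc. By `cc_prod` (with `oo_opn`, `oo_tgn`, `Ln_pre`, `OO_mem`) the iteration with the disjoint
union is ccc, and `cc_succA` applies.
Limit: `c` is a finite set, so there is `γ₀`, `α ≤ γ₀ < β`, such that `c` is a clique at every `γ ∈ [γ₀, β)` (`dd_lim`), and
`cc_lim` applies with `c`.

`cc_all`: all `(Sn Ω s β, ≤_c)`, `β ≤ Λ`, `c` a clique at `β`, are ccc: `phi` for `α = 0`, `E = ω`, `t` = the trivial name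
(all `((x, y), ∅)`, `Bel x y`; `Sn Ω s ∅ = {∅}`), `c₀ = ∅`; for `α = 0`: `OO 0 t = OF Ω ω {∅}` and `cc_full` for the one element
preorder (trivially ccc); then `cc_of_qq`.

`cc_succ_any`: for `β < Λ`, a clique `c` at `β` and ANY set `c'` of rows of stage `β` the preorder
`(Sn Ω s (β+1), ≤_{c ∪ c'})` is ccc: as in the successor step with the trivial name, then `cc_of_qq`.
-/

set_option autoImplicit false
set_option linter.unusedVariables false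
set_option linter.unusedSectionVars false
set_option linter.unusedSimpArgs false
set_option linter.unusedTactic false
set_option linter.unreachableTactic false

open Pool.Agent.H17.Omega Pool.Agent.H17.Omega.CTM Pool.Agent.H52.GC Pool.Agent.H7.IG

namespace Pool.Agent.H17.CF

theorem mem_TRr {α ρ : ZFSet.{0}} : ρ ∈ TR α ↔ ∃ μ ∈ α, ∃ r < 4, ρ = row μ r := by
  rw [TR, ZFSet.mem_prod]
  constructor
  · rintro ⟨μ, hμ, x, hx, rfl⟩
    obtain ⟨r, hr, rfl⟩ := mem_natZ.1 hx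
    exact ⟨μ, hμ, r, hr, rfl⟩
  · rintro ⟨μ, hμ, r, hr, rfl⟩
    exact ⟨μ, hμ, natZ r, mem_natZ.2 ⟨r, hr, rfl⟩, rfl⟩

theorem mem_cresr {c α ρ : ZFSet.{0}} : ρ ∈ cres c α ↔ ρ ∈ c ∧ ∃ μ ∈ α, ∃ r, ρ = ZFSet.pair μ r := by
  rw [cres, ZFSet.mem_sep]

theorem dd_rows {s α c : ZFSet.{0}} (h : DD s α c) : ∀ ρ ∈ c, ρ ∈ TR α := by
  intro ρ hρ
  rcases h with rfl | ⟨ρ₁, h1, rfl⟩ | ⟨ρ₁, h1, ρ₂, h2, _, rfl⟩
  · exact absurd hρ (ZFSet.notMem_empty _)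
  · rw [ZFSet.mem_singleton] at hρ
    rw [hρ]; exact h1
  · rw [ZFSet.mem_pair] at hρ
    rcases hρ with rfl | rfl
    · exact h1
    · exact h2

theorem dd_sub {s α β c c' : ZFSet.{0}} (h : DD s β c) (hc : c' ⊆ c) (hr : ∀ ρ ∈ c', ρ ∈ TR α) :
    DD s α c' := by
  have hemp : (∀ ρ, ρ ∉ c') → DD s α c' := fun h => Or.inl ((ZFSet.eq_empty _).2 h)
  rcases h with rfl | ⟨ρ₁, h1, rfl⟩ | ⟨ρ₁, h1, ρ₂, h2, he, rfl⟩
  · exact hemp fun ρ hρ => ZFSet.notMem_empty _ (hc hρ)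
  · by_cases h : ρ₁ ∈ c'
    · refine Or.inr (Or.inl ⟨ρ₁, hr _ h, ?_⟩)
      ext z
      rw [ZFSet.mem_singleton]
      constructor
      · intro hz
        have := hc hz
        rwa [ZFSet.mem_singleton] at this
      · rintro rfl; exact h
    · refine hemp fun ρ hρ => h ?_
      have := hc hρ
      rw [ZFSet.mem_singleton] at this
      rwa [← this]
  · by_cases h : ρ₁ ∈ c'
    · by_cases h' : ρ₂ ∈ c'
      · refine Or.inr (Or.inr ⟨ρ₁, hr _ h, ρ₂, hr _ h', he, ?_⟩)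
        ext z
        rw [ZFSet.mem_pair]
        constructor
        · intro hz
          have := hc hz
          rwa [ZFSet.mem_pair] at this
        · rintro (rfl | rfl)
          · exact h
          · exact h'
      · refine Or.inr (Or.inl ⟨ρ₁, hr _ h, ?_⟩)
        ext z
        rw [ZFSet.mem_singleton]
        constructor
        · intro hz
          have := hc hz
          rw [ZFSet.mem_pair] at this
          rcases this with h3 | h3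
          · exact h3
          · exact absurd (h3 ▸ hz) h'
        · rintro rfl; exact h
    · by_cases h' : ρ₂ ∈ c'
      · refine Or.inr (Or.inl ⟨ρ₂, hr _ h', ?_⟩)
        ext z
        rw [ZFSet.mem_singleton]
        constructor
        · intro hz
          have := hc hz
          rw [ZFSet.mem_pair] at this
          rcases this with h3 | h3
          · exact absurd (h3 ▸ hz) h
          · exact h3
        · rintro rfl; exact h'
      · refine hemp fun ρ hρ => ?_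
        have := hc hρ
        rw [ZFSet.mem_pair] at this
        rcases this with h3 | h3
        · exact h (h3 ▸ hρ)
        · exact h' (h3 ▸ hρ)

theorem dd_res {s α β c : ZFSet.{0}} (hα : α.IsOrdinal) (hβ : β.IsOrdinal) (hαβ : α ⊆ β) (h : DD s β c) :
    DD s α (cres c α) := by
  refine dd_sub h (fun ρ hρ => (mem_cresr.1 hρ).1) ?_
  intro ρ hρ
  obtain ⟨h1, μ, hμ, r, rfl⟩ := mem_cresr.1 hρ
  obtain ⟨μ', hμ', r', hr', h2⟩ := mem_TRr.1 (dd_rows h _ h1)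
  have h3 := (ZFSet.pair_inj.1 h2)
  rw [mem_TRr]
  exact ⟨μ, hμ, r', hr', by rw [row, h3.2]⟩

theorem dd_res_self {s α c : ZFSet.{0}} (h : DD s α c) : cres c α = c := by
  ext ρ
  rw [mem_cresr]
  constructor
  · exact fun h => h.1
  · intro hρ
    obtain ⟨μ', hμ', r', hr', h2⟩ := mem_TRr.1 (dd_rows h _ hρ)
    exact ⟨hρ, μ', hμ', natZ r', h2⟩

theorem cres_cres {α β c : ZFSet.{0}} (hαβ : α ⊆ β) : cres (cres c β) α = cres c α := by
  ext ρ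
  rw [mem_cresr, mem_cresr, mem_cresr]
  constructor
  · rintro ⟨⟨h1, _⟩, h2⟩
    exact ⟨h1, h2⟩
  · rintro ⟨h1, μ, hμ, r, h2⟩
    exact ⟨⟨h1, μ, hαβ hμ, r, h2⟩, μ, hμ, r, h2⟩

theorem TR_mono {α β : ZFSet.{0}} (h : α ⊆ β) : TR α ⊆ TR β := by
  intro ρ hρ
  obtain ⟨μ, hμ, r, hr, h2⟩ := mem_TRr.1 hρ
  exact mem_TRr.2 ⟨μ, h hμ, r, hr, h2⟩

theorem dd_mono {s α β c : ZFSet.{0}} (hαβ : α ⊆ β) (h : DD s α c) : DD s β c :=
  dd_sub h (fun ρ hρ => hρ) (fun ρ hρ => TR_mono hαβ (dd_rows h ρ hρ))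

theorem dd_lim {s c : ZFSet.{0}} {β : Ordinal.{0}} (hβ : 0 < β) (hlim : ∀ γ < β, Order.succ γ < β)
    (h : DD s β.toZFSet c) : ∃ γ < β, DD s γ.toZFSet c := by
  have key : ∀ ρ ∈ TR β.toZFSet, ∃ γ < β, ρ ∈ TR γ.toZFSet := by
    intro ρ hρ
    obtain ⟨μ, hμ, r, hr, rfl⟩ := mem_TRr.1 hρ
    obtain ⟨a, ha, rfl⟩ := Ordinal.mem_toZFSet_iff.1 hμ
    exact ⟨Order.succ a, hlim a ha, mem_TRr.2
      ⟨a.toZFSet, Ordinal.toZFSet_mem_toZFSet_iff.2 (Order.lt_succ a), r, hr, rfl⟩⟩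
  have h0 := h
  rcases h with rfl | ⟨ρ₁, h1, hc⟩ | ⟨ρ₁, h1, ρ₂, h2, he, hc⟩
  · exact ⟨0, hβ, Or.inl rfl⟩
  · obtain ⟨γ, hγ, hγ'⟩ := key _ h1
    refine ⟨γ, hγ, dd_sub h0 (fun _ h => h) ?_⟩
    intro ρ hρ
    rw [hc, ZFSet.mem_singleton] at hρ
    rw [hρ]; exact hγ'
  · obtain ⟨γ, hγ, hγ'⟩ := key _ h1
    obtain ⟨δ, hδ, hδ'⟩ := key _ h2
    refine ⟨max γ δ, max_lt hγ hδ, dd_sub h0 (fun _ h => h) ?_⟩
    intro ρ hρ
    rw [hc, ZFSet.mem_pair] at hρ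
    rcases hρ with rfl | rfl
    · exact TR_mono (Ordinal.toZFSet_subset_toZFSet_iff.2 (le_max_left _ _)) hγ'
    · exact TR_mono (Ordinal.toZFSet_subset_toZFSet_iff.2 (le_max_right _ _)) hδ'

variable {M : Set ZFSet.{0}} (hM : CTM M) {Ω : Ordinal.{0}}

include hM

theorem dd_mem {s α c : ZFSet.{0}} (hα : α ∈ M) (h : DD s α c) : c ∈ M := by
  have key : ∀ ρ ∈ TR α, ρ ∈ M := by
    intro ρ hρ
    obtain ⟨μ, hμ, r, hr, rfl⟩ := mem_TRr.1 hρ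
    exact hM.pair_mem (hM.mem_of_mem hα hμ) (hM.natZ_mem_N r)
  rcases h with rfl | ⟨ρ₁, h1, rfl⟩ | ⟨ρ₁, h1, ρ₂, h2, he, rfl⟩
  · exact hM.empty_mem
  · have : ({ρ₁} : ZFSet.{0}) = insert ρ₁ ∅ := by
      ext z; simp
    rw [this]
    exact hM.insert_mem (key _ h1) hM.empty_mem
  · have : ({ρ₁, ρ₂} : ZFSet.{0}) = insert ρ₁ (insert ρ₂ ∅) := by
      ext z; simp
    rw [this]
    exact hM.insert_mem (key _ h1) (hM.insert_mem (key _ h2) hM.empty_mem)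

theorem om_le (hΩ : IsOm1 M Ω) : Ordinal.omega0 ≤ Ω := by
  by_contra h
  push Not at h
  obtain ⟨n, hn⟩ := Ordinal.lt_omega0.1 h
  apply hΩ.unc
  refine (ctb_om hM).mono ?_
  rw [hn, ← natZ_eq]
  intro x hx
  obtain ⟨m, _, rfl⟩ := mem_natZ.1 hx
  exact natZ_mem_omZ m

theorem succ_step (hΩ : IsOm1 M Ω) {B s E t c c' : ZFSet.{0}} (hs : s ∈ M) (hE : E ∈ M) (hEc : Ctb M E)
    (ht : t ∈ M) {α β Λ : Ordinal.{0}} (hΛ : Λ.toZFSet ∈ M) (hv : Vld M Ω B s Λ.toZFSet) (hαβ : α ≤ β)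
    (hβΛ : β < Λ) (hts : t ⊆ ZFSet.prod (ZFSet.prod (Nd Ω E) (Nd Ω E)) (Sn Ω s α.toZFSet))
    (htg : TGN Ω E (Ln Ω s α.toZFSet ∅) (OO Ω E s α.toZFSet t)) (hc : DD s β.toZFSet c)
    (hc' : ∀ ρ ∈ c', ∃ r, ρ = ZFSet.pair β.toZFSet r) (hcM' : c' ∈ M)
    (h : CC M (QQ Ω E (Sn Ω s β.toZFSet) (OO Ω E s β.toZFSet t))
      (RQ Ω E (Sn Ω s β.toZFSet) (Ln Ω s β.toZFSet c) (OO Ω E s β.toZFSet t))) :
    CC M (QQ Ω E (Sn Ω s (Order.succ β).toZFSet) (OO Ω E s (Order.succ β).toZFSet t))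
      (RQ Ω E (Sn Ω s (Order.succ β).toZFSet) (Ln Ω s (Order.succ β).toZFSet (c ∪ c'))
        (OO Ω E s (Order.succ β).toZFSet t)) := by
  have hω := om_le hM hΩ
  have hβM : β.toZFSet ∈ M := hM.toZFSet_mem_of_le hβΛ.le hΛ
  have hcM : c ∈ M := dd_mem hM hβM hc
  have hcs : ∀ μ r, ZFSet.pair μ r ∈ c → μ ∈ β.toZFSet := by
    intro μ r hr
    obtain ⟨μ', hμ', r', hr', h2⟩ := mem_TRr.1 (dd_rows hc _ hr)
    rw [(ZFSet.pair_inj.1 h2).1]; exact hμ'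
  by_cases hτ : ∃ τ, st s β.toZFSet τ
  · obtain ⟨τ, hτ⟩ := hτ
    obtain ⟨hne, X, x, m, hins⟩ := hτ
    have hu : ∀ τ', st s β.toZFSet τ' → τ' = τ := by
      rintro τ' ⟨_, X', x', m', h'⟩
      have h1 := hv.uni _ _ _ h' hins
      exact (ZFSet.pair_inj.1 (ZFSet.pair_inj.1 h1).2).2
    have hτM : τ ∈ M :=
      (hM.of_pair_mem (hM.of_pair_mem (hM.of_pair_mem (hM.mem_of_mem hs hins)).2).2).2
    rcases hv.hτ _ _ _ _ _ hins with h1 | ⟨h1, h2, h3⟩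
    · exact absurd h1 hne
    have hord : β.toZFSet.IsOrdinal := ZFSet.isOrdinal_toZFSet β
    have hSM := Sn_mem hM hΩ.mem hs hβM
    have hLM := Ln_mem hM hΩ.mem hs hβM hcM
    refine cc_succA hM hΩ hs hE hEc hcM hcM' ht hβM hαβ hts hcs hc' ⟨hne, X, x, m, hins⟩ hu h1 ?_
    exact cc_prod hM hSM hLM (Ln_pre _ _) hΩ hE hM.omZ_mem hEc (ctb_om hM)
      (OO_mem hM hΩ.mem hE hs hβM ht) (OO_mem hM hΩ.mem hM.omZ_mem hs hβM hτM)
      oo_opn oo_opn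
      (oo_tgn hω (ZFSet.isOrdinal_toZFSet α) hord (Ordinal.toZFSet_subset_toZFSet_iff.2 hαβ) hts htg)
      (oo_tgn hω hord hord (fun _ h => h) h1 h2) h (h3 c hc)
  · push Not at hτ
    exact cc_succB hM hΩ hs hE hEc hcM hcM' ht hβM hαβ hts hcs hc' hτ h

theorem phi (hΩ : IsOm1 M Ω) {B s E t c₀ : ZFSet.{0}} (hB : B ∈ M) (hs : s ∈ M) (hE : E ∈ M) (hEc : Ctb M E) (ht : t ∈ M)
    {α Λ : Ordinal.{0}} (hΛ : Λ.toZFSet ∈ M) (hv : Vld M Ω B s Λ.toZFSet) (hαΛ : α ≤ Λ)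
    (hts : t ⊆ ZFSet.prod (ZFSet.prod (Nd Ω E) (Nd Ω E)) (Sn Ω s α.toZFSet))
    (htg : TGN Ω E (Ln Ω s α.toZFSet ∅) (OO Ω E s α.toZFSet t)) (hc₀ : DD s α.toZFSet c₀)
    (h : CC M (QQ Ω E (Sn Ω s α.toZFSet) (OO Ω E s α.toZFSet t))
      (RQ Ω E (Sn Ω s α.toZFSet) (Ln Ω s α.toZFSet c₀) (OO Ω E s α.toZFSet t)))
    {β : Ordinal.{0}} (hαβ : α ≤ β) (hβΛ : β ≤ Λ) {c : ZFSet.{0}} (hc : DD s β.toZFSet c)
    (hcc : cres c α.toZFSet = c₀) :
    CC M (QQ Ω E (Sn Ω s β.toZFSet) (OO Ω E s β.toZFSet t))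
      (RQ Ω E (Sn Ω s β.toZFSet) (Ln Ω s β.toZFSet c) (OO Ω E s β.toZFSet t)) := by
  induction β using WellFoundedLT.induction generalizing c with
  | ind β ih =>
    rcases hαβ.eq_or_lt with rfl | hlt
    · rw [dd_res_self hc] at hcc
      rw [hcc]; exact h
    · by_cases hsucc : ∃ γ, β = Order.succ γ
      · obtain ⟨γ, rfl⟩ := hsucc
        have hαγ : α ≤ γ := Order.lt_succ_iff.1 hlt
        have hγΛ : γ < Λ := Order.succ_le_iff.1 hβΛ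
        have hsub : γ.toZFSet ⊆ (Order.succ γ).toZFSet :=
          Ordinal.toZFSet_subset_toZFSet_iff.2 (Order.le_succ γ)
        have hc1 : DD s γ.toZFSet (cres c γ.toZFSet) :=
          dd_res (ZFSet.isOrdinal_toZFSet _) (ZFSet.isOrdinal_toZFSet _) hsub hc
        have h1 := ih γ (Order.lt_succ γ) hαγ hγΛ.le hc1
          (by rw [cres_cres (Ordinal.toZFSet_subset_toZFSet_iff.2 hαγ)]; exact hcc)
        have hcM : c ∈ M := dd_mem hM (hM.toZFSet_mem_of_le hβΛ hΛ) hc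
        have hc1M : cres c γ.toZFSet ∈ M := dd_mem hM (hM.toZFSet_mem_of_le hγΛ.le hΛ) hc1
        have h2 := succ_step hM hΩ (c' := c \ cres c γ.toZFSet) hs hE hEc ht hΛ hv hαγ hγΛ hts htg hc1
          (by
            intro ρ hρ
            rw [ZFSet.mem_sdiff] at hρ
            obtain ⟨μ, hμ, r, hr, rfl⟩ := mem_TRr.1 (dd_rows hc _ hρ.1)
            rw [Ordinal.toZFSet_succ, ZFSet.mem_insert_iff] at hμ
            rcases hμ with rfl | hμ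
            · exact ⟨natZ r, rfl⟩
            · exact absurd (mem_cresr.2 ⟨hρ.1, μ, hμ, natZ r, rfl⟩) hρ.2)
          (((PD.const (hN := hM) (n := 0) hcM).sdiff (PD.const (hN := hM) (n := 0) hc1M)).1 Fin.elim0) h1
        have h3 : cres c γ.toZFSet ∪ (c \ cres c γ.toZFSet) = c := by
          ext z
          rw [ZFSet.mem_union, ZFSet.mem_sdiff]
          constructor
          · rintro (hz | hz)
            · exact (mem_cresr.1 hz).1
            · exact hz.1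
          · intro hz
            by_cases h4 : z ∈ cres c γ.toZFSet
            · exact Or.inl h4
            · exact Or.inr ⟨hz, h4⟩
        rw [h3] at h2
        exact h2
      · have hlim : ∀ γ < β, Order.succ γ < β := fun γ hγ =>
          lt_of_le_of_ne (Order.succ_le_of_lt hγ) (fun h => hsucc ⟨γ, h.symm⟩)
        have hβM : β.toZFSet ∈ M := hM.toZFSet_mem_of_le hβΛ hΛ
        obtain ⟨γ₁, hγ₁, hd⟩ := dd_lim (pos_of_gt hlt) hlim hc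
        refine cc_lim hM hΩ hs hE (dd_mem hM hβM hc) ht hβM (le_max_left α γ₁) (max_lt hlt hγ₁) hlim hts ?_
        intro γ h1 h2
        exact ih γ h2 ((le_max_left _ _).trans h1) (h2.le.trans hβΛ)
          (dd_mono (Ordinal.toZFSet_subset_toZFSet_iff.2 ((le_max_right _ _).trans h1)) hd) hcc

theorem Sn_zero (hΩ : IsOm1 M Ω) (s : ZFSet.{0}) : Sn Ω s (0 : Ordinal.{0}).toZFSet = {∅} := by
  ext p
  rw [ZFSet.mem_singleton, mem_Sn (om_le hM hΩ)]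
  constructor
  · rintro ⟨h1, _, h2⟩
    rw [ZFSet.eq_empty]
    intro e he
    obtain ⟨μ, y, z, ⟨r, _, rfl, _⟩ | ⟨rfl, _⟩⟩ := h1.ty e he
    · have := h2 _ _ _ _ he
      rw [Ordinal.toZFSet_zero] at this
      exact ZFSet.notMem_empty _ this
    · have := h2 _ _ _ _ he
      rw [Ordinal.toZFSet_zero] at this
      exact ZFSet.notMem_empty _ this
  · rintro rfl
    exact (mem_Sn (om_le hM hΩ)).1 (empty_mem_Sn _)

theorem base (hΩ : IsOm1 M Ω) {s : ZFSet.{0}} (hs : s ∈ M) : ∃ t ∈ M,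
    t ⊆ ZFSet.prod (ZFSet.prod (Nd Ω omZ) (Nd Ω omZ)) (Sn Ω s (0 : Ordinal.{0}).toZFSet) ∧
    TGN Ω omZ (Ln Ω s (0 : Ordinal.{0}).toZFSet ∅) (OO Ω omZ s (0 : Ordinal.{0}).toZFSet t) ∧
    CC M (QQ Ω omZ (Sn Ω s (0 : Ordinal.{0}).toZFSet) (OO Ω omZ s (0 : Ordinal.{0}).toZFSet t))
      (RQ Ω omZ (Sn Ω s (0 : Ordinal.{0}).toZFSet) (Ln Ω s (0 : Ordinal.{0}).toZFSet ∅)
        (OO Ω omZ s (0 : Ordinal.{0}).toZFSet t)) := by
  have h0M : (0 : Ordinal.{0}).toZFSet ∈ M := by rw [Ordinal.toZFSet_zero]; exact hM.empty_mem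
  have hSM := Sn_mem hM hΩ.mem hs h0M
  have hLM := Ln_mem hM hΩ.mem hs h0M hM.empty_mem
  have hO : OO Ω omZ s (0 : Ordinal.{0}).toZFSet (OF Ω omZ (Sn Ω s (0 : Ordinal.{0}).toZFSet)) =
      OF Ω omZ (Sn Ω s (0 : Ordinal.{0}).toZFSet) := by
    ext z
    rw [OO, OF, ZFSet.mem_sep, ZFSet.mem_sep]
    constructor
    · rintro ⟨h1, x, y, p, q, h2, h3, _⟩
      exact ⟨h1, x, y, p, h2, h3⟩
    · rintro ⟨h1, x, y, p, h2, h3⟩
      refine ⟨h1, x, y, p, p, h2, h3, ?_, LE.refl _ _ _⟩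
      rw [ZFSet.mem_sep]
      exact ⟨h2 ▸ h1, x, y, p, rfl, h3⟩
  have hcc : CC M (Sn Ω s (0 : Ordinal.{0}).toZFSet) (Ln Ω s (0 : Ordinal.{0}).toZFSet ∅) := by
    intro Z hZ hZs
    refine ⟨Z, hZ, fun _ h => h, (ctb_om hM).mono ?_, ?_⟩
    · intro z hz
      have := hZs hz
      rw [Sn_zero hM hΩ, ZFSet.mem_singleton] at this
      rw [this]
      exact natZ_mem_omZ 0
    · intro z hz
      exact ⟨z, hz, z, mem_Ln.2 ⟨hZs hz, hZs hz, LE.refl _ _ _⟩, mem_Ln.2 ⟨hZs hz, hZs hz, LE.refl _ _ _⟩⟩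
  refine ⟨OF Ω omZ (Sn Ω s (0 : Ordinal.{0}).toZFSet), OF_mem hM hSM hLM (Ln_pre _ _) hΩ hM.omZ_mem,
    ?_, ?_, ?_⟩
  · intro z hz
    rw [OF, ZFSet.mem_sep] at hz
    exact hz.1
  · rw [hO]
    exact of_tgn hM hSM hLM (Ln_pre _ _) hΩ hM.omZ_mem
  · rw [hO]
    exact cc_full hM hSM hLM (Ln_pre _ _) hΩ hM.omZ_mem (ctb_om hM) hcc

theorem cc_all (hΩ : IsOm1 M Ω) {B s : ZFSet.{0}} (hB : B ∈ M) (hs : s ∈ M) {Λ : Ordinal.{0}} (hΛ : Λ.toZFSet ∈ M)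
    (hv : Vld M Ω B s Λ.toZFSet) {β : Ordinal.{0}} (hβΛ : β ≤ Λ) {c : ZFSet.{0}} (hc : DD s β.toZFSet c) :
    CC M (Sn Ω s β.toZFSet) (Ln Ω s β.toZFSet c) := by
  obtain ⟨t, ht, h1, h2, h3⟩ := base hM hΩ hs
  have hβM : β.toZFSet ∈ M := hM.toZFSet_mem_of_le hβΛ hΛ
  have h4 := phi hM hΩ hB hs hM.omZ_mem (ctb_om hM) ht hΛ hv (zero_le (a := Λ)) h1 h2 (c₀ := ∅) (Or.inl rfl) h3
    (zero_le (a := β)) hβΛ hc (by
      rw [ZFSet.eq_empty]
      intro ρ hρ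
      obtain ⟨_, μ, hμ, _⟩ := mem_cresr.1 hρ
      rw [Ordinal.toZFSet_zero] at hμ
      exact ZFSet.notMem_empty _ hμ)
  exact cc_of_qq hM (Sn_mem hM hΩ.mem hs hβM) (Ln_mem hM hΩ.mem hs hβM (dd_mem hM hβM hc)) (Ln_pre _ _) hΩ
    hM.omZ_mem (OO_mem hM hΩ.mem hM.omZ_mem hs hβM ht) h4

theorem cc_succ_any (hΩ : IsOm1 M Ω) {B s : ZFSet.{0}} (hB : B ∈ M) (hs : s ∈ M) {Λ : Ordinal.{0}}
    (hΛ : Λ.toZFSet ∈ M) (hv : Vld M Ω B s Λ.toZFSet) {β : Ordinal.{0}} (hβΛ : β < Λ) {c c' : ZFSet.{0}}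
    (hc : DD s β.toZFSet c) (hc' : ∀ ρ ∈ c', ∃ r, ρ = ZFSet.pair β.toZFSet r) (hcM' : c' ∈ M) :
    CC M (Sn Ω s (Order.succ β).toZFSet) (Ln Ω s (Order.succ β).toZFSet (c ∪ c')) := by
  obtain ⟨t, ht, h1, h2, h3⟩ := base hM hΩ hs
  have hβM : β.toZFSet ∈ M := hM.toZFSet_mem_of_le hβΛ.le hΛ
  have hβM' : (Order.succ β).toZFSet ∈ M := hM.toZFSet_mem_of_le (Order.succ_le_of_lt hβΛ) hΛ
  have h4 := phi hM hΩ hB hs hM.omZ_mem (ctb_om hM) ht hΛ hv (zero_le (a := Λ)) h1 h2 (c₀ := ∅) (Or.inl rfl) h3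
    (zero_le (a := β)) hβΛ.le hc (by
      rw [ZFSet.eq_empty]
      intro ρ hρ
      obtain ⟨_, μ, hμ, _⟩ := mem_cresr.1 hρ
      rw [Ordinal.toZFSet_zero] at hμ
      exact ZFSet.notMem_empty _ hμ)
  have h5 := succ_step hM hΩ hs hM.omZ_mem (ctb_om hM) ht hΛ hv (zero_le (a := β)) hβΛ h1 h2 hc hc' hcM' h4
  exact cc_of_qq hM (Sn_mem hM hΩ.mem hs hβM') (Ln_mem hM hΩ.mem hs hβM'
    (hM.union_mem (dd_mem hM hβM hc) hcM')) (Ln_pre _ _) hΩ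
    hM.omZ_mem (OO_mem hM hΩ.mem hM.omZ_mem hs hβM' ht) h5

end Pool.Agent.H17.CF
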