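import Pool.Agent.H17.CF.B.Lim
import Pool.Agent.H17.CF.B.Add
import Pool.Agent.H17.CF.A.Prod

/-!
# CF-B8: the successor step of the ccc theorem

Notation: `β' = β + 1` (`Order.succ β`), `P = Sn Ω s β`, `P' = Sn Ω s β'`. `t` is a name over `Sn Ω s α`, `α ≤ β`. `c` is a set of rows of
stage `< β`, `c'` an ARBITRARY set of rows of stage `β`. Conditions `p ∈ P'` are decomposed into `p₀ = rst p β ∈ P`, the
entries in the tree rows `(β, r)`, `r < 4`, and the entries in the spec row `(β, 4)`: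
`f_p = {(x, n) : ent (row β 4) x n ∈ p}` (a finite function from `Nd Ω ω` to `ω`).
Case A: `st s β τ` (there is a spec instruction). Hypothesis: the iteration of `(P, ≤_c)` with the disjoint union of
`OO Ω E s β t` and `OO Ω ω s β τ` is ccc in `M`. Case B: there is no `τ` with `st s β τ`. Hypothesis: the iteration with
`OO Ω E s β t` is ccc; then the spec row of `p` is empty (`IsC.sp`).
Conclusion: the iteration of `(P', ≤_{c ∪ c'})` with `OO Ω E s β' t` is ccc in `M`.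

PROOF (case A; case B is the same with `E` in place of `DS E ω` and no `f_p`).
For `z = (p, f) ∈ QQ_{β'}` let `z* = (p₀, f ⊔ f_p)` where `f ⊔ f_p = {((a,(0,m)), n) : ((a,m), n) ∈ f} ∪ {((a,(1,m)), n) : ((a,m), n) ∈ f_p}`.
`z* ∈ QQ Ω (DS E ω) P (DU ..)`: nodes with different tags are incomparable by definition of `DU`; for tag `0` use
`oo_rst` (twice, `rst_rst`); for tag `1` use `IsC.sp2` and `opn_iff` (`rst p β = p₀`).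
Let `T` = the set of the possible entries in the rows `(β, r)`, `r < 4`: `{ent (row β r) y z : r < 4, y ∈ LvZ Ω, z ∈ finS y}`, and for
`z = (p, f)` let `e_z = p ∩ T`. Let `Z ∈ M`, `Z ⊆ QQ_{β'}`.
(1) For every finite `e ⊆ T` let `Z_e = {z ∈ Z : e ⊆ e_z}`. By the hypothesis (applied to `{z* : z ∈ Z_e}`; choose preimages,
`exists_choice`) there is a countable `C ⊆ Z_e` in `M` such that for every `z ∈ Z_e` there is `w ∈ C` with `z*`, `w*` compatible.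
Choose a function `H ∈ M` on `finS T` with such values.
(2) `X = T ∪ Z`; `r` = the set of the pairs `(e, x)`, `e ∈ finS X`, `x ∈ X` such that
 (a) `e ∈ finS T`, `x ∈ H(e)`, or (b) `e = {w}`, `w ∈ Z`, `x ∈ e_w`, or
 (c) `e = {ent (row β r) y z}`, `x = ent (row β r) y z'` for some `z' ∈ finS y` (the set `finS y` is countable since `y < Ω`).
The sections are countable. `exists_closed` (with `A = ∅`): countable `X' ∈ M` closed under `r`. `C = Z ∩ X'`.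
(3) Let `z = (p, f) ∈ Z`. `e := e_z ∩ X'` is a finite subset of `X' ∩ T`; `z ∈ Z_e`; by (a) there is `w = (q, g) ∈ H(e) ⊆ C` and
`(u, k) ∈ QQ Ω (DS E ω) P (DU ..)` below `z*` and `w*`: `u ≤_c p₀`, `u ≤_c q₀`, `f ⊔ f_p ⊆ k`, `g ⊔ f_q ⊆ k`. Put
`v = u ∪ e_z ∪ e_w ∪ {ent (row β 4) x n : (x, n) ∈ f_p ∪ f_q}`.
`v ∈ P'`: `fn`: the rows of stage `< β` come from `u`. Let `ent ρ y z₁ ∈ e_z`, `ent ρ y z₂ ∈ e_w`. By (b) `e_w ⊆ X'`, by (c)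
`ent ρ y z₁ ∈ X'`, so it is in `e ⊆ e_w`, and `z₁ = z₂` by `fn` of `q`. In the spec row: `f_p ∪ f_q` is single valued since `k` is.
`mkr` at stage `β`: `rst v β = u ≤_∅ p₀` (`q₀`), `Act.mono`; at stage `< β`: from `u`. `sp`: clear in case A. `sp2` at stage `β`: if
`(x, n), (y, n) ∈ f_p ∪ f_q`, `Bel x y`, then the corresponding nodes with tag `1` are in `k` with the same colour, so
the pair is in `DU` at `u`, hence `((x,y), u) ∈ OO Ω ω s β τ`, and `opn_iff`.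
`v ≤_{c ∪ c'} p`: take the translation of `LE.cut` for `u ≤_c p₀`: its rows occur in `p₀`, so they have stage `< β` and it
avoids `c'`; the entries of stage `β` of `p` are in `v` unchanged. Same for `q`.
`(v, f ∪ g) ∈ QQ_{β'}`: `f ∪ g` is single valued and its comparabilities are given by the tag `0` part of `k`
(`((x,y), u) ∈ OO β t → ((x,y), v) ∈ OO β' t` by `LE.of_sub`, `u ⊆ v`, and `mem_OO`). So `(v, f ∪ g)` is a common extension.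
-/

set_option autoImplicit false
set_option linter.unusedVariables false
set_option linter.unusedSectionVars false
set_option linter.unusedSimpArgs false
set_option linter.unusedTactic false
set_option linter.unreachableTactic false

open Pool.Agent.H17.Omega Pool.Agent.H17.Omega.CTM Pool.Agent.H52.GC Pool.Agent.H7.IG

namespace Pool.Agent.H17.CF

section abs

variable {M : Set ZFSet.{0}} (hM : CTM M) {Ω : Ordinal.{0}}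

include hM

theorem succ_finS {X : ZFSet.{0}} (hX : X ∈ M) : finS X ∈ M := by
  obtain ⟨Fi, hFi, h⟩ := exists_fin hM hX
  have he : finS X = Fi := by
    ext a
    rw [mem_finS, h]
  rw [he]
  exact hFi

/-- Images under a function (a set of pairs) with a choice of preimages: for a relation `K` on `Y` and the
countable subset of the image. -/
theorem cc_abs_pre {Q R Z' Q' S : ZFSet.{0}} (hQ' : Q' ∈ M) (hQ : Q ∈ M) (hZ' : Z' ∈ M) (hZQ : Z' ⊆ Q') (hS : S ∈ M)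
    (hc : CC M Q R) (hSf : Fn S Q' Q) :
    ∃ C ∈ M, C ⊆ Z' ∧ Ctb M C ∧ ∀ z ∈ Z', ∃ w ∈ C, ∃ r, ZFSet.pair r (ap S z) ∈ R ∧ ZFSet.pair r (ap S w) ∈ R := by
  have hYd : hM.Dfn (fun v : Fin 1 → M => ∃ z : M, z.1 ∈ (⟨Z', hZ'⟩ : M).1 ∧
      ZFSet.pair z.1 (v 0).1 ∈ (⟨S, hS⟩ : M).1) := by
    (repeat' first
      | exact DT.var _ | exact DT.last | exact DT.const _ | assumption
      | refine Dfn.pairMem ?_ ?_ ?_ | refine Dfn.mem ?_ ?_ | refine Dfn.and ?_ ?_ | refine Dfn.ex ?_)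
  obtain ⟨Y, hY, hY'⟩ := hM.exists_sep (P := fun y => ∃ z : M, z.1 ∈ (⟨Z', hZ'⟩ : M).1 ∧
      ZFSet.pair z.1 y.1 ∈ (⟨S, hS⟩ : M).1) hYd hQ
  have hYz : ∀ z ∈ Z', ap S z ∈ Y := by
    intro z hz
    have h1 := hSf.ap_mem (hZQ hz)
    exact (hY' _).2 ⟨h1.1, hM.mem_of_mem hQ h1.1, ⟨z, hM.mem_of_mem hZ' hz⟩, hz, h1.2⟩
  obtain ⟨C₀, hC₀, hC₀Y, hC₀c, hC₀'⟩ := hc Y hY (fun y hy => ((hY' y).1 hy).1)
  have hgd : hM.Dfn (fun v : Fin 2 → M => ZFSet.pair (v 1).1 (v 0).1 ∈ (⟨S, hS⟩ : M).1) :=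
    Dfn.pairMem (DT.var _) (DT.var _) (DT.const _)
  obtain ⟨g, hg, hgf, hg'⟩ := exists_choice hM (F := fun y z => ZFSet.pair z.1 y.1 ∈ (⟨S, hS⟩ : M).1) hgd hC₀ hZ'
    (by
      intro y hy
      obtain ⟨_, _, z, hz, hzy⟩ := (hY' y.1).1 (hC₀Y hy)
      exact ⟨z, hz, hzy⟩)
  have hCd : hM.Dfn (fun v : Fin 1 → M => ∃ y : M, ZFSet.pair y.1 (v 0).1 ∈ (⟨g, hg⟩ : M).1) :=
    Dfn.ex (Dfn.pairMem (DT.var _) (DT.var _) (DT.const _))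
  obtain ⟨C, hC, hC'⟩ := hM.exists_sep (P := fun z => ∃ y : M, ZFSet.pair y.1 z.1 ∈ (⟨g, hg⟩ : M).1) hCd hZ'
  refine ⟨C, hC, fun z hz => ((hC' z).1 hz).1, ?_, ?_⟩
  · refine Ctb.image hM hC₀c hC₀ (F := fun y z => ZFSet.pair y.1 z.1 ∈ (⟨g, hg⟩ : M).1)
      (Dfn.pairMem (DT.var _) (DT.var _) (DT.const _)) ?_ ?_
    · intro y _ z z' h1 h2
      exact Subtype.ext ((hgf.ap_eq h1).symm.trans (hgf.ap_eq h2))
    · intro z hz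
      obtain ⟨_, hzM, y, hy⟩ := (hC' z).1 hz
      obtain ⟨y', hy', _, _, h1⟩ := hgf.sub _ hy
      rw [ZFSet.pair_inj] at h1
      exact ⟨y, ⟨z, hzM⟩, by rw [h1.1]; exact hy', rfl, hy⟩
  · intro z hz
    obtain ⟨y, hy, r, h1, h2⟩ := hC₀' (ap S z) (hYz z hz)
    obtain ⟨h3, h4⟩ := hgf.ap_mem hy
    have hyM := hM.mem_of_mem hC₀ hy
    have hwM := hM.mem_of_mem hZ' h3
    have h5 : ZFSet.pair (ap g y) y ∈ S := hg' ⟨y, hyM⟩ ⟨ap g y, hwM⟩ h4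
    refine ⟨ap g y, (hC' _).2 ⟨h3, hwM, ⟨y, hyM⟩, h4⟩, r, h1, ?_⟩
    rw [hSf.ap_eq h5]
    exact h2

/-- The abstract form of the successor step. -/
theorem cc_abs {Q' R' Q R T D S ev : ZFSet.{0}} (hQ' : Q' ∈ M) (hQ : Q ∈ M) (hR : R ∈ M) (hT : T ∈ M) (hD : D ∈ M)
    (hS : S ∈ M) (hev : ev ∈ M) (hRQ : ∀ z ∈ R, ∃ a ∈ Q, ∃ b ∈ Q, z = ZFSet.pair a b)
    (hc : CC M Q R) (hSf : Fn S Q' Q) (hevf : Fn ev Q' (finS T))
    (hDc : ∀ x' : M, x'.1 ∈ T → ∃ Y ∈ M, Ctb M Y ∧ ∀ x : M, x.1 ∈ T → ZFSet.pair x'.1 x.1 ∈ D → x.1 ∈ Y)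
    (hfun : ∀ w ∈ Q', ∀ x ∈ ap ev w, ∀ x' ∈ ap ev w, ZFSet.pair x' x ∈ D → x = x')
    (hcomp : ∀ z ∈ Q', ∀ w ∈ Q', (∃ r, ZFSet.pair r (ap S z) ∈ R ∧ ZFSet.pair r (ap S w) ∈ R) →
      (∀ x ∈ ap ev z, ∀ x' ∈ ap ev w, ZFSet.pair x' x ∈ D → x = x') →
      ∃ r, ZFSet.pair r z ∈ R' ∧ ZFSet.pair r w ∈ R') : CC M Q' R' := by
  intro Z hZ hZQ
  have hFT := succ_finS hM hT
  -- compatibility of the images
  obtain ⟨K, hK, hK'⟩ := tk7_rel hM (F := fun z w => ∃ r a b : M, ZFSet.pair z.1 a.1 ∈ (⟨S, hS⟩ : M).1 ∧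
      ZFSet.pair w.1 b.1 ∈ (⟨S, hS⟩ : M).1 ∧ ZFSet.pair r.1 a.1 ∈ (⟨R, hR⟩ : M).1 ∧
      ZFSet.pair r.1 b.1 ∈ (⟨R, hR⟩ : M).1) (by
    (repeat' first
      | exact DT.var _ | exact DT.last | exact DT.const _ | assumption
      | refine Dfn.pairMem ?_ ?_ ?_ | refine Dfn.mem ?_ ?_ | refine Dfn.and ?_ ?_ | refine Dfn.ex ?_)) hZ hZ
  have hKiff : ∀ z ∈ Z, ∀ w ∈ Z, ZFSet.pair z w ∈ K ↔
      ∃ r, ZFSet.pair r (ap S z) ∈ R ∧ ZFSet.pair r (ap S w) ∈ R := by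
    intro z hz w hw
    have hzM := hM.mem_of_mem hZ hz
    have hwM := hM.mem_of_mem hZ hw
    constructor
    · intro h
      obtain ⟨_, _, r, a, b, h1, h2, h3, h4⟩ := (hK' ⟨z, hzM⟩ ⟨w, hwM⟩).1 h
      refine ⟨r.1, ?_, ?_⟩
      · rw [hSf.ap_eq h1]; exact h3
      · rw [hSf.ap_eq h2]; exact h4
    · rintro ⟨r, h1, h2⟩
      obtain ⟨h3, h4⟩ := hSf.ap_mem (hZQ hz)
      obtain ⟨h5, h6⟩ := hSf.ap_mem (hZQ hw)
      have hrM : r ∈ M := (hM.of_pair_mem (hM.mem_of_mem hR h1)).1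
      exact (hK' ⟨z, hzM⟩ ⟨w, hwM⟩).2 ⟨hz, hw, ⟨r, hrM⟩, ⟨_, hM.mem_of_mem hQ h3⟩, ⟨_, hM.mem_of_mem hQ h5⟩,
        h4, h6, h1, h2⟩
  -- `e ⊆ ev z`
  obtain ⟨L, hL, hL'⟩ := tk7_rel hM (F := fun e z => ∃ a : M, ZFSet.pair z.1 a.1 ∈ (⟨ev, hev⟩ : M).1 ∧
      e.1 ⊆ a.1) (by
    (repeat' first
      | exact DT.var _ | exact DT.last | exact DT.const _ | assumption
      | refine Dfn.pairMem ?_ ?_ ?_ | refine Dfn.mem ?_ ?_ | refine Dfn.subset ?_ ?_ | refine Dfn.and ?_ ?_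
      | refine Dfn.ex ?_)) hFT hZ
  have hLiff : ∀ e ∈ finS T, ∀ z ∈ Z, ZFSet.pair e z ∈ L ↔ e ⊆ ap ev z := by
    intro e he z hz
    have heM := hM.mem_of_mem hFT he
    have hzM := hM.mem_of_mem hZ hz
    constructor
    · intro h
      obtain ⟨_, _, a, h1, h2⟩ := (hL' ⟨e, heM⟩ ⟨z, hzM⟩).1 h
      rw [hevf.ap_eq h1]; exact h2
    · intro h
      obtain ⟨h3, h4⟩ := hevf.ap_mem (hZQ hz)
      exact (hL' ⟨e, heM⟩ ⟨z, hzM⟩).2 ⟨he, hz, ⟨_, hM.mem_of_mem hFT h3⟩, h4, h⟩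
  have hLp : ∀ e z, ZFSet.pair e z ∈ L → e ∈ finS T ∧ z ∈ Z := by
    intro e z h
    obtain ⟨h1, h2⟩ := hM.of_pair_mem (hM.mem_of_mem hL h)
    have h3 := (hL' ⟨e, h1⟩ ⟨z, h2⟩).1 h
    exact ⟨h3.1, h3.2.1⟩
  obtain ⟨Pw, hPw, hPw'⟩ := hM.exists_pow hZ
  -- the function `H`
  obtain ⟨H, hH, hHf, hH'⟩ := exists_choice hM (F := fun e C => (∀ w : M, w.1 ∈ C.1 →
      ZFSet.pair e.1 w.1 ∈ (⟨L, hL⟩ : M).1) ∧ Ctb M C.1 ∧ ∀ z : M, ZFSet.pair e.1 z.1 ∈ (⟨L, hL⟩ : M).1 →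
      ∃ w : M, w.1 ∈ C.1 ∧ ZFSet.pair z.1 w.1 ∈ (⟨K, hK⟩ : M).1) (by
    refine Dfn.and ?_ (Dfn.and (UD.d1 (P := fun N x => Ctb N x.1) ud_Ctb (show M ∈ CtmC from hM) (DT.var _)) ?_)
    · (repeat' first
      | exact DT.var _ | exact DT.last | exact DT.const _ | assumption
      | refine Dfn.pairMem ?_ ?_ ?_ | refine Dfn.mem ?_ ?_ | refine Dfn.and ?_ ?_ | refine Dfn.imp ?_ ?_
      | refine Dfn.all ?_ | refine Dfn.ex ?_)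
    · (repeat' first
      | exact DT.var _ | exact DT.last | exact DT.const _ | assumption
      | refine Dfn.pairMem ?_ ?_ ?_ | refine Dfn.mem ?_ ?_ | refine Dfn.and ?_ ?_ | refine Dfn.imp ?_ ?_
      | refine Dfn.all ?_ | refine Dfn.ex ?_)) hFT hPw (by
    intro e he
    obtain ⟨Ze, hZe, hZe'⟩ := hM.exists_sep (P := fun z => ZFSet.pair e.1 z.1 ∈ (⟨L, hL⟩ : M).1)
      (Dfn.pairMem (DT.const e) (DT.var _) (DT.const _)) hZ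
    have hZeZ : ∀ z ∈ Ze, z ∈ Z := fun z hz => ((hZe' z).1 hz).1
    obtain ⟨C, hC, hCZ, hCc, hC'⟩ := cc_abs_pre hM hQ' hQ hZe (fun z hz => hZQ (hZeZ z hz)) hS hc hSf
    refine ⟨⟨C, hC⟩, (hPw' C).2 ⟨hC, fun z hz => hZeZ z (hCZ hz)⟩, ?_, hCc, ?_⟩
    · intro w hw
      obtain ⟨_, _, h⟩ := (hZe' w.1).1 (hCZ hw)
      exact h
    · intro z hz
      have hzZ := (hLp _ _ hz).2
      obtain ⟨w, hw, h⟩ := hC' z.1 ((hZe' z.1).2 ⟨hzZ, z.2, hz⟩)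
      exact ⟨⟨w, hM.mem_of_mem hC hw⟩, hw, (hKiff z.1 hzZ w (hZeZ w (hCZ hw))).2 h⟩)
  -- closure
  have hX : T ∪ Z ∈ M := hM.union_mem hT hZ
  have hFX := succ_finS hM hX
  obtain ⟨r, hr, hr'⟩ := tk7_rel hM (F := fun e x => (∃ C : M, ZFSet.pair e.1 C.1 ∈ (⟨H, hH⟩ : M).1 ∧ x.1 ∈ C.1) ∨
      (∃ w a : M, (w.1 ∈ e.1 ∧ ∀ u : M, u.1 ∈ e.1 → u = w) ∧ w.1 ∈ (⟨Z, hZ⟩ : M).1 ∧
        ZFSet.pair w.1 a.1 ∈ (⟨ev, hev⟩ : M).1 ∧ x.1 ∈ a.1) ∨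
      (∃ w : M, (w.1 ∈ e.1 ∧ ∀ u : M, u.1 ∈ e.1 → u = w) ∧ w.1 ∈ (⟨T, hT⟩ : M).1 ∧
        x.1 ∈ (⟨T, hT⟩ : M).1 ∧ ZFSet.pair w.1 x.1 ∈ (⟨D, hD⟩ : M).1)) (by
    (repeat' first
      | exact DT.var _ | exact DT.last | exact DT.const _ | assumption
      | refine Dfn.pairMem ?_ ?_ ?_ | refine Dfn.mem ?_ ?_ | refine Dfn.eq ?_ ?_ | refine Dfn.and ?_ ?_
      | refine Dfn.or ?_ ?_ | refine Dfn.imp ?_ ?_
      | refine Dfn.all ?_ | refine Dfn.ex ?_)) hFX hX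
  have hsec : ∀ e ∈ finS (T ∪ Z), Ctb M (ZFSet.sep (fun x => ZFSet.pair e x ∈ r) (T ∪ Z)) := by
    intro e he
    have heM := hM.mem_of_mem hFX he
    obtain ⟨A1, hA1, hA1c, hA1'⟩ : ∃ A1 ∈ M, Ctb M A1 ∧ ∀ x C : M, ZFSet.pair e C.1 ∈ H → x.1 ∈ C.1 → x.1 ∈ A1 := by
      by_cases h : ∃ C : M, ZFSet.pair e C.1 ∈ H
      · obtain ⟨C, hC⟩ := h
        refine ⟨C.1, C.2, (hH' ⟨e, heM⟩ C hC).2.1, fun x C' hC' hx => ?_⟩
        have : C.1 = C'.1 := (hHf.ap_eq hC).symm.trans (hHf.ap_eq hC')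
        rw [this]; exact hx
      · exact ⟨∅, hM.empty_mem, tk7_fin_ctb hM hM.empty_mem ⟨∅, fun z => by simp⟩,
          fun x C hC _ => absurd ⟨C, hC⟩ h⟩
    obtain ⟨A2, hA2, hA2c, hA2'⟩ : ∃ A2 ∈ M, Ctb M A2 ∧ ∀ x w a : M, (w.1 ∈ e ∧ ∀ u : M, u.1 ∈ e → u = w) →
        w.1 ∈ Z → ZFSet.pair w.1 a.1 ∈ ev → x.1 ∈ a.1 → x.1 ∈ A2 := by
      by_cases h : ∃ w : M, (w.1 ∈ e ∧ ∀ u : M, u.1 ∈ e → u = w) ∧ w.1 ∈ Z
      · obtain ⟨w, hw, hwZ⟩ := h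
        obtain ⟨h1, h2⟩ := hevf.ap_mem (hZQ hwZ)
        refine ⟨ap ev w.1, hM.mem_of_mem hFT h1, tk7_fin_ctb hM (hM.mem_of_mem hFT h1) (mem_finS.1 h1).2, ?_⟩
        intro x w' a hw' _ ha hx
        have h3 : w = w' := (hw.2 w' hw'.1).symm
        subst h3
        rw [hevf.ap_eq ha]; exact hx
      · exact ⟨∅, hM.empty_mem, tk7_fin_ctb hM hM.empty_mem ⟨∅, fun z => by simp⟩,
          fun x w a hw hwZ _ _ => absurd ⟨w, hw, hwZ⟩ h⟩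
    obtain ⟨A3, hA3, hA3c, hA3'⟩ : ∃ A3 ∈ M, Ctb M A3 ∧ ∀ x w : M, (w.1 ∈ e ∧ ∀ u : M, u.1 ∈ e → u = w) →
        w.1 ∈ T → x.1 ∈ T → ZFSet.pair w.1 x.1 ∈ D → x.1 ∈ A3 := by
      by_cases h : ∃ w : M, (w.1 ∈ e ∧ ∀ u : M, u.1 ∈ e → u = w) ∧ w.1 ∈ T
      · obtain ⟨w, hw, hwT⟩ := h
        obtain ⟨Y, hY, hYc, hY'⟩ := hDc w hwT
        refine ⟨Y, hY, hYc, fun x w' hw' _ hxT hx => hY' x hxT ?_⟩
        have h3 : w = w' := (hw.2 w' hw'.1).symm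
        rw [h3]; exact hx
      · exact ⟨∅, hM.empty_mem, tk7_fin_ctb hM hM.empty_mem ⟨∅, fun z => by simp⟩,
          fun x w hw hwT _ _ => absurd ⟨w, hw, hwT⟩ h⟩
    refine Ctb.mono (tk7_union2 hM (hM.union_mem hA1 hA2) hA3 (tk7_union2 hM hA1 hA2 hA1c hA2c) hA3c) ?_
    intro x hx
    obtain ⟨hxX, hxr⟩ := ZFSet.mem_sep.1 hx
    have hxM := hM.mem_of_mem hX hxX
    obtain ⟨_, _, h⟩ := (hr' ⟨e, heM⟩ ⟨x, hxM⟩).1 hxr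
    rw [ZFSet.mem_union, ZFSet.mem_union]
    rcases h with ⟨C, h1, h2⟩ | ⟨w, a, h1, h2, h3, h4⟩ | ⟨w, h1, h2, h3, h4⟩
    · exact Or.inl (Or.inl (hA1' ⟨x, hxM⟩ C h1 h2))
    · exact Or.inl (Or.inr (hA2' ⟨x, hxM⟩ w a h1 h2 h3 h4))
    · exact Or.inr (hA3' ⟨x, hxM⟩ w h1 h2 h3 h4)
  obtain ⟨X', hX', _, hX'X, hX'c, hcl⟩ := exists_closed hM hX hr hM.empty_mem
    (fun z hz => absurd hz (ZFSet.notMem_empty z)) (tk7_fin_ctb hM hM.empty_mem ⟨∅, fun z => by simp⟩) hsec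
  obtain ⟨C, hC, hC'⟩ := hM.exists_sep (P := fun z => z.1 ∈ (⟨X', hX'⟩ : M).1)
    (Dfn.mem (DT.var _) (DT.const _)) hZ
  have hsing : ∀ w ∈ X', ({w} : ZFSet.{0}) ∈ finS X' := by
    intro w hw
    refine mem_finS.2 ⟨fun u hu => ?_, ⟨{w}, fun u => by simp⟩⟩
    rw [ZFSet.mem_singleton.1 hu]; exact hw
  have hfX : ∀ e ∈ finS X', e ∈ finS (T ∪ Z) := fun e he =>
    mem_finS.2 ⟨fun u hu => hX'X ((mem_finS.1 he).1 hu), (mem_finS.1 he).2⟩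
  refine ⟨C, hC, fun z hz => ((hC' z).1 hz).1, Ctb.mono hX'c (fun z hz => ?_), ?_⟩
  · obtain ⟨_, _, h⟩ := (hC' z).1 hz
    exact h
  intro z hz
  have hzM := hM.mem_of_mem hZ hz
  obtain ⟨he1, he2⟩ := hevf.ap_mem (hZQ hz)
  obtain ⟨e, he⟩ : ∃ e : ZFSet.{0}, ∀ u, u ∈ e ↔ u ∈ ap ev z ∧ u ∈ X' := ⟨ap ev z ∩ X', fun u => ZFSet.mem_inter⟩
  have hefin : FinZ e := by
    classical
    obtain ⟨t, ht⟩ := (mem_finS.1 he1).2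
    refine ⟨t.filter (fun u => u ∈ X'), fun u => ?_⟩
    rw [he, Finset.mem_filter, ht]
  have heT : e ∈ finS T := mem_finS.2 ⟨fun u hu => (mem_finS.1 he1).1 ((he u).1 hu).1, hefin⟩
  have heX' : e ∈ finS X' := mem_finS.2 ⟨fun u hu => ((he u).1 hu).2, hefin⟩
  have heM := hM.mem_of_mem hFT heT
  obtain ⟨hHe1, hHe2⟩ := hHf.ap_mem heT
  have hHeM := hM.mem_of_mem hPw hHe1
  obtain ⟨hF1, _, hF3⟩ := hH' ⟨e, heM⟩ ⟨ap H e, hHeM⟩ hHe2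
  have hzL : ZFSet.pair e z ∈ L := (hLiff e heT z hz).2 (fun u hu => ((he u).1 hu).1)
  obtain ⟨w, hw, hzw⟩ := hF3 ⟨z, hzM⟩ hzL
  have hwL : ZFSet.pair e w.1 ∈ L := hF1 w hw
  have hwZ : w.1 ∈ Z := (hLp _ _ hwL).2
  have hwX : w.1 ∈ T ∪ Z := ZFSet.mem_union.2 (Or.inr hwZ)
  have hwX' : w.1 ∈ X' := hcl e heX' w.1 hwX ((hr' ⟨e, heM⟩ w).2 ⟨hfX e heX', hwX,
    Or.inl ⟨⟨ap H e, hHeM⟩, hHe2, hw⟩⟩)
  have hwsub : e ⊆ ap ev w.1 := (hLiff e heT w.1 hwZ).1 hwL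
  refine ⟨w.1, (hC' w.1).2 ⟨hwZ, w.2, hwX'⟩, ?_⟩
  refine hcomp z (hZQ hz) w.1 (hZQ hwZ) ((hKiff z hz w.1 hwZ).1 hzw) ?_
  intro x hx x' hx' hxx
  have hxT : x ∈ T := (mem_finS.1 he1).1 hx
  obtain ⟨hw1, hw2⟩ := hevf.ap_mem (hZQ hwZ)
  have hx'T : x' ∈ T := (mem_finS.1 hw1).1 hx'
  have hx'M := hM.mem_of_mem hT hx'T
  have hxM := hM.mem_of_mem hT hxT
  have hw0M : ({w.1} : ZFSet.{0}) ∈ M := hM.singleton_mem w.2
  have hx'0M : ({x'} : ZFSet.{0}) ∈ M := hM.singleton_mem hx'M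
  have hx'X : x' ∈ X' := by
    refine hcl {w.1} (hsing _ hwX') x' (ZFSet.mem_union.2 (Or.inl hx'T)) ?_
    refine (hr' ⟨_, hw0M⟩ ⟨x', hx'M⟩).2 ⟨hfX _ (hsing _ hwX'), ZFSet.mem_union.2 (Or.inl hx'T),
      Or.inr (Or.inl ⟨w, ⟨ap ev w.1, hM.mem_of_mem hFT hw1⟩, ⟨ZFSet.mem_singleton.2 rfl, fun u hu => ?_⟩, hwZ, hw2, hx'⟩)⟩
    exact Subtype.ext (ZFSet.mem_singleton.1 hu)
  have hxX : x ∈ X' := by
    refine hcl {x'} (hsing _ hx'X) x (ZFSet.mem_union.2 (Or.inl hxT)) ?_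
    refine (hr' ⟨_, hx'0M⟩ ⟨x, hxM⟩).2 ⟨hfX _ (hsing _ hx'X), ZFSet.mem_union.2 (Or.inl hxT),
      Or.inr (Or.inr ⟨⟨x', hx'M⟩, ⟨ZFSet.mem_singleton.2 rfl, fun u hu => ?_⟩, hx'T, hxT, hxx⟩)⟩
    exact Subtype.ext (ZFSet.mem_singleton.1 hu)
  exact hfun w.1 (hZQ hwZ) x (hwsub ((he x).2 ⟨hx, hxX⟩)) x' hx' hxx

end abs


theorem sc_finU {s t : ZFSet.{0}} (hs : FinZ s) (ht : FinZ t) : FinZ (s ∪ t) := by
  classical
  obtain ⟨a, ha⟩ := hs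
  obtain ⟨b, hb⟩ := ht
  refine ⟨a ∪ b, fun z => ?_⟩
  rw [ZFSet.mem_union, Finset.mem_union, ha, hb]

theorem sc_finS {s t : ZFSet.{0}} (hs : FinZ s) (h : t ⊆ s) : FinZ t := by
  classical
  obtain ⟨a, ha⟩ := hs
  refine ⟨a.filter (fun z => z ∈ t), fun z => ?_⟩
  rw [Finset.mem_filter]
  exact ⟨fun hz => ⟨(ha z).1 (h hz), hz⟩, fun hz => hz.2⟩

/-- The image of a finite set under a relation. -/
theorem sc_finR {A B : ZFSet.{0}} (hA : FinZ A) (Rl : ZFSet.{0} → ZFSet.{0} → Prop)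
    (huni : ∀ x w w', Rl x w → Rl x w' → w = w') (h : ∀ w ∈ B, ∃ x ∈ A, Rl x w) : FinZ B := by
  classical
  obtain ⟨a, ha⟩ := hA
  let φ : ZFSet.{0} → ZFSet.{0} := fun x => if h : ∃ w, Rl x w then h.choose else ∅
  refine ⟨(a.image φ).filter (fun w => w ∈ B), fun w => ?_⟩
  rw [Finset.mem_filter, Finset.mem_image]
  constructor
  · intro hw
    obtain ⟨x, hx, hxw⟩ := h w hw
    refine ⟨⟨x, (ha x).1 hx, ?_⟩, hw⟩
    have h1 : ∃ w, Rl x w := ⟨w, hxw⟩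
    show (if h : ∃ w, Rl x w then h.choose else ∅) = w
    rw [dif_pos h1]
    exact huni x _ _ h1.choose_spec hxw
  · exact fun hw => hw.2

theorem sc_row {μ μ' : ZFSet.{0}} {r r' : ℕ} : row μ r = row μ' r' ↔ μ = μ' ∧ r = r' := by
  rw [row, row, ZFSet.pair_inj, natZ_inj]

theorem sc_mem_rst {p b μ y z : ZFSet.{0}} {r : ℕ} : ent (row μ r) y z ∈ rst p b ↔ ent (row μ r) y z ∈ p ∧ μ ∈ b :=
  mem_rst

variable {Ω : Ordinal.{0}} {s : ZFSet.{0}}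

/-- The elements of conditions. -/
theorem sc_elt {a p e : ZFSet.{0}} (hω : Ordinal.omega0 ≤ Ω) (hp : p ∈ Sn Ω s a) (he : e ∈ p) :
    ∃ μ r y z, r < 5 ∧ μ ∈ a ∧ e = ent (row μ r) y z := by
  obtain ⟨h1, h2, h3⟩ := (mem_Sn hω).1 hp
  obtain ⟨μ, y, z, ⟨r, hr, h4, _⟩ | ⟨h4, _⟩⟩ := h1.ty e he
  · exact ⟨μ, r, y, z, by omega, h3 μ r y z (h4 ▸ he), h4⟩
  · exact ⟨μ, 4, y, z, by omega, h3 μ 4 y z (h4 ▸ he), h4⟩

theorem sc_lt5 {a p μ y z : ZFSet.{0}} {r : ℕ} (hω : Ordinal.omega0 ≤ Ω) (hp : p ∈ Sn Ω s a)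
    (he : ent (row μ r) y z ∈ p) : r < 5 := by
  obtain ⟨μ', r', y', z', h1, _, h3⟩ := sc_elt hω hp he
  rw [ent_inj, sc_row] at h3
  omega

/-- Amalgamation of two conditions at the last stage. -/
theorem sc_amal {b b' c c' p q u : ZFSet.{0}} (hω : Ordinal.omega0 ≤ Ω) (hb : b.IsOrdinal)
    (hb' : ∀ μ, μ ∈ b' ↔ μ ∈ b ∨ μ = b) (hc' : ∀ ρ ∈ c', ∃ r, ρ = ZFSet.pair b r)
    (hp : p ∈ Sn Ω s b') (hq : q ∈ Sn Ω s b') (hu : u ∈ Sn Ω s b) (hup : LE Ω c u (rst p b))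
    (huq : LE Ω c u (rst q b))
    (hfn : ∀ r < 4, ∀ y z z', ent (row b r) y z ∈ p → ent (row b r) y z' ∈ q → z = z')
    (hfn4 : ∀ x n n', ent (row b 4) x n ∈ p → ent (row b 4) x n' ∈ q → n = n')
    (hsp2 : ∀ x y n, (ent (row b 4) x n ∈ p ∨ ent (row b 4) x n ∈ q) →
      (ent (row b 4) y n ∈ p ∨ ent (row b 4) y n ∈ q) → Bel x y → Opn Ω s b x y u) :
    ∃ v ∈ Sn Ω s b', LE Ω (c ∪ c') v p ∧ LE Ω (c ∪ c') v q ∧ u ⊆ v := by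
  obtain ⟨v, hv⟩ : ∃ v : ZFSet.{0}, ∀ e, e ∈ v ↔ e ∈ u ∨ (e ∈ p ∧ e ∉ rst p b) ∨ (e ∈ q ∧ e ∉ rst q b) :=
    ⟨u ∪ ((p \ rst p b) ∪ (q \ rst q b)), fun e => by simp only [ZFSet.mem_union, ZFSet.mem_sdiff]⟩
  obtain ⟨hpC, hpf, hps⟩ := (mem_Sn hω).1 hp
  obtain ⟨hqC, hqf, hqs⟩ := (mem_Sn hω).1 hq
  obtain ⟨huC, huf, hus⟩ := (mem_Sn hω).1 hu
  have hbb : b ∉ b := ZFSet.mem_irrefl b
  -- characterization of the entries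
  have hvi : ∀ μ r y z, ent (row μ r) y z ∈ v ↔ ent (row μ r) y z ∈ u ∨
      (μ = b ∧ (ent (row μ r) y z ∈ p ∨ ent (row μ r) y z ∈ q)) := by
    intro μ r y z
    rw [hv, sc_mem_rst, sc_mem_rst]
    constructor
    · rintro (h | ⟨h1, h2⟩ | ⟨h1, h2⟩)
      · exact Or.inl h
      · rcases (hb' μ).1 (hps μ r y z h1) with h3 | h3
        · exact absurd ⟨h1, h3⟩ h2
        · exact Or.inr ⟨h3, Or.inl h1⟩
      · rcases (hb' μ).1 (hqs μ r y z h1) with h3 | h3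
        · exact absurd ⟨h1, h3⟩ h2
        · exact Or.inr ⟨h3, Or.inr h1⟩
    · rintro (h | ⟨h1, h2 | h2⟩)
      · exact Or.inl h
      · exact Or.inr (Or.inl ⟨h2, fun h3 => hbb (h1 ▸ h3.2)⟩)
      · exact Or.inr (Or.inr ⟨h2, fun h3 => hbb (h1 ▸ h3.2)⟩)
  have huv : u ⊆ v := fun e he => (hv e).2 (Or.inl he)
  have hve : ∀ e ∈ v, ∃ μ r y z, r < 5 ∧ μ ∈ b' ∧ e = ent (row μ r) y z := by
    intro e he
    rcases (hv e).1 he with h | ⟨h, _⟩ | ⟨h, _⟩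
    · obtain ⟨μ, r, y, z, h1, h2, h3⟩ := sc_elt hω hu h
      exact ⟨μ, r, y, z, h1, (hb' μ).2 (Or.inl h2), h3⟩
    · exact sc_elt hω hp h
    · exact sc_elt hω hq h
  have huv' : u ⊆ rst v b := by
    intro e he
    obtain ⟨μ, r, y, z, h1, h2, rfl⟩ := sc_elt hω hu he
    exact sc_mem_rst.2 ⟨huv he, h2⟩
  have hmono : ∀ μ, rst u μ ⊆ rst v μ := by
    intro μ e he
    obtain ⟨ν, r, y, z, h1, h2, rfl⟩ := sc_elt hω hu (rst_sub he)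
    exact sc_mem_rst.2 ⟨huv (rst_sub he), (sc_mem_rst.1 he).2⟩
  have hup0 : LE Ω ∅ (rst v b) (rst p b) := (LE.of_sub huv').trans hup.to0
  have huq0 : LE Ω ∅ (rst v b) (rst q b) := (LE.of_sub huv').trans huq.to0
  have hVC : IsC Ω s v := by
    refine ⟨?_, ?_, ?_, ?_, ?_⟩
    · intro ρ y z z' h1 h2
      obtain ⟨μ, r, y', z'', hr, _, h3⟩ := hve _ h1
      rw [ent_inj] at h3
      obtain ⟨rfl, _, _⟩ := h3
      rcases (hvi μ r y z).1 h1 with h4 | ⟨h4, h5⟩ <;> rcases (hvi μ r y z').1 h2 with h6 | ⟨h6, h7⟩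
      · exact huC.fn _ y z z' h4 h6
      · exact absurd (h6 ▸ hus μ r y z h4) hbb
      · exact absurd (h4 ▸ hus μ r y z' h6) hbb
      · subst h4
        rcases h5 with h5 | h5 <;> rcases h7 with h7 | h7
        · exact hpC.fn _ y z z' h5 h7
        · by_cases hr4 : r < 4
          · exact hfn r hr4 y z z' h5 h7
          · have : r = 4 := by omega
            subst this
            exact hfn4 y z z' h5 h7
        · by_cases hr4 : r < 4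
          · exact (hfn r hr4 y z' z h7 h5).symm
          · have : r = 4 := by omega
            subst this
            exact (hfn4 y z' z h7 h5).symm
        · exact hqC.fn _ y z z' h5 h7
    · intro e he
      rcases (hv e).1 he with h | ⟨h, _⟩ | ⟨h, _⟩
      · exact huC.ty e h
      · exact hpC.ty e h
      · exact hqC.ty e h
    · intro μ y z h
      rcases (hvi μ 3 y z).1 h with h1 | ⟨h1, h2⟩
      · exact (huC.mkr μ y z h1).mono (LE.of_sub (hmono μ))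
      · subst h1
        rcases h2 with h2 | h2
        · exact (hpC.mkr _ y z h2).mono hup0
        · exact (hqC.mkr _ y z h2).mono huq0
    · intro μ x n h
      rcases (hvi μ 4 x n).1 h with h1 | ⟨h1, h2 | h2⟩
      · exact huC.sp μ x n h1
      · exact hpC.sp μ x n h2
      · exact hqC.sp μ x n h2
    · intro μ x y n h h' hxy
      rcases (hvi μ 4 x n).1 h with h1 | ⟨h1, h2⟩ <;> rcases (hvi μ 4 y n).1 h' with h3 | ⟨h3, h4⟩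
      · exact (huC.sp2 μ x y n h1 h3 hxy).mono (LE.of_sub (hmono μ))
      · exact absurd (h3 ▸ hus μ 4 x n h1) hbb
      · exact absurd (h1 ▸ hus μ 4 y n h3) hbb
      · subst h1
        exact (hsp2 x y n h2 h4 hxy).mono (LE.of_sub huv')
  have hvS : v ∈ Sn Ω s b' := by
    refine (mem_Sn hω).2 ⟨hVC, ?_, ?_⟩
    · refine sc_finS (sc_finU huf (sc_finU hpf hqf)) ?_
      intro e he
      rw [ZFSet.mem_union, ZFSet.mem_union]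
      rcases (hv e).1 he with h | ⟨h, _⟩ | ⟨h, _⟩
      · exact Or.inl h
      · exact Or.inr (Or.inl h)
      · exact Or.inr (Or.inr h)
    · intro μ r y z h
      rcases (hvi μ r y z).1 h with h1 | ⟨h1, _⟩
      · exact (hb' μ).2 (Or.inl (hus μ r y z h1))
      · exact (hb' μ).2 (Or.inr h1)
  have key : ∀ p' ∈ Sn Ω s b', LE Ω c u (rst p' b) → (∀ r y z, ent (row b r) y z ∈ p' → ent (row b r) y z ∈ v) →
      LE Ω (c ∪ c') v p' := by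
    intro p' hp' hle hin
    obtain ⟨K, hK, hKc, hrow, hKe⟩ := hle.cut
    have hKb : ∀ r a, ZFSet.pair (row b r) a ∉ K := by
      intro r a h
      obtain ⟨y, z, h1⟩ := hrow _ a h
      exact hbb (sc_mem_rst.1 h1).2
    refine ⟨K, hK, ?_, ?_⟩
    · intro ρ a h hρ
      rcases ZFSet.mem_union.1 hρ with h1 | h1
      · exact hKc ρ a h h1
      · obtain ⟨r, rfl⟩ := hc' ρ h1
        obtain ⟨y, z, h2⟩ := hrow _ a h
        exact hbb (mem_rst.1 h2).2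
    · intro ρ y z h
      obtain ⟨μ, r, y', z', hr, hμ, h3⟩ := sc_elt hω hp' h
      rw [ent_inj] at h3
      obtain ⟨rfl, _, _⟩ := h3
      rcases (hb' μ).1 hμ with h4 | h4
      · exact huv (hKe _ y z (sc_mem_rst.2 ⟨h, h4⟩))
      · subst h4
        rw [tr_none (hKb r)]
        exact hin r y z h
  refine ⟨v, hvS, key p hp hup ?_, key q hq huq ?_, huv⟩
  · exact fun r y z h => (hvi b r y z).2 (Or.inr ⟨rfl, Or.inl h⟩)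
  · exact fun r y z h => (hvi b r y z).2 (Or.inr ⟨rfl, Or.inr h⟩)

/-! ### Membership in the iterations -/

theorem sc_QQ {E P O p f : ZFSet.{0}} : ZFSet.pair p f ∈ QQ Ω E P O ↔ p ∈ P ∧ f ∈ finS (ZFSet.prod (Nd Ω E) omZ) ∧
    Sv f ∧ ∀ x y n, ZFSet.pair x n ∈ f → ZFSet.pair y n ∈ f → Bel x y → ZFSet.pair (ZFSet.pair x y) p ∈ O := by
  rw [QQ, ZFSet.mem_sep, ZFSet.pair_mem_prod]
  constructor
  · rintro ⟨⟨h1, h2⟩, p', f', h3, h4, h5⟩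
    rw [ZFSet.pair_inj] at h3
    obtain ⟨rfl, rfl⟩ := h3
    exact ⟨h1, h2, h4, h5⟩
  · rintro ⟨h1, h2, h3, h4⟩
    exact ⟨⟨h1, h2⟩, p, f, rfl, h3, h4⟩

theorem sc_QQ_pair {E P O z : ZFSet.{0}} (hz : z ∈ QQ Ω E P O) : ∃ p f, z = ZFSet.pair p f := by
  obtain ⟨_, p, f, h, _⟩ := ZFSet.mem_sep.1 hz
  exact ⟨p, f, h⟩

theorem sc_RQ {E P R O p f q g : ZFSet.{0}} : ZFSet.pair (ZFSet.pair p f) (ZFSet.pair q g) ∈ RQ Ω E P R O ↔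
    ZFSet.pair p f ∈ QQ Ω E P O ∧ ZFSet.pair q g ∈ QQ Ω E P O ∧ ZFSet.pair p q ∈ R ∧ g ⊆ f := by
  rw [RQ, ZFSet.mem_sep, ZFSet.pair_mem_prod]
  constructor
  · rintro ⟨⟨h1, h2⟩, p', f', q', g', h3, h4, h5⟩
    rw [ZFSet.pair_inj, ZFSet.pair_inj, ZFSet.pair_inj] at h3
    obtain ⟨⟨rfl, rfl⟩, rfl, rfl⟩ := h3
    exact ⟨h1, h2, h4, h5⟩
  · rintro ⟨h1, h2, h3, h4⟩
    exact ⟨⟨h1, h2⟩, p, f, q, g, rfl, h3, h4⟩

theorem sc_RQ_pair {E P R O z : ZFSet.{0}} (hz : z ∈ RQ Ω E P R O) :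
    ∃ p f q g, z = ZFSet.pair (ZFSet.pair p f) (ZFSet.pair q g) := by
  obtain ⟨_, p, f, q, g, h, _⟩ := ZFSet.mem_sep.1 hz
  exact ⟨p, f, q, g, h⟩

theorem sc_nd0 {E E' a m : ZFSet.{0}} : ZFSet.pair a (ZFSet.pair (natZ 0) m) ∈ Nd Ω (DS E E') ↔
    ZFSet.pair a m ∈ Nd Ω E := by
  rw [Nd, Nd, ZFSet.pair_mem_prod, ZFSet.pair_mem_prod, DS, ZFSet.mem_union, ZFSet.pair_mem_prod,
    ZFSet.pair_mem_prod, ZFSet.mem_singleton, ZFSet.mem_singleton]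
  constructor
  · rintro ⟨h1, ⟨_, h2⟩ | ⟨h2, _⟩⟩
    · exact ⟨h1, h2⟩
    · exact absurd (natZ_inj.1 h2) (by norm_num)
  · exact fun h => ⟨h.1, Or.inl ⟨rfl, h.2⟩⟩

theorem sc_nd1 {E E' a m : ZFSet.{0}} : ZFSet.pair a (ZFSet.pair (natZ 1) m) ∈ Nd Ω (DS E E') ↔
    ZFSet.pair a m ∈ Nd Ω E' := by
  rw [Nd, Nd, ZFSet.pair_mem_prod, ZFSet.pair_mem_prod, DS, ZFSet.mem_union, ZFSet.pair_mem_prod,
    ZFSet.pair_mem_prod, ZFSet.mem_singleton, ZFSet.mem_singleton]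
  constructor
  · rintro ⟨h1, ⟨h2, _⟩ | ⟨_, h2⟩⟩
    · exact absurd (natZ_inj.1 h2) (by norm_num)
    · exact ⟨h1, h2⟩
  · exact fun h => ⟨h.1, Or.inr ⟨rfl, h.2⟩⟩

theorem sc_nd_cases {E E' x : ZFSet.{0}} (hx : x ∈ Nd Ω (DS E E')) :
    ∃ a m, (x = ZFSet.pair a (ZFSet.pair (natZ 0) m) ∧ ZFSet.pair a m ∈ Nd Ω E) ∨
      (x = ZFSet.pair a (ZFSet.pair (natZ 1) m) ∧ ZFSet.pair a m ∈ Nd Ω E') := by
  obtain ⟨a, ha, i, hi, rfl⟩ := ZFSet.mem_prod.1 hx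
  rcases ZFSet.mem_union.1 hi with h | h
  · obtain ⟨j, hj, m, hm, rfl⟩ := ZFSet.mem_prod.1 h
    rw [ZFSet.mem_singleton] at hj
    exact ⟨a, m, Or.inl ⟨by rw [hj], ZFSet.pair_mem_prod.2 ⟨ha, hm⟩⟩⟩
  · obtain ⟨j, hj, m, hm, rfl⟩ := ZFSet.mem_prod.1 h
    rw [ZFSet.mem_singleton] at hj
    exact ⟨a, m, Or.inr ⟨by rw [hj], ZFSet.pair_mem_prod.2 ⟨ha, hm⟩⟩⟩

theorem sc_DU {E E' P O O' x y p : ZFSet.{0}} : ZFSet.pair (ZFSet.pair x y) p ∈ DU Ω E E' P O O' ↔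
    x ∈ Nd Ω (DS E E') ∧ y ∈ Nd Ω (DS E E') ∧ p ∈ P ∧ ∃ a i m b j n,
    x = ZFSet.pair a (ZFSet.pair i m) ∧ y = ZFSet.pair b (ZFSet.pair j n) ∧ a ∈ b ∧
    (i ≠ j ∨ (i = natZ 0 ∧ j = natZ 0 ∧ ZFSet.pair (ZFSet.pair (ZFSet.pair a m) (ZFSet.pair b n)) p ∈ O) ∨
      (i = natZ 1 ∧ j = natZ 1 ∧ ZFSet.pair (ZFSet.pair (ZFSet.pair a m) (ZFSet.pair b n)) p ∈ O')) := by
  rw [DU, ZFSet.mem_sep, ZFSet.pair_mem_prod, ZFSet.pair_mem_prod]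
  constructor
  · rintro ⟨⟨⟨h1, h2⟩, h3⟩, a, i, m, b, j, n, p', h4, h5, h6⟩
    rw [ZFSet.pair_inj, ZFSet.pair_inj] at h4
    obtain ⟨⟨rfl, rfl⟩, rfl⟩ := h4
    exact ⟨h1, h2, h3, a, i, m, b, j, n, rfl, rfl, h5, h6⟩
  · rintro ⟨h1, h2, h3, a, i, m, b, j, n, rfl, rfl, h5, h6⟩
    exact ⟨⟨⟨h1, h2⟩, h3⟩, a, i, m, b, j, n, p, rfl, h5, h6⟩

theorem sc_DU0 {E E' P O O' a m b n p : ZFSet.{0}}
    (h : ZFSet.pair (ZFSet.pair (ZFSet.pair a (ZFSet.pair (natZ 0) m)) (ZFSet.pair b (ZFSet.pair (natZ 0) n))) p ∈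
      DU Ω E E' P O O') : ZFSet.pair (ZFSet.pair (ZFSet.pair a m) (ZFSet.pair b n)) p ∈ O := by
  obtain ⟨_, _, _, a', i, m', b', j, n', h1, h2, _, h3⟩ := sc_DU.1 h
  rw [ZFSet.pair_inj, ZFSet.pair_inj] at h1 h2
  obtain ⟨rfl, rfl, rfl⟩ := h1
  obtain ⟨rfl, rfl, rfl⟩ := h2
  rcases h3 with h3 | ⟨_, _, h3⟩ | ⟨h3, _⟩
  · exact absurd rfl h3
  · exact h3
  · exact absurd (natZ_inj.1 h3) (by norm_num)

theorem sc_DU1 {E E' P O O' a m b n p : ZFSet.{0}}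
    (h : ZFSet.pair (ZFSet.pair (ZFSet.pair a (ZFSet.pair (natZ 1) m)) (ZFSet.pair b (ZFSet.pair (natZ 1) n))) p ∈
      DU Ω E E' P O O') : ZFSet.pair (ZFSet.pair (ZFSet.pair a m) (ZFSet.pair b n)) p ∈ O' := by
  obtain ⟨_, _, _, a', i, m', b', j, n', h1, h2, _, h3⟩ := sc_DU.1 h
  rw [ZFSet.pair_inj, ZFSet.pair_inj] at h1 h2
  obtain ⟨rfl, rfl, rfl⟩ := h1
  obtain ⟨rfl, rfl, rfl⟩ := h2
  rcases h3 with h3 | ⟨h3, _⟩ | ⟨_, _, h3⟩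
  · exact absurd rfl h3
  · exact absurd (natZ_inj.1 h3) (by norm_num)
  · exact h3


/-! ### The set-up -/

section setup

variable {M : Set ZFSet.{0}} (hM : CTM M) {Ω : Ordinal.{0}}

include hM

theorem sc_fnR {A B : ZFSet.{0}} (hA : A ∈ M) (hB : B ∈ M) (Rl : ZFSet.{0} → ZFSet.{0} → Prop)
    (hRl : hM.Dfn (fun v : Fin 2 → M => Rl (v 0).1 (v 1).1))
    (huni : ∀ x ∈ A, ∀ w w', Rl x w → Rl x w' → w = w') (h : ∀ x ∈ A, ∃ w ∈ B, Rl x w) :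
    ∃ f ∈ M, Fn f A B ∧ ∀ x ∈ A, Rl x (ap f x) := by
  obtain ⟨f, hf, hff, hf'⟩ := exists_fn hM (F := fun x w => Rl x.1 w.1) hRl hA hB (by
    intro x hx
    obtain ⟨w, hw, h1⟩ := h x.1 hx
    exact ⟨⟨w, hM.mem_of_mem hB hw⟩, hw, h1, fun w' _ h2 => Subtype.ext (huni x.1 hx _ _ h2 h1)⟩)
  refine ⟨f, hf, hff, fun x hx => ?_⟩
  obtain ⟨h1, h2⟩ := hff.ap_mem hx
  exact ((hf' ⟨x, hM.mem_of_mem hA hx⟩ ⟨ap f x, hM.mem_of_mem hB h1⟩).1 h2).2.2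

omit hM in
theorem sc_Lv_sub {y : ZFSet.{0}} (hy : y ∈ LvZ Ω) : y ∈ Ω.toZFSet := (ZFSet.mem_sep.1 hy).1

theorem sc_Ctb_Lv (hΩ : IsOm1 M Ω) {y : ZFSet.{0}} (hy : y ∈ LvZ Ω) : Ctb M y := by
  obtain ⟨γ, hγ, rfl⟩ := Ordinal.mem_toZFSet_iff.1 (sc_Lv_sub hy)
  exact hΩ.ctb γ hγ

theorem sc_setup (hΩ : IsOm1 M Ω) {s b b' Q' : ZFSet.{0}} (hω : Ordinal.omega0 ≤ Ω) (hb : b ∈ M) (hb' : b' ∈ M)
    (hbb : b ∈ b') (hs : s ∈ M)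
    (hQ' : Q' ∈ M) (hQp : ∀ z ∈ Q', ∃ p ∈ Sn Ω s b', ∃ f, z = ZFSet.pair p f) :
    ∃ T ∈ M, ∃ D ∈ M, ∃ ev ∈ M, Fn ev Q' (finS T) ∧
      (∀ p f, ZFSet.pair p f ∈ Q' → ∀ e, e ∈ ap ev (ZFSet.pair p f) ↔ e ∈ p ∧ e ∈ T) ∧
      (∀ e, e ∈ T ↔ ∃ r < 4, ∃ y ∈ LvZ Ω, ∃ z ∈ finS y, e = ent (row b r) y z) ∧
      (∀ x' x, ZFSet.pair x' x ∈ D ↔ x' ∈ T ∧ x ∈ T ∧ ∃ ρ y z z', x' = ent ρ y z ∧ x = ent ρ y z') ∧
      (∀ x' : M, x'.1 ∈ T → ∃ Y ∈ M, Ctb M Y ∧ ∀ x : M, x.1 ∈ T → ZFSet.pair x'.1 x.1 ∈ D → x.1 ∈ Y) := by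
  have hEnt : Ent Ω b' ∈ M := (PD.Ent (n := 0) (hN := hM) hΩ.mem (PD.const hb')).1 Fin.elim0
  have hTd : hM.Dfn (fun v : Fin 1 → M => ∃ r ∈ natZ 4, ∃ y ∈ LvZ Ω, ∃ z ∈ finS y,
      (v 0).1 = ent (ZFSet.pair b r) y z) := by
    refine Df.bex (PD.natZ 4) (Df.bex (PD.LvZ hΩ.mem) (Df.bex (PD.finS (PD.var _)) ?_))
    exact Df.eq (PD.var _) (PD.ent (PD.pair (PD.const hb) (PD.var _)) (PD.var _) (PD.var _))
  have hT : ZFSet.sep (fun e => ∃ r ∈ natZ 4, ∃ y ∈ LvZ Ω, ∃ z ∈ finS y, e = ent (ZFSet.pair b r) y z) (Ent Ω b') ∈ M :=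
    hM.sep_mem hTd hEnt
  obtain ⟨T, hTM, hT'⟩ : ∃ T ∈ M, ∀ e, e ∈ T ↔ ∃ r < 4, ∃ y ∈ LvZ Ω, ∃ z ∈ finS y, e = ent (row b r) y z := by
    refine ⟨_, hT, fun e => ?_⟩
    rw [ZFSet.mem_sep]
    constructor
    · rintro ⟨_, r, hr, y, hy, z, hz, h⟩
      obtain ⟨m, hm, rfl⟩ := mem_natZ.1 hr
      exact ⟨m, hm, y, hy, z, hz, h⟩
    · rintro ⟨r, hr, y, hy, z, hz, h⟩
      refine ⟨?_, natZ r, natZ_mem.2 hr, y, hy, z, hz, h⟩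
      refine mem_Ent.2 ⟨b, hbb, r, by omega, y, ZFSet.mem_union.2 (Or.inl (sc_Lv_sub hy)), z, ?_, h⟩
      refine mem_finS.2 ⟨fun w hw => ?_, (mem_finS.1 hz).2⟩
      exact (ZFSet.isOrdinal_toZFSet Ω).subset_of_mem (sc_Lv_sub hy) ((mem_finS.1 hz).1 hw)
  -- the relation `D`
  have hDd : hM.Dfn (fun v : Fin 2 → M => ∃ ρ y z z' : M, (v 0).1 = ent ρ.1 y.1 z.1 ∧ (v 1).1 = ent ρ.1 y.1 z'.1) := by
    refine Dfn.ex (Dfn.ex (Dfn.ex (Dfn.ex ?_)))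
    exact Dfn.and (Df.eq (PD.var _) (PD.ent (PD.var _) (PD.var _) (PD.var _)))
      (Df.eq (PD.var _) (PD.ent (PD.var _) (PD.var _) (PD.var _)))
  obtain ⟨D, hD, hD'⟩ := tk7_rel hM (F := fun x' x => ∃ ρ y z z' : M, x'.1 = ent ρ.1 y.1 z.1 ∧
    x.1 = ent ρ.1 y.1 z'.1) hDd hTM hTM
  have hDiff : ∀ x' x, ZFSet.pair x' x ∈ D ↔ x' ∈ T ∧ x ∈ T ∧ ∃ ρ y z z', x' = ent ρ y z ∧ x = ent ρ y z' := by
    intro x' x
    constructor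
    · intro h
      obtain ⟨h1, h2⟩ := hM.of_pair_mem (hM.mem_of_mem hD h)
      obtain ⟨h3, h4, ρ, y, z, z', h5, h6⟩ := (hD' ⟨x', h1⟩ ⟨x, h2⟩).1 h
      exact ⟨h3, h4, ρ.1, y.1, z.1, z'.1, h5, h6⟩
    · rintro ⟨h3, h4, ρ, y, z, z', rfl, rfl⟩
      have h1 := hM.mem_of_mem hTM h3
      have h2 := hM.mem_of_mem hTM h4
      have h5 : ρ ∈ M ∧ ZFSet.pair y z ∈ M := hM.of_pair_mem h1
      have h6 := hM.of_pair_mem h5.2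
      have h7 : ρ ∈ M ∧ ZFSet.pair y z' ∈ M := hM.of_pair_mem h2
      have h8 := hM.of_pair_mem h7.2
      exact (hD' ⟨_, h1⟩ ⟨_, h2⟩).2 ⟨h3, h4, ⟨ρ, h5.1⟩, ⟨y, h6.1⟩, ⟨z, h6.2⟩, ⟨z', h8.2⟩, rfl, rfl⟩
  -- the function `ev`
  have hpf : ∀ z ∈ Q', z ∈ M := fun z hz => hM.mem_of_mem hQ' hz
  obtain ⟨ev, hev, hevf, hev'⟩ := sc_fnR hM hQ' (finS_mem hM hTM) (fun z w => ∃ p f, z = ZFSet.pair p f ∧ w = p ∩ T) (by
    refine Df.exM ?_ (Df.exM ?_ (Dfn.and (Df.eq (PD.var _) (PD.pair (PD.var _) (PD.var _)))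
      (Df.eq (PD.var _) (PD.inter (PD.var _) (PD.const hTM)))))
    · rintro v p ⟨f, h, _⟩
      have h1 := (v 0).2
      rw [h] at h1
      exact (hM.of_pair_mem h1).1
    · rintro v f ⟨h, _⟩
      have h1 := (v 0).2
      have h : (v 0).1 = ZFSet.pair (v (Fin.last 2)).1 f := h
      rw [h] at h1
      exact (hM.of_pair_mem h1).2) (by
    rintro z _ w w' ⟨p, f, h1, h2⟩ ⟨p', f', h3, h4⟩
    rw [h1, ZFSet.pair_inj] at h3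
    rw [h2, h4, h3.1]) (by
    intro z hz
    obtain ⟨p, hp, f, rfl⟩ := hQp z hz
    refine ⟨p ∩ T, mem_finS.2 ⟨fun w hw => (ZFSet.mem_inter.1 hw).2, ?_⟩, p, f, rfl, rfl⟩
    exact sc_finS ((mem_Sn hω).1 hp).2.1 (fun w hw => (ZFSet.mem_inter.1 hw).1))
  refine ⟨T, hTM, D, hD, ev, hev, hevf, ?_, hT', hDiff, ?_⟩
  · intro p f h e
    obtain ⟨p', f', h1, h2⟩ := hev' _ h
    rw [ZFSet.pair_inj] at h1
    rw [h2, ← h1.1, ZFSet.mem_inter]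
  · intro x' hx'
    obtain ⟨r, hr, y, hy, z, hz, h⟩ := (hT' x'.1).1 hx'
    have hyM : y ∈ M := hM.mem_of_mem hΩ.mem (sc_Lv_sub hy)
    have hrM : row b r ∈ M := hM.pair_mem hb (hM.natZ_mem_N r)
    have hYd : hM.Dfn (fun v : Fin 1 → M => ∃ z' ∈ finS y, (v 0).1 = ent (row b r) y z') :=
      Df.bex (PD.finS (PD.const hyM)) (Df.eq (PD.var _) (PD.ent (PD.const hrM) (PD.const hyM) (PD.var _)))
    refine ⟨ZFSet.sep (fun x => ∃ z' ∈ finS y, x = ent (row b r) y z') T, hM.sep_mem hYd hTM, ?_, ?_⟩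
    · refine Ctb.image hM (Ctb.fin hM (sc_Ctb_Lv hM hΩ hy) (fun u hu => mem_finS.1 hu)) (finS_mem hM hyM)
        (F := fun z' x => x.1 = ent (row b r) y z'.1)
        (Df.eq (PD.var _) (PD.ent (PD.const hrM) (PD.const hyM) (PD.var _))) ?_ ?_
      · intro z' _ x1 x2 h1 h2
        exact Subtype.ext (h1.trans h2.symm)
      · intro x hx
        obtain ⟨hxT, z', hz', h1⟩ := ZFSet.mem_sep.1 hx
        exact ⟨⟨z', hM.mem_of_mem (finS_mem hM hyM) hz'⟩, ⟨x, hM.mem_of_mem hTM hxT⟩, hz', rfl, h1⟩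
    · intro x hx hxx
      obtain ⟨_, _, ρ, y', z', z'', h1, h2⟩ := (hDiff _ _).1 hxx
      rw [h, ent_inj] at h1
      obtain ⟨rfl, rfl, rfl⟩ := h1
      obtain ⟨r', _, y', _, z', hz', h3⟩ := (hT' x.1).1 hx
      rw [h2, ent_inj] at h3
      obtain ⟨h4, rfl, rfl⟩ := h3
      exact ZFSet.mem_sep.2 ⟨hx, z'', hz', h2⟩

end setup

/-! ### The last step: a common extension -/

theorem sc_comp {Ω : Ordinal.{0}} {s E b b' c c' t p q f g u : ZFSet.{0}} (hω : Ordinal.omega0 ≤ Ω)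
    (hb : b.IsOrdinal) (hb' : ∀ μ, μ ∈ b' ↔ μ ∈ b ∨ μ = b) (hc' : ∀ ρ ∈ c', ∃ r, ρ = ZFSet.pair b r)
    (hz : ZFSet.pair p f ∈ QQ Ω E (Sn Ω s b') (OO Ω E s b' t)) (hw : ZFSet.pair q g ∈ QQ Ω E (Sn Ω s b') (OO Ω E s b' t))
    (hu : u ∈ Sn Ω s b) (hup : LE Ω c u (rst p b)) (huq : LE Ω c u (rst q b))
    (hfn : ∀ r < 4, ∀ y z z', ent (row b r) y z ∈ p → ent (row b r) y z' ∈ q → z = z')
    (hfn4 : ∀ x n n', ent (row b 4) x n ∈ p → ent (row b 4) x n' ∈ q → n = n')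
    (hsp2 : ∀ x y n, (ent (row b 4) x n ∈ p ∨ ent (row b 4) x n ∈ q) →
      (ent (row b 4) y n ∈ p ∨ ent (row b 4) y n ∈ q) → Bel x y → Opn Ω s b x y u)
    (hsv : Sv (f ∪ g)) (hcm : ∀ x y n, ZFSet.pair x n ∈ f ∪ g → ZFSet.pair y n ∈ f ∪ g → Bel x y →
      ZFSet.pair (ZFSet.pair x y) u ∈ OO Ω E s b t) :
    ∃ r, ZFSet.pair r (ZFSet.pair p f) ∈ RQ Ω E (Sn Ω s b') (Ln Ω s b' (c ∪ c')) (OO Ω E s b' t) ∧
      ZFSet.pair r (ZFSet.pair q g) ∈ RQ Ω E (Sn Ω s b') (Ln Ω s b' (c ∪ c')) (OO Ω E s b' t) := by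
  obtain ⟨hp, hf, _, _⟩ := sc_QQ.1 hz
  obtain ⟨hq, hg, _, _⟩ := sc_QQ.1 hw
  obtain ⟨v, hv, hvp, hvq, huv⟩ := sc_amal hω hb hb' hc' hp hq hu hup huq hfn hfn4 hsp2
  have hvQ : ZFSet.pair v (f ∪ g) ∈ QQ Ω E (Sn Ω s b') (OO Ω E s b' t) := by
    refine sc_QQ.2 ⟨hv, mem_finS.2 ⟨?_, sc_finU (mem_finS.1 hf).2 (mem_finS.1 hg).2⟩, hsv, ?_⟩
    · intro w hw
      rcases ZFSet.mem_union.1 hw with h | h
      · exact (mem_finS.1 hf).1 h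
      · exact (mem_finS.1 hg).1 h
    · intro x y n h1 h2 h3
      obtain ⟨h4, h5, _, h6, q', h7, h8⟩ := mem_OO.1 (hcm x y n h1 h2 h3)
      exact mem_OO.2 ⟨h4, h5, hv, h6, q', h7, (LE.of_sub huv).trans h8⟩
  exact ⟨ZFSet.pair v (f ∪ g), sc_RQ.2 ⟨hvQ, hz, mem_Ln.2 ⟨hv, hp, hvp⟩, fun w hw => ZFSet.mem_union.2 (Or.inl hw)⟩,
    sc_RQ.2 ⟨hvQ, hw, mem_Ln.2 ⟨hv, hq, hvq⟩, fun w hw => ZFSet.mem_union.2 (Or.inr hw)⟩⟩

/-- The restriction of the open names. -/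
theorem sc_oo {Ω : Ordinal.{0}} {s E α b b' t x y p : ZFSet.{0}} (hω : Ordinal.omega0 ≤ Ω) (hα : α.IsOrdinal)
    (hb : b.IsOrdinal) (hb' : b'.IsOrdinal) (hαb : α ⊆ b) (hbb' : b ⊆ b')
    (ht : t ⊆ ZFSet.prod (ZFSet.prod (Nd Ω E) (Nd Ω E)) (Sn Ω s α)) (hp : p ∈ Sn Ω s b')
    (h : ZFSet.pair (ZFSet.pair x y) p ∈ OO Ω E s b' t) : ZFSet.pair (ZFSet.pair x y) (rst p b) ∈ OO Ω E s b t := by
  have h1 := (oo_rst hω hα hb' (fun z hz => hbb' (hαb hz)) ht hp).1 h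
  refine (oo_rst hω hα hb hαb ht (rst_mem_Sn hω hb hb' hp)).2 ?_
  rw [rst_rst hαb]
  exact h1

/-! ### Tagged functions -/

/-- `f` with tag `0` and the spec row of `p` with tag `1`. -/
def Tg (Ω : Ordinal.{0}) (E b f p x : ZFSet.{0}) : Prop :=
  (∃ a ∈ LvZ Ω, ∃ m ∈ E, ∃ n ∈ omZ, x = ZFSet.pair (ZFSet.pair a (ZFSet.pair (natZ 0) m)) n ∧
    ZFSet.pair (ZFSet.pair a m) n ∈ f) ∨
  (∃ a ∈ LvZ Ω, ∃ m ∈ omZ, ∃ n ∈ omZ, x = ZFSet.pair (ZFSet.pair a (ZFSet.pair (natZ 1) m)) n ∧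
    ent (row b 4) (ZFSet.pair a m) n ∈ p)

/-- `f ⊔ f_p`. -/
noncomputable def kk (Ω : Ordinal.{0}) (E b f p : ZFSet.{0}) : ZFSet.{0} :=
  ZFSet.sep (Tg Ω E b f p) (ZFSet.prod (Nd Ω (DS E omZ)) omZ)

theorem kk0 {Ω : Ordinal.{0}} {E b f p a m n : ZFSet.{0}} (hf : f ⊆ ZFSet.prod (Nd Ω E) omZ) :
    ZFSet.pair (ZFSet.pair a (ZFSet.pair (natZ 0) m)) n ∈ kk Ω E b f p ↔ ZFSet.pair (ZFSet.pair a m) n ∈ f := by
  rw [kk, ZFSet.mem_sep]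
  constructor
  · rintro ⟨_, ⟨a', _, m', _, n', _, h1, h2⟩ | ⟨a', _, m', _, n', _, h1, h2⟩⟩
    · rw [ZFSet.pair_inj, ZFSet.pair_inj, ZFSet.pair_inj] at h1
      obtain ⟨⟨rfl, _, rfl⟩, rfl⟩ := h1
      exact h2
    · rw [ZFSet.pair_inj, ZFSet.pair_inj, ZFSet.pair_inj] at h1
      exact absurd (natZ_inj.1 h1.1.2.1) (by norm_num)
  · intro h
    have h1 := hf h
    rw [ZFSet.pair_mem_prod] at h1
    have h2 := h1.1
    rw [Nd, ZFSet.pair_mem_prod] at h2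
    exact ⟨ZFSet.pair_mem_prod.2 ⟨sc_nd0.2 h1.1, h1.2⟩, Or.inl ⟨a, h2.1, m, h2.2, n, h1.2, rfl, h⟩⟩

theorem kk1 {Ω : Ordinal.{0}} {E b f p a m n : ZFSet.{0}}
    (hp : ∀ x n, ent (row b 4) x n ∈ p → x ∈ Nd Ω omZ ∧ n ∈ omZ) :
    ZFSet.pair (ZFSet.pair a (ZFSet.pair (natZ 1) m)) n ∈ kk Ω E b f p ↔ ent (row b 4) (ZFSet.pair a m) n ∈ p := by
  rw [kk, ZFSet.mem_sep]
  constructor
  · rintro ⟨_, ⟨a', _, m', _, n', _, h1, h2⟩ | ⟨a', _, m', _, n', _, h1, h2⟩⟩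
    · rw [ZFSet.pair_inj, ZFSet.pair_inj, ZFSet.pair_inj] at h1
      exact absurd (natZ_inj.1 h1.1.2.1) (by norm_num)
    · rw [ZFSet.pair_inj, ZFSet.pair_inj, ZFSet.pair_inj] at h1
      obtain ⟨⟨rfl, _, rfl⟩, rfl⟩ := h1
      exact h2
  · intro h
    obtain ⟨h1, h3⟩ := hp _ _ h
    have h2 := h1
    rw [Nd, ZFSet.pair_mem_prod] at h2
    exact ⟨ZFSet.pair_mem_prod.2 ⟨sc_nd1.2 h1, h3⟩, Or.inr ⟨a, h2.1, m, h2.2, n, h3, rfl, h⟩⟩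

theorem kk_fin {Ω : Ordinal.{0}} {E b f p : ZFSet.{0}} (hf : FinZ f) (hp : FinZ p) : FinZ (kk Ω E b f p) := by
  have h0 : FinZ (ZFSet.sep (fun x => ∃ a m n, x = ZFSet.pair (ZFSet.pair a (ZFSet.pair (natZ 0) m)) n ∧
      ZFSet.pair (ZFSet.pair a m) n ∈ f) (kk Ω E b f p)) := by
    refine sc_finR hf (fun x w => ∃ a m n, x = ZFSet.pair (ZFSet.pair a m) n ∧
      w = ZFSet.pair (ZFSet.pair a (ZFSet.pair (natZ 0) m)) n) ?_ ?_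
    · rintro x w w' ⟨a, m, n, h1, h2⟩ ⟨a', m', n', h3, h4⟩
      rw [h1, ZFSet.pair_inj, ZFSet.pair_inj] at h3
      obtain ⟨⟨rfl, rfl⟩, rfl⟩ := h3
      rw [h2, h4]
    · intro w hw
      obtain ⟨_, a, m, n, h1, h2⟩ := ZFSet.mem_sep.1 hw
      exact ⟨_, h2, a, m, n, rfl, h1⟩
  have h1 : FinZ (ZFSet.sep (fun x => ∃ a m n, x = ZFSet.pair (ZFSet.pair a (ZFSet.pair (natZ 1) m)) n ∧
      ent (row b 4) (ZFSet.pair a m) n ∈ p) (kk Ω E b f p)) := by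
    refine sc_finR hp (fun x w => ∃ a m n, x = ent (row b 4) (ZFSet.pair a m) n ∧
      w = ZFSet.pair (ZFSet.pair a (ZFSet.pair (natZ 1) m)) n) ?_ ?_
    · rintro x w w' ⟨a, m, n, h1, h2⟩ ⟨a', m', n', h3, h4⟩
      rw [h1, ent_inj, ZFSet.pair_inj] at h3
      obtain ⟨_, ⟨rfl, rfl⟩, rfl⟩ := h3
      rw [h2, h4]
    · intro w hw
      obtain ⟨_, a, m, n, h1, h2⟩ := ZFSet.mem_sep.1 hw
      exact ⟨_, h2, a, m, n, rfl, h1⟩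
  refine sc_finS (sc_finU h0 h1) ?_
  intro x hx
  rw [ZFSet.mem_union]
  rcases (ZFSet.mem_sep.1 hx).2 with ⟨a, _, m, _, n, _, h2, h3⟩ | ⟨a, _, m, _, n, _, h2, h3⟩
  · exact Or.inl (ZFSet.mem_sep.2 ⟨hx, a, m, n, h2, h3⟩)
  · exact Or.inr (ZFSet.mem_sep.2 ⟨hx, a, m, n, h2, h3⟩)


/-! ### The theorems -/

section final

variable {M : Set ZFSet.{0}} (hM : CTM M) {Ω : Ordinal.{0}}

include hM

omit hM in
theorem sc_hω {M : Set ZFSet.{0}} (hM : CTM M) {Ω : Ordinal.{0}} (hΩ : IsOm1 M Ω) : Ordinal.omega0 ≤ Ω := by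
  rw [Ordinal.omega0_le]
  exact fun n => (IsOm1.omega_lt hM hΩ n).le

omit hM in
theorem sc_succ (β : Ordinal.{0}) (μ : ZFSet.{0}) :
    μ ∈ (Order.succ β).toZFSet ↔ μ ∈ β.toZFSet ∨ μ = β.toZFSet := by
  rw [Ordinal.mem_toZFSet_iff, Ordinal.mem_toZFSet_iff]
  constructor
  · rintro ⟨a, ha, rfl⟩
    rcases (Order.lt_succ_iff.1 ha).lt_or_eq with h | h
    · exact Or.inl ⟨a, h, rfl⟩
    · exact Or.inr (by rw [h])
  · rintro (⟨a, ha, rfl⟩ | rfl)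
    · exact ⟨a, ha.trans (Order.lt_succ β), rfl⟩
    · exact ⟨β, Order.lt_succ β, rfl⟩

theorem sc_succ_mem {β : Ordinal.{0}} (h : β.toZFSet ∈ M) : (Order.succ β).toZFSet ∈ M := by
  have he : (Order.succ β).toZFSet = insert β.toZFSet β.toZFSet := by
    ext μ
    rw [sc_succ, ZFSet.mem_insert_iff, or_comm]
  rw [he]
  exact hM.insert_mem h h

omit hM in
theorem sc_ty {s a p x n : ZFSet.{0}} {b : ZFSet.{0}} (hω : Ordinal.omega0 ≤ Ω) (hp : p ∈ Sn Ω s a)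
    (h : ent (row b 4) x n ∈ p) : x ∈ Nd Ω omZ ∧ n ∈ omZ := by
  obtain ⟨μ, y, z, ⟨r, hr, h4, _⟩ | ⟨h4, h5, h6⟩⟩ := ((mem_Sn hω).1 hp).1.ty _ h
  · rw [ent_inj, sc_row] at h4
    omega
  · rw [ent_inj] at h4
    rw [h4.2.1, h4.2.2]
    exact ⟨h5, h6⟩

omit hM in
theorem sc_ty4 {s a p y z : ZFSet.{0}} {b : ZFSet.{0}} {r : ℕ} (hω : Ordinal.omega0 ≤ Ω) (hp : p ∈ Sn Ω s a)
    (hr : r < 4) (h : ent (row b r) y z ∈ p) : y ∈ LvZ Ω ∧ z ∈ finS y := by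
  obtain ⟨μ, y', z', ⟨r', hr', h4, h5, h6⟩ | ⟨h4, h5, h6⟩⟩ := ((mem_Sn hω).1 hp).1.ty _ h
  · rw [ent_inj] at h4
    rw [h4.2.1, h4.2.2]
    exact ⟨h5, h6⟩
  · rw [ent_inj, sc_row] at h4
    omega

/-- The common part of the two cases. -/
theorem sc_main (hΩ : IsOm1 M Ω) {s E c c' t Q R S : ZFSet.{0}} (hs : s ∈ M) (hE : E ∈ M) (hc : c ∈ M)
    (hc'M : c' ∈ M) (ht : t ∈ M) {β : Ordinal.{0}} (hβM : β.toZFSet ∈ M)
    (hQ : Q ∈ M) (hR : R ∈ M) (hS : S ∈ M)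
    (hRQ : ∀ z ∈ R, ∃ a ∈ Q, ∃ b ∈ Q, z = ZFSet.pair a b) (hCC : CC M Q R)
    (hSf : Fn S (QQ Ω E (Sn Ω s (Order.succ β).toZFSet) (OO Ω E s (Order.succ β).toZFSet t)) Q)
    (hcomp : ∀ p f q g,
      ZFSet.pair p f ∈ QQ Ω E (Sn Ω s (Order.succ β).toZFSet) (OO Ω E s (Order.succ β).toZFSet t) →
      ZFSet.pair q g ∈ QQ Ω E (Sn Ω s (Order.succ β).toZFSet) (OO Ω E s (Order.succ β).toZFSet t) →
      (∃ r, ZFSet.pair r (ap S (ZFSet.pair p f)) ∈ R ∧ ZFSet.pair r (ap S (ZFSet.pair q g)) ∈ R) →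
      (∀ r < 4, ∀ y z z', ent (row β.toZFSet r) y z ∈ p → ent (row β.toZFSet r) y z' ∈ q → z = z') →
      ∃ r, ZFSet.pair r (ZFSet.pair p f) ∈ RQ Ω E (Sn Ω s (Order.succ β).toZFSet)
          (Ln Ω s (Order.succ β).toZFSet (c ∪ c')) (OO Ω E s (Order.succ β).toZFSet t) ∧
        ZFSet.pair r (ZFSet.pair q g) ∈ RQ Ω E (Sn Ω s (Order.succ β).toZFSet)
          (Ln Ω s (Order.succ β).toZFSet (c ∪ c')) (OO Ω E s (Order.succ β).toZFSet t)) :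
    CC M (QQ Ω E (Sn Ω s (Order.succ β).toZFSet) (OO Ω E s (Order.succ β).toZFSet t))
      (RQ Ω E (Sn Ω s (Order.succ β).toZFSet) (Ln Ω s (Order.succ β).toZFSet (c ∪ c'))
        (OO Ω E s (Order.succ β).toZFSet t)) := by
  have hω := sc_hω hM hΩ
  have hb'M := sc_succ_mem hM hβM
  have hSn := Sn_mem hM hΩ.mem hs hb'M
  have hOO := OO_mem hM hΩ.mem hE hs hb'M ht
  have hQ' := QQ_mem hM hΩ.mem hE hSn hOO
  have hbb : β.toZFSet ∈ (Order.succ β).toZFSet := (sc_succ β _).2 (Or.inr rfl)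
  obtain ⟨T, hT, D, hD, ev, hev, hevf, hev', hTi, hDi, hDc⟩ := sc_setup hM hΩ hω hβM hb'M hbb hs hQ' (by
    intro z hz
    obtain ⟨p, f, rfl⟩ := sc_QQ_pair hz
    exact ⟨p, (sc_QQ.1 hz).1, f, rfl⟩)
  refine cc_abs hM hQ' hQ hR hT hD hS hev hRQ hCC hSf hevf hDc ?_ ?_
  · intro w hw x hx x' hx' hxx
    obtain ⟨p, f, rfl⟩ := sc_QQ_pair hw
    obtain ⟨_, _, ρ, y, z, z', h1, h2⟩ := (hDi _ _).1 hxx
    have h3 := ((hev' p f hw _).1 hx).1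
    have h4 := ((hev' p f hw _).1 hx').1
    rw [h2] at h3
    rw [h1] at h4
    have hp := ((mem_Sn hω).1 (sc_QQ.1 hw).1).1
    rw [h1, h2, hp.fn ρ y z z' h4 h3]
  · intro z hz w hw hr hxx
    obtain ⟨p, f, rfl⟩ := sc_QQ_pair hz
    obtain ⟨q, g, rfl⟩ := sc_QQ_pair hw
    refine hcomp p f q g hz hw hr ?_
    intro r hr4 y z z' h1 h2
    have hp := (sc_QQ.1 hz).1
    have hq := (sc_QQ.1 hw).1
    have h3 := sc_ty4 hω hp hr4 h1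
    have h4 := sc_ty4 hω hq hr4 h2
    have h5 : ent (row β.toZFSet r) y z ∈ T := (hTi _).2 ⟨r, hr4, y, h3.1, z, h3.2, rfl⟩
    have h6 : ent (row β.toZFSet r) y z' ∈ T := (hTi _).2 ⟨r, hr4, y, h4.1, z', h4.2, rfl⟩
    have h7 := hxx _ ((hev' p f hz _).2 ⟨h1, h5⟩) _ ((hev' q g hw _).2 ⟨h2, h6⟩)
      ((hDi _ _).2 ⟨h6, h5, _, y, z', z, rfl, rfl⟩)
    exact (ent_inj.1 h7).2.2

omit hM in
theorem sc_RQ_rel {E P R O : ZFSet.{0}} : ∀ z ∈ RQ Ω E P R O, ∃ a ∈ QQ Ω E P O, ∃ b ∈ QQ Ω E P O, z = ZFSet.pair a b := by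
  intro z hz
  obtain ⟨p, f, q, g, rfl⟩ := sc_RQ_pair hz
  exact ⟨_, (sc_RQ.1 hz).1, _, (sc_RQ.1 hz).2.1, rfl⟩

omit hM in
/-- The element of a relation `RQ` below a pair. -/
theorem sc_below {E P R O r q g : ZFSet.{0}} (h : ZFSet.pair r (ZFSet.pair q g) ∈ RQ Ω E P R O) :
    ∃ u k, r = ZFSet.pair u k := by
  obtain ⟨p, f, q', g', h1⟩ := sc_RQ_pair h
  rw [ZFSet.pair_inj] at h1
  exact ⟨p, f, h1.1⟩

theorem cc_succA (hΩ : IsOm1 M Ω) {s E c c' t τ : ZFSet.{0}} (hs : s ∈ M) (hE : E ∈ M) (hEc : Ctb M E) (hc : c ∈ M)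
    (hc' : c' ∈ M) (ht : t ∈ M) {α β : Ordinal.{0}} (hβM : β.toZFSet ∈ M) (hαβ : α ≤ β)
    (hts : t ⊆ ZFSet.prod (ZFSet.prod (Nd Ω E) (Nd Ω E)) (Sn Ω s α.toZFSet))
    (hcs : ∀ μ r, ZFSet.pair μ r ∈ c → μ ∈ β.toZFSet) (hcs' : ∀ ρ ∈ c', ∃ r, ρ = ZFSet.pair β.toZFSet r)
    (hτ : st s β.toZFSet τ) (hu : ∀ τ', st s β.toZFSet τ' → τ' = τ)
    (hτs : τ ⊆ ZFSet.prod (ZFSet.prod (Nd Ω omZ) (Nd Ω omZ)) (Sn Ω s β.toZFSet))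
    (h : CC M (QQ Ω (DS E omZ) (Sn Ω s β.toZFSet)
        (DU Ω E omZ (Sn Ω s β.toZFSet) (OO Ω E s β.toZFSet t) (OO Ω omZ s β.toZFSet τ)))
      (RQ Ω (DS E omZ) (Sn Ω s β.toZFSet) (Ln Ω s β.toZFSet c)
        (DU Ω E omZ (Sn Ω s β.toZFSet) (OO Ω E s β.toZFSet t) (OO Ω omZ s β.toZFSet τ)))) :
    CC M (QQ Ω E (Sn Ω s (Order.succ β).toZFSet) (OO Ω E s (Order.succ β).toZFSet t))
      (RQ Ω E (Sn Ω s (Order.succ β).toZFSet) (Ln Ω s (Order.succ β).toZFSet (c ∪ c'))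
        (OO Ω E s (Order.succ β).toZFSet t)) := by
  have hω := sc_hω hM hΩ
  have hb'M := sc_succ_mem hM hβM
  have hbO := ZFSet.isOrdinal_toZFSet β
  have hb'O := ZFSet.isOrdinal_toZFSet (Order.succ β)
  have hαO := ZFSet.isOrdinal_toZFSet α
  have hαb : α.toZFSet ⊆ β.toZFSet := Ordinal.toZFSet_monotone hαβ
  have hbb' : β.toZFSet ⊆ (Order.succ β).toZFSet := Ordinal.toZFSet_monotone (Order.le_succ β)
  have hSn := Sn_mem hM hΩ.mem hs hβM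
  have hSn' := Sn_mem hM hΩ.mem hs hb'M
  have hLn := Ln_mem hM hΩ.mem hs hβM hc
  have hτM : τ ∈ M := by
    obtain ⟨_, X, x, m, h1⟩ := hτ
    exact (hM.of_pair_mem (hM.of_pair_mem (hM.of_pair_mem (hM.mem_of_mem hs h1)).2).2).2
  have hOO := OO_mem hM hΩ.mem hE hs hβM ht
  have hOO' := OO_mem hM hΩ.mem hE hs hb'M ht
  have hOτ := OO_mem hM hΩ.mem hM.omZ_mem hs hβM hτM
  have hDS : DS E omZ ∈ M := DS_mem hM hSn hLn (Ln_pre _ _) hΩ hE hM.omZ_mem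
  have hDU : DU Ω E omZ (Sn Ω s β.toZFSet) (OO Ω E s β.toZFSet t) (OO Ω omZ s β.toZFSet τ) ∈ M :=
    DU_mem hM hSn hLn (Ln_pre _ _) hΩ hE hM.omZ_mem hOO hOτ
  have hQ := QQ_mem hM hΩ.mem hDS hSn hDU
  have hR := RQ_mem hM hΩ.mem hDS hSn hLn hDU
  have hQ' := QQ_mem hM hΩ.mem hE hSn' hOO'
  -- the nodes of the spec rows
  have hspn : ∀ p ∈ Sn Ω s (Order.succ β).toZFSet, ∀ x n, ent (row β.toZFSet 4) x n ∈ p → x ∈ Nd Ω omZ ∧ n ∈ omZ :=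
    fun p hp x n h1 => sc_ty hω hp h1
  -- the star map has values in `Q`
  have hstar : ∀ p f, ZFSet.pair p f ∈ QQ Ω E (Sn Ω s (Order.succ β).toZFSet) (OO Ω E s (Order.succ β).toZFSet t) →
      ZFSet.pair (rst p β.toZFSet) (kk Ω E β.toZFSet f p) ∈ QQ Ω (DS E omZ) (Sn Ω s β.toZFSet)
        (DU Ω E omZ (Sn Ω s β.toZFSet) (OO Ω E s β.toZFSet t) (OO Ω omZ s β.toZFSet τ)) := by
    intro p f hz
    obtain ⟨hp, hf, hsv, hcm⟩ := sc_QQ.1 hz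
    obtain ⟨hpC, hpf, hps⟩ := (mem_Sn hω).1 hp
    have hp0 := rst_mem_Sn hω hbO hb'O hp
    have hfs := (mem_finS.1 hf).1
    refine sc_QQ.2 ⟨hp0, mem_finS.2 ⟨fun w hw => (ZFSet.mem_sep.1 hw).1, kk_fin (mem_finS.1 hf).2 hpf⟩, ?_, ?_⟩
    · intro x m n h1 h2
      obtain ⟨a, i, ⟨rfl, _⟩ | ⟨rfl, _⟩⟩ := sc_nd_cases (ZFSet.pair_mem_prod.1 (ZFSet.mem_sep.1 h1).1).1
      · exact hsv _ m n ((kk0 hfs).1 h1) ((kk0 hfs).1 h2)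
      · exact hpC.fn _ _ m n ((kk1 (hspn p hp)).1 h1) ((kk1 (hspn p hp)).1 h2)
    · intro x y n h1 h2 hxy
      have hx := (ZFSet.pair_mem_prod.1 (ZFSet.mem_sep.1 h1).1).1
      have hy := (ZFSet.pair_mem_prod.1 (ZFSet.mem_sep.1 h2).1).1
      refine sc_DU.2 ⟨hx, hy, hp0, ?_⟩
      obtain ⟨a, i, hx'⟩ := sc_nd_cases hx
      obtain ⟨d, j, hy'⟩ := sc_nd_cases hy
      obtain ⟨a', i', d', j', h3, h4, had⟩ := hxy
      rcases hx' with ⟨rfl, hxN⟩ | ⟨rfl, hxN⟩ <;> rcases hy' with ⟨rfl, hyN⟩ | ⟨rfl, hyN⟩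
      · rw [ZFSet.pair_inj] at h3 h4
        rw [← h3.1, ← h4.1] at had
        refine ⟨a, natZ 0, i, d, natZ 0, j, rfl, rfl, had, Or.inr (Or.inl ⟨rfl, rfl, ?_⟩)⟩
        exact sc_oo hω hαO hbO hb'O hαb hbb' hts hp (hcm _ _ n ((kk0 hfs).1 h1) ((kk0 hfs).1 h2)
          ⟨a, i, d, j, rfl, rfl, had⟩)
      · rw [ZFSet.pair_inj] at h3 h4
        rw [← h3.1, ← h4.1] at had
        exact ⟨a, natZ 0, i, d, natZ 1, j, rfl, rfl, had, Or.inl (fun h5 => absurd (natZ_inj.1 h5) (by norm_num))⟩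
      · rw [ZFSet.pair_inj] at h3 h4
        rw [← h3.1, ← h4.1] at had
        exact ⟨a, natZ 1, i, d, natZ 0, j, rfl, rfl, had, Or.inl (fun h5 => absurd (natZ_inj.1 h5) (by norm_num))⟩
      · rw [ZFSet.pair_inj] at h3 h4
        rw [← h3.1, ← h4.1] at had
        refine ⟨a, natZ 1, i, d, natZ 1, j, rfl, rfl, had, Or.inr (Or.inr ⟨rfl, rfl, ?_⟩)⟩
        have hB : Bel (ZFSet.pair a i) (ZFSet.pair d j) := ⟨a, i, d, j, rfl, rfl, had⟩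
        exact (opn_iff hτ hu hp0 hxN hyN hB).1
          (hpC.sp2 _ _ _ n ((kk1 (hspn p hp)).1 h1) ((kk1 (hspn p hp)).1 h2) hB)
  -- the star map
  have hB₀ : ZFSet.prod (Nd Ω (DS E omZ)) omZ ∈ M := hM.prod_mem (E2_Nd_mem hM hΩ.mem hDS) hM.omZ_mem
  obtain ⟨S, hS, hSf, hS'⟩ := sc_fnR hM hQ' hQ (fun z w => ∃ p f, z = ZFSet.pair p f ∧
      w = ZFSet.pair (rst p β.toZFSet) (kk Ω E β.toZFSet f p)) (by
    refine Df.exM ?_ (Df.exM ?_ (Dfn.and (Df.eq (PD.var _) (PD.pair (PD.var _) (PD.var _))) ?_))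
    · rintro v p ⟨f, h1, _⟩
      have h2 := (v 0).2
      rw [h1] at h2
      exact (hM.of_pair_mem h2).1
    · rintro v f ⟨h1, _⟩
      have h2 := (v 0).2
      have h1 : (v 0).1 = ZFSet.pair (v (Fin.last 2)).1 f := h1
      rw [h1] at h2
      exact (hM.of_pair_mem h2).2
    · refine Df.eq (PD.var _) (PD.pair (PD.rst (PD.var _) (PD.const hβM)) ?_)
      unfold kk Tg
      refine PD.sep (PD.const hB₀) (Dfn.or ?_ ?_)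
      · refine Df.bex (PD.LvZ hΩ.mem) (Df.bex (PD.const hE) (Df.bex PD.omZ (Dfn.and ?_ ?_)))
        · exact Df.eq (PD.var _) (PD.pair (PD.pair (PD.var _) (PD.pair (PD.natZ 0) (PD.var _))) (PD.var _))
        · exact Df.mem (PD.pair (PD.pair (PD.var _) (PD.var _)) (PD.var _)) (PD.var _)
      · refine Df.bex (PD.LvZ hΩ.mem) (Df.bex PD.omZ (Df.bex PD.omZ (Dfn.and ?_ ?_)))
        · exact Df.eq (PD.var _) (PD.pair (PD.pair (PD.var _) (PD.pair (PD.natZ 1) (PD.var _))) (PD.var _))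
        · exact Df.mem (PD.ent (PD.row (PD.const hβM) 4) (PD.pair (PD.var _) (PD.var _)) (PD.var _)) (PD.var _)) (by
    rintro z _ w w' ⟨p, f, h1, h2⟩ ⟨p', f', h3, h4⟩
    rw [h1, ZFSet.pair_inj] at h3
    rw [h2, h4, h3.1, h3.2]) (by
    intro z hz
    obtain ⟨p, f, rfl⟩ := sc_QQ_pair hz
    exact ⟨_, hstar p f hz, p, f, rfl, rfl⟩)
  have hSap : ∀ p f, ZFSet.pair p f ∈ QQ Ω E (Sn Ω s (Order.succ β).toZFSet) (OO Ω E s (Order.succ β).toZFSet t) →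
      ap S (ZFSet.pair p f) = ZFSet.pair (rst p β.toZFSet) (kk Ω E β.toZFSet f p) := by
    intro p f hz
    obtain ⟨p', f', h1, h2⟩ := hS' _ hz
    rw [ZFSet.pair_inj] at h1
    rw [h2, h1.1, h1.2]
  refine sc_main hM hΩ hs hE hc hc' ht hβM hQ hR hS sc_RQ_rel h hSf ?_
  intro p f q g hz hw hr hfn
  obtain ⟨r, hr1, hr2⟩ := hr
  rw [hSap p f hz] at hr1
  rw [hSap q g hw] at hr2
  obtain ⟨u, k, rfl⟩ := sc_below hr1
  obtain ⟨huQ, _, hup, hfk⟩ := sc_RQ.1 hr1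
  obtain ⟨_, _, huq, hgk⟩ := sc_RQ.1 hr2
  obtain ⟨huS, hk, hksv, hkc⟩ := sc_QQ.1 huQ
  have hup := (mem_Ln.1 hup).2.2
  have huq := (mem_Ln.1 huq).2.2
  obtain ⟨hp, hf, _, _⟩ := sc_QQ.1 hz
  obtain ⟨hq, hg, _, _⟩ := sc_QQ.1 hw
  have hfs := (mem_finS.1 hf).1
  have hgs := (mem_finS.1 hg).1
  -- tag `1`
  have ht1 : ∀ a m n, (ent (row β.toZFSet 4) (ZFSet.pair a m) n ∈ p ∨ ent (row β.toZFSet 4) (ZFSet.pair a m) n ∈ q) →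
      ZFSet.pair (ZFSet.pair a (ZFSet.pair (natZ 1) m)) n ∈ k := by
    intro a m n h1
    rcases h1 with h1 | h1
    · exact hfk ((kk1 (hspn p hp)).2 h1)
    · exact hgk ((kk1 (hspn q hq)).2 h1)
  have ht0 : ∀ a m n, ZFSet.pair (ZFSet.pair a m) n ∈ f ∪ g →
      ZFSet.pair (ZFSet.pair a (ZFSet.pair (natZ 0) m)) n ∈ k := by
    intro a m n h1
    rcases ZFSet.mem_union.1 h1 with h1 | h1
    · exact hfk ((kk0 hfs).2 h1)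
    · exact hgk ((kk0 hgs).2 h1)
  have hnode : ∀ x n, ZFSet.pair x n ∈ f ∪ g → ∃ a m, x = ZFSet.pair a m := by
    intro x n h1
    have h2 : ZFSet.pair x n ∈ ZFSet.prod (Nd Ω E) omZ := by
      rcases ZFSet.mem_union.1 h1 with h1 | h1
      · exact hfs h1
      · exact hgs h1
    obtain ⟨a, _, m, _, h3⟩ := ZFSet.mem_prod.1 (ZFSet.pair_mem_prod.1 h2).1
    exact ⟨a, m, h3⟩
  have hnode1 : ∀ x n, (ent (row β.toZFSet 4) x n ∈ p ∨ ent (row β.toZFSet 4) x n ∈ q) → x ∈ Nd Ω omZ := by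
    intro x n h1
    rcases h1 with h1 | h1
    · exact (hspn p hp x n h1).1
    · exact (hspn q hq x n h1).1
  refine sc_comp hω hbO (sc_succ β) hcs' hz hw huS hup huq hfn ?_ ?_ ?_ ?_
  · intro x n n' h1 h2
    obtain ⟨a, _, m, _, rfl⟩ := ZFSet.mem_prod.1 (hnode1 x n (Or.inl h1))
    exact hksv _ n n' (ht1 a m n (Or.inl h1)) (ht1 a m n' (Or.inr h2))
  · intro x y n h1 h2 hxy
    have hx := hnode1 x n h1
    have hy := hnode1 y n h2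
    refine (opn_iff hτ hu huS hx hy hxy).2 ?_
    obtain ⟨a, m, d, j, rfl, rfl, had⟩ := hxy
    exact sc_DU1 (hkc _ _ n (ht1 a m n h1) (ht1 d j n h2) ⟨a, _, d, _, rfl, rfl, had⟩)
  · intro x m n h1 h2
    obtain ⟨a, i, rfl⟩ := hnode x m h1
    exact hksv _ m n (ht0 a i m h1) (ht0 a i n h2)
  · intro x y n h1 h2 hxy
    obtain ⟨a, m, d, j, rfl, rfl, had⟩ := hxy
    exact sc_DU0 (hkc _ _ n (ht0 a m n h1) (ht0 d j n h2) ⟨a, _, d, _, rfl, rfl, had⟩)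

theorem cc_succB (hΩ : IsOm1 M Ω) {s E c c' t : ZFSet.{0}} (hs : s ∈ M) (hE : E ∈ M) (hEc : Ctb M E) (hc : c ∈ M)
    (hc' : c' ∈ M) (ht : t ∈ M) {α β : Ordinal.{0}} (hβM : β.toZFSet ∈ M) (hαβ : α ≤ β)
    (hts : t ⊆ ZFSet.prod (ZFSet.prod (Nd Ω E) (Nd Ω E)) (Sn Ω s α.toZFSet))
    (hcs : ∀ μ r, ZFSet.pair μ r ∈ c → μ ∈ β.toZFSet) (hcs' : ∀ ρ ∈ c', ∃ r, ρ = ZFSet.pair β.toZFSet r)
    (hτ : ∀ τ, ¬ st s β.toZFSet τ)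
    (h : CC M (QQ Ω E (Sn Ω s β.toZFSet) (OO Ω E s β.toZFSet t))
      (RQ Ω E (Sn Ω s β.toZFSet) (Ln Ω s β.toZFSet c) (OO Ω E s β.toZFSet t))) :
    CC M (QQ Ω E (Sn Ω s (Order.succ β).toZFSet) (OO Ω E s (Order.succ β).toZFSet t))
      (RQ Ω E (Sn Ω s (Order.succ β).toZFSet) (Ln Ω s (Order.succ β).toZFSet (c ∪ c'))
        (OO Ω E s (Order.succ β).toZFSet t)) := by
  have hω := sc_hω hM hΩ
  have hb'M := sc_succ_mem hM hβM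
  have hbO := ZFSet.isOrdinal_toZFSet β
  have hb'O := ZFSet.isOrdinal_toZFSet (Order.succ β)
  have hαO := ZFSet.isOrdinal_toZFSet α
  have hαb : α.toZFSet ⊆ β.toZFSet := Ordinal.toZFSet_monotone hαβ
  have hbb' : β.toZFSet ⊆ (Order.succ β).toZFSet := Ordinal.toZFSet_monotone (Order.le_succ β)
  have hSn := Sn_mem hM hΩ.mem hs hβM
  have hSn' := Sn_mem hM hΩ.mem hs hb'M
  have hLn := Ln_mem hM hΩ.mem hs hβM hc
  have hOO := OO_mem hM hΩ.mem hE hs hβM ht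
  have hOO' := OO_mem hM hΩ.mem hE hs hb'M ht
  have hQ := QQ_mem hM hΩ.mem hE hSn hOO
  have hR := RQ_mem hM hΩ.mem hE hSn hLn hOO
  have hQ' := QQ_mem hM hΩ.mem hE hSn' hOO'
  have hnosp : ∀ p ∈ Sn Ω s (Order.succ β).toZFSet, ∀ x n, ent (row β.toZFSet 4) x n ∉ p := by
    intro p hp x n h1
    obtain ⟨τ, h2⟩ := ((mem_Sn hω).1 hp).1.sp _ x n h1
    exact hτ τ h2
  obtain ⟨S, hS, hSf, hS'⟩ := sc_fnR hM hQ' hQ (fun z w => ∃ p f, z = ZFSet.pair p f ∧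
      w = ZFSet.pair (rst p β.toZFSet) f) (by
    refine Df.exM ?_ (Df.exM ?_ (Dfn.and (Df.eq (PD.var _) (PD.pair (PD.var _) (PD.var _)))
      (Df.eq (PD.var _) (PD.pair (PD.rst (PD.var _) (PD.const hβM)) (PD.var _)))))
    · rintro v p ⟨f, h1, _⟩
      have h2 := (v 0).2
      rw [h1] at h2
      exact (hM.of_pair_mem h2).1
    · rintro v f ⟨h1, _⟩
      have h2 := (v 0).2
      have h1 : (v 0).1 = ZFSet.pair (v (Fin.last 2)).1 f := h1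
      rw [h1] at h2
      exact (hM.of_pair_mem h2).2) (by
    rintro z _ w w' ⟨p, f, h1, h2⟩ ⟨p', f', h3, h4⟩
    rw [h1, ZFSet.pair_inj] at h3
    rw [h2, h4, h3.1, h3.2]) (by
    intro z hz
    obtain ⟨p, f, rfl⟩ := sc_QQ_pair hz
    obtain ⟨hp, hf, hsv, hcm⟩ := sc_QQ.1 hz
    refine ⟨_, sc_QQ.2 ⟨rst_mem_Sn hω hbO hb'O hp, hf, hsv, ?_⟩, p, f, rfl, rfl⟩
    intro x y n h1 h2 hxy
    exact sc_oo hω hαO hbO hb'O hαb hbb' hts hp (hcm x y n h1 h2 hxy))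
  have hSap : ∀ p f, ZFSet.pair p f ∈ QQ Ω E (Sn Ω s (Order.succ β).toZFSet) (OO Ω E s (Order.succ β).toZFSet t) →
      ap S (ZFSet.pair p f) = ZFSet.pair (rst p β.toZFSet) f := by
    intro p f hz
    obtain ⟨p', f', h1, h2⟩ := hS' _ hz
    rw [ZFSet.pair_inj] at h1
    rw [h2, h1.1, h1.2]
  refine sc_main hM hΩ hs hE hc hc' ht hβM hQ hR hS sc_RQ_rel h hSf ?_
  intro p f q g hz hw hr hfn
  obtain ⟨r, hr1, hr2⟩ := hr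
  rw [hSap p f hz] at hr1
  rw [hSap q g hw] at hr2
  obtain ⟨u, k, rfl⟩ := sc_below hr1
  obtain ⟨huQ, _, hup, hfk⟩ := sc_RQ.1 hr1
  obtain ⟨_, _, huq, hgk⟩ := sc_RQ.1 hr2
  obtain ⟨huS, hk, hksv, hkc⟩ := sc_QQ.1 huQ
  have hup := (mem_Ln.1 hup).2.2
  have huq := (mem_Ln.1 huq).2.2
  have hp := (sc_QQ.1 hz).1
  have hq := (sc_QQ.1 hw).1
  have hfg : f ∪ g ⊆ k := by
    intro w hw
    rcases ZFSet.mem_union.1 hw with h1 | h1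
    · exact hfk h1
    · exact hgk h1
  refine sc_comp hω hbO (sc_succ β) hcs' hz hw huS hup huq hfn ?_ ?_ ?_ ?_
  · intro x n n' h1 h2
    exact absurd h1 (hnosp p hp x n)
  · intro x y n h1 h2 hxy
    rcases h1 with h1 | h1
    · exact absurd h1 (hnosp p hp x n)
    · exact absurd h1 (hnosp q hq x n)
  · intro x m n h1 h2
    exact hksv x m n (hfg h1) (hfg h2)
  · intro x y n h1 h2 hxy
    exact hkc x y n (hfg h1) (hfg h2) hxy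

end final

end Pool.Agent.H17.CF
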