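import Pool.Agent.H17.CF.FDefs

/-!
# CF-B1: the translation group and the orders `≤_c`

`tr K ρ y z = z △ sK K ρ y` with `sK K ρ y = {k ∈ y : (ρ, k) ∈ K}`. All statements are elementary; work with
`ext`, `ZFSet.mem_sep`, `ZFSet.mem_union`, `ZFSet.mem_sdiff`.

PROOFS.
`tr_tr`: `sK (K △ L) ρ y = sK K ρ y △ sK L ρ y` and associativity of the symmetric difference: by `ext k` and `tauto`
(case distinctions on `k ∈ z`, `k ∈ y`, `(ρ,k) ∈ K`, `(ρ,k) ∈ L`).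
`LE.refl`: `K = ∅`. `LE.trans`: if `K` witnesses `p ≤ q` and `L` witnesses `q ≤ r` then `symZ K L` witnesses `p ≤ r`.
`LE.anti`: larger `c` gives a smaller relation. `LE.of_sub`: `q ⊆ p → p ≤_c q` (`K = ∅`).
`LE.cut`: the witness `K` may be replaced by the set of its elements whose row occurs in `q`.
`trp K p` (the translate) is defined as a set by replacement; `mem_trp`. `trp_trp`: `tr` is an involution for fixed `K`.
`LE_trp`: `p ≤_c`-equivalent to `trp K p` if `K` avoids `c`. `LE_iff`: `p ≤_c q ↔ ∃ K (avoiding c), trp K q ⊆ p`.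
`LE.transl` (TL): if `r ≤_∅ p` then some translate `r' = trp K r` contains `p`, and `r' ≤_∅ r ≤_∅ r'`:
take `K` with `trp K p ⊆ r`; then `p = trp K (trp K p) ⊆ trp K r`.
-/

set_option autoImplicit false
set_option linter.unusedVariables false
set_option linter.unusedSectionVars false
set_option linter.unusedSimpArgs false
set_option linter.unusedTactic false
set_option linter.unreachableTactic false

open Pool.Agent.H17.Omega Pool.Agent.H17.Omega.CTM Pool.Agent.H52.GC Pool.Agent.H7.IG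

namespace Pool.Agent.H17.CF

/-- Symmetric difference. -/
noncomputable def symZ (K L : ZFSet.{0}) : ZFSet.{0} := (K \ L) ∪ (L \ K)

/-- All elements are entries `ent ρ y z`. -/
def IsE (p : ZFSet.{0}) : Prop := ∀ e ∈ p, ∃ ρ y z, e = ent ρ y z

/-- `K` has no row in `c`. -/
def Av (K c : ZFSet.{0}) : Prop := ∀ ρ a, ZFSet.pair ρ a ∈ K → ρ ∉ c

theorem ent_inj {ρ y z ρ' y' z' : ZFSet.{0}} : ent ρ y z = ent ρ' y' z' ↔ ρ = ρ' ∧ y = y' ∧ z = z' := by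
  unfold ent
  rw [ZFSet.pair_inj, ZFSet.pair_inj]

theorem mem_symZ {K L k : ZFSet.{0}} : k ∈ symZ K L ↔ (k ∈ K ∧ k ∉ L) ∨ (k ∈ L ∧ k ∉ K) := by
  rw [symZ, ZFSet.mem_union, ZFSet.mem_sdiff, ZFSet.mem_sdiff]

theorem mem_tr {K ρ y z k : ZFSet.{0}} : k ∈ tr K ρ y z ↔
    (k ∈ z ∧ ¬ (k ∈ y ∧ ZFSet.pair ρ k ∈ K)) ∨ ((k ∈ y ∧ ZFSet.pair ρ k ∈ K) ∧ k ∉ z) := by
  rw [tr, ZFSet.mem_union, ZFSet.mem_sdiff, ZFSet.mem_sdiff, sK, ZFSet.mem_sep]

theorem finZ_iff_finite {a : ZFSet.{0}} : FinZ a ↔ {z | z ∈ a}.Finite := by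
  constructor
  · rintro ⟨t, ht⟩
    exact t.finite_toSet.subset fun z hz => (ht z).1 hz
  · intro h
    exact ⟨h.toFinset, fun z => by rw [Set.Finite.mem_toFinset]; rfl⟩

theorem FinZ.sub {a b : ZFSet.{0}} (h : FinZ a) (hb : b ⊆ a) : FinZ b :=
  finZ_iff_finite.2 ((finZ_iff_finite.1 h).subset fun z hz => hb hz)

theorem tr_tr (K L ρ y z : ZFSet.{0}) : tr K ρ y (tr L ρ y z) = tr (symZ K L) ρ y z := by
  ext k
  simp only [mem_tr, mem_symZ]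
  by_cases h1 : k ∈ z <;> by_cases h2 : k ∈ y <;> by_cases h3 : ZFSet.pair ρ k ∈ K <;>
    by_cases h4 : ZFSet.pair ρ k ∈ L <;> simp [h1, h2, h3, h4]

theorem tr_self (K ρ y z : ZFSet.{0}) : tr K ρ y (tr K ρ y z) = z := by
  ext k
  simp only [mem_tr]
  by_cases h1 : k ∈ z <;> by_cases h2 : k ∈ y <;> by_cases h3 : ZFSet.pair ρ k ∈ K <;> simp [h1, h2, h3]

theorem tr_empty (ρ y z : ZFSet.{0}) : tr ∅ ρ y z = z := by
  ext k
  rw [mem_tr]
  have h := ZFSet.notMem_empty (ZFSet.pair ρ k)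
  by_cases h1 : k ∈ z <;> simp [h1]

/-- Only the elements of `K` in the row `ρ` matter. -/
theorem tr_congr {K L ρ : ZFSet.{0}} (h : ∀ a, ZFSet.pair ρ a ∈ K ↔ ZFSet.pair ρ a ∈ L) (y z : ZFSet.{0}) :
    tr K ρ y z = tr L ρ y z := by
  ext k
  rw [mem_tr, mem_tr, h]

theorem tr_none {K ρ : ZFSet.{0}} (h : ∀ a, ZFSet.pair ρ a ∉ K) (y z : ZFSet.{0}) : tr K ρ y z = z := by
  ext k
  rw [mem_tr]
  have h' := h k
  by_cases h1 : k ∈ z <;> simp [h1, h']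

theorem tr_finS {Ω : Ordinal.{0}} {K ρ y z : ZFSet.{0}} (hK : KK Ω K) (hz : z ∈ finS y) : tr K ρ y z ∈ finS y := by
  rw [mem_finS] at hz ⊢
  refine ⟨fun k hk => ?_, ?_⟩
  · rcases mem_tr.1 hk with h | h
    · exact hz.1 h.1
    · exact h.1.1
  · have h1 : {k | k ∈ z}.Finite := finZ_iff_finite.1 hz.2
    have h2 : {k | ZFSet.pair ρ k ∈ K}.Finite := by
      refine Set.Finite.preimage (f := fun k => ZFSet.pair ρ k) ?_ (finZ_iff_finite.1 hK.1)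
      intro a _ b _ hab
      exact (ZFSet.pair_inj.1 hab).2
    refine finZ_iff_finite.2 ((h1.union h2).subset fun k hk => ?_)
    rcases mem_tr.1 hk with h | h
    · exact Or.inl h.1
    · exact Or.inr h.1.2

/-- Spec rows are not translated. -/
theorem tr_spec {Ω : Ordinal.{0}} {K : ZFSet.{0}} (hK : KK Ω K) (μ y z : ZFSet.{0}) : tr K (row μ 4) y z = z := by
  refine tr_none (fun a ha => ?_) y z
  obtain ⟨μ', a', ⟨r, hr, h⟩, -⟩ := hK.2 _ ha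
  have h1 := (ZFSet.pair_inj.1 h).1
  unfold row at h1
  have h2 := natZ_inj.1 (ZFSet.pair_inj.1 h1).2
  omega

theorem KK.empty (Ω : Ordinal.{0}) : KK Ω ∅ := by
  refine ⟨⟨∅, fun z => ?_⟩, fun k hk => absurd hk (ZFSet.notMem_empty k)⟩
  simp

theorem KK.sym {Ω : Ordinal.{0}} {K L : ZFSet.{0}} (hK : KK Ω K) (hL : KK Ω L) : KK Ω (symZ K L) := by
  refine ⟨finZ_iff_finite.2 (((finZ_iff_finite.1 hK.1).union (finZ_iff_finite.1 hL.1)).subset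
    fun z hz => ?_), fun k hk => ?_⟩
  · rcases mem_symZ.1 hz with h | h
    · exact Or.inl h.1
    · exact Or.inr h.1
  · rcases mem_symZ.1 hk with h | h
    · exact hK.2 k h.1
    · exact hL.2 k h.1

theorem KK.sep {Ω : Ordinal.{0}} {K : ZFSet.{0}} (hK : KK Ω K) (φ : ZFSet.{0} → Prop) : KK Ω (ZFSet.sep φ K) :=
  ⟨FinZ.sub hK.1 fun z hz => (ZFSet.mem_sep.1 hz).1, fun k hk => hK.2 k (ZFSet.mem_sep.1 hk).1⟩

theorem LE.refl (Ω : Ordinal.{0}) (c p : ZFSet.{0}) : LE Ω c p p :=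
  ⟨∅, KK.empty Ω, fun _ _ h => absurd h (ZFSet.notMem_empty _), fun ρ y z h => by rwa [tr_empty]⟩

theorem LE.trans {Ω : Ordinal.{0}} {c p q r : ZFSet.{0}} (h : LE Ω c p q) (h' : LE Ω c q r) : LE Ω c p r := by
  obtain ⟨K, hK, hKc, h1⟩ := h
  obtain ⟨L, hL, hLc, h2⟩ := h'
  refine ⟨symZ K L, hK.sym hL, fun ρ a ha => ?_, fun ρ y z hz => ?_⟩
  · rcases mem_symZ.1 ha with h | h
    · exact hKc ρ a h.1
    · exact hLc ρ a h.1
  · rw [← tr_tr]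
    exact h1 _ _ _ (h2 _ _ _ hz)

theorem LE.anti {Ω : Ordinal.{0}} {c c' p q : ZFSet.{0}} (h : LE Ω c p q) (hc : c' ⊆ c) : LE Ω c' p q := by
  obtain ⟨K, hK, hKc, h1⟩ := h
  exact ⟨K, hK, fun ρ a ha h3 => hKc ρ a ha (hc h3), h1⟩

theorem LE.to0 {Ω : Ordinal.{0}} {c p q : ZFSet.{0}} (h : LE Ω c p q) : LE Ω ∅ p q :=
  h.anti fun z hz => absurd hz (ZFSet.notMem_empty z)

theorem LE.of_sub {Ω : Ordinal.{0}} {c p q : ZFSet.{0}} (h : q ⊆ p) : LE Ω c p q :=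
  ⟨∅, KK.empty Ω, fun _ _ h => absurd h (ZFSet.notMem_empty _), fun ρ y z hz => by rw [tr_empty]; exact h hz⟩

/-- The translation may be restricted to the rows that occur in `q` and satisfy a property that all
rows of `q` have. -/
theorem LE.cut {Ω : Ordinal.{0}} {c p q : ZFSet.{0}} (h : LE Ω c p q) :
    ∃ K, KK Ω K ∧ Av K c ∧ (∀ ρ a, ZFSet.pair ρ a ∈ K → ∃ y z, ent ρ y z ∈ q) ∧
      ∀ ρ y z, ent ρ y z ∈ q → ent ρ y (tr K ρ y z) ∈ p := by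
  obtain ⟨K, hK, hKc, h1⟩ := h
  refine ⟨ZFSet.sep (fun k => ∃ ρ a y z, k = ZFSet.pair ρ a ∧ ent ρ y z ∈ q) K, hK.sep _, ?_, ?_, ?_⟩
  · intro ρ a ha
    exact hKc ρ a (ZFSet.mem_sep.1 ha).1
  · intro ρ a ha
    obtain ⟨ρ', a', y, z, h2, h3⟩ := (ZFSet.mem_sep.1 ha).2
    rw [ZFSet.pair_inj] at h2
    exact ⟨y, z, h2.1 ▸ h3⟩
  · intro ρ y z hz
    have e := tr_congr (K := ZFSet.sep (fun k => ∃ ρ a y z, k = ZFSet.pair ρ a ∧ ent ρ y z ∈ q) K) (L := K)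
      (ρ := ρ) (fun a => ⟨fun h => (ZFSet.mem_sep.1 h).1, fun h => ZFSet.mem_sep.2 ⟨h, ρ, a, y, z, rfl, hz⟩⟩) y z
    rw [e]
    exact h1 ρ y z hz

/-- The orders `≤_c` and `≤_c'` agree below `q` if the same rows of `q` are in `c` and `c'`. -/
theorem LE.congr_c {Ω : Ordinal.{0}} {c c' p q : ZFSet.{0}}
    (h : ∀ ρ y z, ent ρ y z ∈ q → (ρ ∈ c ↔ ρ ∈ c')) : LE Ω c p q ↔ LE Ω c' p q := by
  constructor
  · intro h1
    obtain ⟨K, hK, hKc, h2, h3⟩ := h1.cut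
    refine ⟨K, hK, fun ρ a ha hc => ?_, h3⟩
    obtain ⟨y, z, hz⟩ := h2 ρ a ha
    exact hKc ρ a ha ((h ρ y z hz).2 hc)
  · intro h1
    obtain ⟨K, hK, hKc, h2, h3⟩ := h1.cut
    refine ⟨K, hK, fun ρ a ha hc => ?_, h3⟩
    obtain ⟨y, z, hz⟩ := h2 ρ a ha
    exact hKc ρ a ha ((h ρ y z hz).1 hc)

open Classical in
/-- The translate of `p` by `K`. -/
noncomputable def trp (K p : ZFSet.{0}) : ZFSet.{0} :=
  ZFSet.range (fun i : Shrink.{0} {e : ZFSet.{0} // e ∈ p} =>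
    if h : ∃ ρ y z, ((equivShrink _).symm i).1 = ent ρ y z then
      ent h.choose h.choose_spec.choose (tr K h.choose h.choose_spec.choose h.choose_spec.choose_spec.choose)
    else ∅)

open Classical in
/-- The translate of an entry. -/
noncomputable def trF (K e : ZFSet.{0}) : ZFSet.{0} :=
  if h : ∃ ρ y z, e = ent ρ y z then
    ent h.choose h.choose_spec.choose (tr K h.choose h.choose_spec.choose h.choose_spec.choose_spec.choose)
  else ∅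

theorem trF_ent (K ρ y z : ZFSet.{0}) : trF K (ent ρ y z) = ent ρ y (tr K ρ y z) := by
  have h : ∃ ρ' y' z', ent ρ y z = ent ρ' y' z' := ⟨ρ, y, z, rfl⟩
  have key : ∀ a b c, ρ = a → y = b → z = c → ent a b (tr K a b c) = ent ρ y (tr K ρ y z) := by
    rintro a b c rfl rfl rfl
    rfl
  unfold trF
  rw [dif_pos h]
  have h1 := ent_inj.1 h.choose_spec.choose_spec.choose_spec
  exact key _ _ _ h1.1 h1.2.1 h1.2.2

theorem trp_eq (K p : ZFSet.{0}) : trp K p =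
    ZFSet.range (fun i : Shrink.{0} {e : ZFSet.{0} // e ∈ p} => trF K ((equivShrink _).symm i).1) := rfl

theorem mem_trp0 {K p e : ZFSet.{0}} : e ∈ trp K p ↔ ∃ e' ∈ p, e = trF K e' := by
  rw [trp_eq, ZFSet.mem_range]
  constructor
  · rintro ⟨i, rfl⟩
    exact ⟨_, ((equivShrink _).symm i).2, rfl⟩
  · rintro ⟨e', he', rfl⟩
    exact ⟨equivShrink _ ⟨e', he'⟩, by simp only [Equiv.symm_apply_apply]⟩

theorem mem_trp {K p e : ZFSet.{0}} (hp : IsE p) : e ∈ trp K p ↔ ∃ ρ y z, ent ρ y z ∈ p ∧ e = ent ρ y (tr K ρ y z) := by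
  rw [mem_trp0]
  constructor
  · rintro ⟨e', he', rfl⟩
    obtain ⟨ρ, y, z, rfl⟩ := hp e' he'
    exact ⟨ρ, y, z, he', trF_ent K ρ y z⟩
  · rintro ⟨ρ, y, z, h, rfl⟩
    exact ⟨_, h, (trF_ent K ρ y z).symm⟩

theorem isE_trp {K p : ZFSet.{0}} (hp : IsE p) : IsE (trp K p) := by
  intro e he
  obtain ⟨ρ, y, z, -, h⟩ := (mem_trp hp).1 he
  exact ⟨ρ, y, _, h⟩

theorem ent_mem_trp {K p ρ y z : ZFSet.{0}} (hp : IsE p) : ent ρ y z ∈ trp K p ↔ ent ρ y (tr K ρ y z) ∈ p := by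
  rw [mem_trp hp]
  constructor
  · rintro ⟨ρ', y', z', h, e⟩
    obtain ⟨rfl, rfl, rfl⟩ := ent_inj.1 e
    rwa [tr_self]
  · intro h
    exact ⟨ρ, y, _, h, by rw [tr_self]⟩

theorem ext_isE {p q : ZFSet.{0}} (hp : IsE p) (hq : IsE q)
    (h : ∀ ρ y z, ent ρ y z ∈ p ↔ ent ρ y z ∈ q) : p = q := by
  ext e
  constructor
  · intro he
    obtain ⟨ρ, y, z, rfl⟩ := hp e he
    exact (h _ _ _).1 he
  · intro he
    obtain ⟨ρ, y, z, rfl⟩ := hq e he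
    exact (h _ _ _).2 he

theorem trp_trp {K p : ZFSet.{0}} (hp : IsE p) : trp K (trp K p) = p := by
  refine ext_isE (isE_trp (isE_trp hp)) hp fun ρ y z => ?_
  rw [ent_mem_trp (isE_trp hp), ent_mem_trp hp, tr_self]

theorem trp_fin {K p : ZFSet.{0}} (hp : FinZ p) : FinZ (trp K p) := by
  refine finZ_iff_finite.2 (((finZ_iff_finite.1 hp).image (trF K)).subset fun e he => ?_)
  obtain ⟨e', h1, h2⟩ := mem_trp0.1 he
  exact ⟨e', h1, h2.symm⟩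

theorem LE_iff {Ω : Ordinal.{0}} {c p q : ZFSet.{0}} (hq : IsE q) :
    LE Ω c p q ↔ ∃ K, KK Ω K ∧ Av K c ∧ trp K q ⊆ p := by
  constructor
  · rintro ⟨K, hK, hc, h⟩
    refine ⟨K, hK, hc, fun e he => ?_⟩
    obtain ⟨ρ, y, z, h1, rfl⟩ := (mem_trp hq).1 he
    exact h _ _ _ h1
  · rintro ⟨K, hK, hc, h⟩
    exact ⟨K, hK, hc, fun ρ y z hz => h ((mem_trp hq).2 ⟨ρ, y, z, hz, rfl⟩)⟩

theorem LE_trp {Ω : Ordinal.{0}} {c K p : ZFSet.{0}} (hp : IsE p) (hK : KK Ω K) (hc : Av K c) :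
    LE Ω c (trp K p) p ∧ LE Ω c p (trp K p) :=
  ⟨⟨K, hK, hc, fun ρ y z hz => (mem_trp hp).2 ⟨ρ, y, z, hz, rfl⟩⟩,
    ⟨K, hK, hc, fun ρ y z hz => (ent_mem_trp hp).1 hz⟩⟩

/-- Translation by a fixed `K` (also on the rows in `c`) is an automorphism of `≤_c`. -/
theorem LE_trp_trp {Ω : Ordinal.{0}} {c K p q : ZFSet.{0}} (hp : IsE p) (hq : IsE q) (hK : KK Ω K) :
    LE Ω c (trp K p) (trp K q) ↔ LE Ω c p q := by
  have key : ∀ p q : ZFSet.{0}, IsE p → IsE q → LE Ω c p q → LE Ω c (trp K p) (trp K q) := by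
    rintro p q hp hq ⟨L, hL, hc, h⟩
    refine ⟨L, hL, hc, fun ρ y z hz => ?_⟩
    have h1 := h _ _ _ ((ent_mem_trp hq).1 hz)
    rw [ent_mem_trp hp]
    have e : tr K ρ y (tr L ρ y z) = tr L ρ y (tr K ρ y z) := by
      rw [tr_tr, tr_tr]
      refine tr_congr (fun a => ?_) y z
      rw [mem_symZ, mem_symZ, or_comm]
    rw [e]
    exact h1
  refine ⟨fun h => ?_, key p q hp hq⟩
  have h1 := key _ _ (isE_trp hp) (isE_trp hq) h
  rwa [trp_trp hp, trp_trp hq] at h1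

theorem LE.transl {Ω : Ordinal.{0}} {p r : ZFSet.{0}} (hp : IsE p) (hr : IsE r) (h : LE Ω ∅ r p) :
    ∃ K, KK Ω K ∧ p ⊆ trp K r ∧ LE Ω ∅ (trp K r) r ∧ LE Ω ∅ r (trp K r) := by
  obtain ⟨K, hK, -, h1⟩ := h
  refine ⟨K, hK, fun e he => ?_, LE_trp hr hK fun _ _ _ => ZFSet.notMem_empty _⟩
  obtain ⟨ρ, y, z, rfl⟩ := hp e he
  exact (ent_mem_trp hr).2 (h1 _ _ _ he)

end Pool.Agent.H17.CF
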